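import Pool.Agent.StripNear.GoodOfT
import Pool.Agent.StripNear.Chains
import Pool.Agent.StripNear.ArrayCount

/-! # Lattice structure in strips of height up to `(n + 1) h0 + 1 / 100`

The statements of `StripNear` for `InStrip ((n + 1) h0)`, in a slightly higher strip. -/

namespace Pool.Agent.StripTwo

open Pool.Agent.StripNear

variable {X : Finset Pt} {n : ℕ}

theorem band_le2 {p : Pt} (h : 0 ≤ p.2) (h' : p.2 ≤ ((n : ℝ) + 1) * h0 + 1 / 100) :
    band p ≤ n + 1 := by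
  unfold band
  have hh := h0_pos
  have h0g := h0_gt
  have h1 : p.2 / h0 ≤ n + 1 + 1 / 50 := by
    rw [div_le_iff₀ hh]
    nlinarith
  have h2 : 0 ≤ p.2 / h0 := div_nonneg h hh.le
  have h3 : ⌊p.2 / h0 + 1 / 2⌋₊ < n + 2 := by
    rw [Nat.floor_lt (by linarith)]
    push_cast
    linarith
  omega

/-- Every point of the zone is in a row. -/
theorem zone_row2 (hH : InStrip (((n : ℝ) + 1) * h0 + 1 / 100) X) {κ α β : ℝ} (hκ1 : κ ≤ 1 / 1000)
    (hR : Rows X (n + 2) κ α β) {p : Pt} (hp : p ∈ X) (h1 : α ≤ p.1) (h2 : p.1 < β) :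
    ∃ r < n + 2, |p.2 - r * h0| ≤ κ := by
  rcases hR.1 p hp h1 h2 with h | h
  · exact h
  · exfalso
    have h0g := h0_gt
    have h3 := (hH p hp).2
    push_cast at h
    linarith

/-- Two consecutive points of row `s` around a given abscissa. -/
theorem walk2 (hH : InStrip (((n : ℝ) + 1) * h0 + 1 / 100) X) {κ α β : ℝ} (hκ : 0 ≤ κ)
    (hκ1 : κ ≤ 1 / 1000) (hR : Rows X (n + 2) κ α β) {s : ℕ} (hs : s < n + 2) {x : ℝ}
    (h1 : α + 4 ≤ x) (h2 : x + 2 < β) :
    ∃ z ∈ X, ∃ z' ∈ X, z.1 ≤ x ∧ x < z'.1 ∧ z'.1 - z.1 ≤ 1 + κ ∧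
      |z.2 - s * h0| ≤ κ ∧ |z'.2 - s * h0| ≤ κ := by
  classical
  obtain ⟨z0, hz0, h3, h4, h5⟩ := hR.2.1 s hs x (by linarith) (by linarith)
  obtain ⟨z, hz, hzm⟩ := Finset.exists_max_image
    (X.filter (fun z => |z.2 - s * h0| ≤ κ ∧ z.1 ≤ x)) (fun z => z.1)
    ⟨z0, Finset.mem_filter.2 ⟨hz0, h5, h4⟩⟩
  rw [Finset.mem_filter] at hz
  obtain ⟨hzX, hz1, hz2⟩ := hz
  have h6 : z0.1 ≤ z.1 := hzm z0 (Finset.mem_filter.2 ⟨hz0, h5, h4⟩)
  obtain ⟨z', hz', h7, h8⟩ := hR.2.2 s hs z hzX (by linarith) (by linarith) hz1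
  rw [abs_le] at h7
  obtain ⟨r', hr', h9⟩ := zone_row2 hH hκ1 hR hz' (by linarith [h7.1]) (by linarith [h7.2])
  have h10 : |z'.2 - s * h0| ≤ 1 / 20 := by
    rw [abs_le] at h8 hz1 ⊢
    constructor <;> linarith [h8.1, h8.2, hz1.1, hz1.2]
  have h11 : r' = s := got_row_unique (h9.trans (by linarith)) h10
  subst h11
  refine ⟨z, hzX, z', hz', hz2, ?_, by linarith [h7.2], hz1, h9⟩
  by_contra hcon
  push Not at hcon
  have := hzm z' (Finset.mem_filter.2 ⟨hz', h9, hcon⟩)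
  linarith [h7.1]

theorem adj_near2 (hX : UnitSep X) (hH : InStrip (((n : ℝ) + 1) * h0 + 1 / 100) X) {κ α β : ℝ} (hκ : 0 ≤ κ)
    (hκ1 : κ ≤ 1 / 1000) (hR : Rows X (n + 2) κ α β) {r s : ℕ} (hs : s < n + 2) {p : Pt}
    (hp : p ∈ X) (hpr : |p.2 - r * h0| ≤ κ) (h1 : α + 4 ≤ p.1) (h2 : p.1 + 2 < β) {d : ℝ}
    (hd : d = h0 ∨ d = -h0) (hrs : (s : ℝ) * h0 = r * h0 + d) :
    ∃ q ∈ X, Near (10 * κ) p (1 / 2) d q := by
  have h0g := h0_gt
  obtain ⟨z, hz, z', hz', h3, h4, h5, h6, h7⟩ := walk2 hH hκ hκ1 hR hs h1 h2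
  rw [hrs] at h6 h7
  rw [abs_le] at h6 h7 hpr
  have hz1 : h0 - 2 * κ ≤ |p.2 - z.2| ∧ |p.2 - z.2| ≤ h0 + 2 * κ := by
    rcases hd with hd | hd
    · subst hd
      rw [abs_of_nonpos (by linarith)]
      constructor <;> linarith
    · subst hd
      rw [abs_of_nonneg (by linarith)]
      constructor <;> linarith
  have hz2 : h0 - 2 * κ ≤ |z'.2 - p.2| ∧ |z'.2 - p.2| ≤ h0 + 2 * κ := by
    rcases hd with hd | hd
    · subst hd
      rw [abs_of_nonneg (by linarith)]
      constructor <;> linarith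
    · subst hd
      rw [abs_of_nonpos (by linarith)]
      constructor <;> linarith
  have h8 := got_adj_dist hX hκ hκ1 hz hp h3 hz1.1 hz1.2
  have h9 := got_adj_dist hX hκ hκ1 hp hz' h4.le hz2.1 hz2.2
  refine ⟨z', hz', ?_, ?_⟩
  · rw [abs_le]
    constructor <;> linarith
  · rw [abs_le]
    constructor <;> linarith

/-- North-east and south-east neighbours from complete rows. -/
theorem good_of_rows2 (hX : UnitSep X) (hH : InStrip (((n : ℝ) + 1) * h0 + 1 / 100) X) {κ u : ℝ}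
    (hκ : 0 ≤ κ) (hκ1 : κ ≤ 1 / 1000)
    (hR : Rows X (n + 2) κ (u - (2 * n + 30)) (u + (2 * n + 30))) : Good X n (10 * κ) u := by
  have hn : (0 : ℝ) ≤ n := Nat.cast_nonneg n
  refine ⟨?_, ?_⟩
  · intro p hp hpu
    rw [abs_le] at hpu
    obtain ⟨r, hr, h1⟩ := zone_row2 hH hκ1 hR hp (by linarith [hpu.1]) (by linarith [hpu.2])
    refine ⟨r, by omega, h1.trans (by linarith), ?_, ?_, ?_⟩
    · obtain ⟨q, hq, h2, h3⟩ := hR.2.2 r hr p hp (by linarith [hpu.1]) (by linarith [hpu.2]) h1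
      exact ⟨q, hq, h2.trans (by linarith), h3.trans (by linarith)⟩
    · intro hrn
      refine adj_near2 hX hH hκ hκ1 hR (s := r + 1) (by omega) hp h1 (by linarith [hpu.1])
        (by linarith [hpu.2]) (Or.inl rfl) ?_
      push_cast
      ring
    · intro hr1
      obtain ⟨t, rfl⟩ : ∃ t, r = t + 1 := ⟨r - 1, by omega⟩
      refine adj_near2 hX hH hκ hκ1 hR (s := t) (by omega) hp h1 (by linarith [hpu.1])
        (by linarith [hpu.2]) (Or.inr rfl) ?_
      push_cast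
      ring
  · obtain ⟨p, hp, h1, h2, h3⟩ := hR.2.1 0 (by omega) u (by linarith) (by linarith)
    refine ⟨p, hp, ?_, ?_⟩
    · rw [abs_le]
      constructor <;> linarith
    · rw [Nat.cast_zero, zero_mul, sub_zero] at h3
      exact h3.trans (by linarith)

theorem good_of_T2 (n : ℕ) {ρ : ℝ} (hρ : 0 < ρ) :
    ∃ ε > 0, ∀ X : Finset Pt, UnitSep X → InStrip (((n : ℝ) + 1) * h0 + 1 / 100) X → ∀ u : ℝ,
      T X n (u - win n) (u + win n) ≤ ε → Good X n ρ u := by
  have hκ0 : 0 < min (ρ / 10) (1 / 1000 : ℝ) := lt_min (by positivity) (by norm_num)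
  have hκ1 : min (ρ / 10) (1 / 1000 : ℝ) ≤ 1 / 1000 := min_le_right _ _
  obtain ⟨ε, hε, h⟩ := rows_all n hκ0 hκ1
  refine ⟨ε, hε, ?_⟩
  intro X hX hH u hT
  have hR := h X hX (fun p hp => (hH p hp).1) _ _ hT
  have hn : (0 : ℝ) ≤ n := Nat.cast_nonneg n
  have hw : ((win n : ℕ) : ℝ) = 12 * n + 60 := by
    unfold win
    push_cast
    ring
  have hR' : Rows X (n + 2) (min (ρ / 10) (1 / 1000 : ℝ)) (u - (2 * n + 30))
      (u + (2 * n + 30)) := by
    refine got_rows_mono_interval ?_ ?_ hR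
    · rw [hw]
      linarith
    · rw [hw]
      linarith
  have hG := good_of_rows2 hX hH hκ0.le hκ1 hR'
  refine got_good_mono ?_ hG
  have := min_le_left (ρ / 10) (1 / 1000 : ℝ)
  linarith

theorem chain_left2 (hX : UnitSep X) (hH : InStrip (((n : ℝ) + 1) * h0 + 1 / 100) X) {ρ η u : ℝ}
    (hρ : 0 ≤ ρ) (hρ1 : ρ ≤ 1 / 100) (hη : 2 * ρ ≤ η) {c : ℕ → Pt}
    (hG : Good X n ρ u) (hc : IsChain X n ρ u c) : LeftOK X n η (fun r => (c r).1) := by
  intro j hj a h1 h2 p hp h3 h4 h5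
  have hn : (0 : ℝ) ≤ n := Nat.cast_nonneg n
  have h0g := h0_gt
  simp only at h5 ⊢
  by_cases h6 : |p.1 - u| ≤ 2 * n + 20
  · have h7 := slab_row hρ hη hG h1 h2 hp h3 h4 h6
    have h8 : band p = j := band_eq (by linarith)
    rw [h8] at h5
    exact h5
  · have hb : band p ≤ n + 1 := band_le2 (hH p hp).1 (hH p hp).2
    have h7 := chain_bounds hρ hρ1 hc hj
    have h8 := chain_bounds hρ hρ1 hc hb
    rw [abs_le, not_and_or, not_le, not_le] at h6
    rcases h6 with h6 | h6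
    · linarith [h8.1]
    · linarith [h7.2]

theorem chain_right2 (hX : UnitSep X) (hH : InStrip (((n : ℝ) + 1) * h0 + 1 / 100) X) {ρ η u : ℝ}
    (hρ : 0 ≤ ρ) (hρ1 : ρ ≤ 1 / 100) (hη : 2 * ρ ≤ η) {c : ℕ → Pt}
    (hG : Good X n ρ u) (hc : IsChain X n ρ u c) : RightOK X n η (fun r => (c r).1) := by
  intro j hj a h1 h2 p hp h3 h4 h5
  have hn : (0 : ℝ) ≤ n := Nat.cast_nonneg n
  have h0g := h0_gt
  simp only at h5 ⊢
  by_cases h6 : |p.1 - u| ≤ 2 * n + 20
  · have h7 := slab_row hρ hη hG h1 h2 hp h3 h4 h6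
    have h8 : band p = j := band_eq (by linarith)
    rw [h8] at h5
    have h9 := abs_le.1 (chain_row hρ hρ1 hG hc hj)
    have h10 : xn X p a ≤ (c j).1 - p.1 := by
      refine xn_le (hc.1 j hj) ?_ ?_ h5
      · linarith
      · nlinarith
    linarith
  · have hb : band p ≤ n + 1 := band_le2 (hH p hp).1 (hH p hp).2
    have h7 := chain_bounds hρ hρ1 hc hj
    have h8 := chain_bounds hρ hρ1 hc hb
    have h9 := xn_le_two X p a
    rw [abs_le, not_and_or, not_le, not_le] at h6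
    rcases h6 with h6 | h6
    · linarith [h7.1]
    · linarith [h8.2]

/-- Between column `0` and column `K` there are no other points. -/
theorem count_array2 (hX : UnitSep X) {ρ lo hi : ℝ} (hρ : 0 ≤ ρ) (hρ1 : ρ ≤ 1 / 100)
    (hH : InStrip (((n : ℝ) + 1) * h0 + 1 / 100) X)
    (hZ : Lat X n ρ lo hi) {K : ℕ} {P : ℕ → ℕ → Pt} (hP : IsArray X n ρ K P)
    (h1 : ∀ r ≤ n + 1, lo ≤ (P r 0).1) (h2 : ∀ r ≤ n + 1, (P r K).1 ≤ hi) :
    (StripNear.btw X (fun r => (P r 0).1) (fun r => (P r K).1)).card ≤ K * (n + 2) := by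
  classical
  have h0g := h0_gt
  have hsub : StripNear.btw X (fun r => (P r 0).1) (fun r => (P r K).1) ⊆
      (Finset.range K ×ˢ Finset.range (n + 2)).image (fun q : ℕ × ℕ => P q.2 q.1) := by
    intro p hp
    unfold StripNear.btw at hp
    rw [Finset.mem_filter] at hp
    obtain ⟨hpX, h3, h4⟩ := hp
    have hHp := hH p hpX
    have hb : band p ≤ n + 1 := band_le2 hHp.1 (by linarith [hHp.2])
    obtain ⟨r, hr, hr1, -, -, -⟩ := hZ p hpX ((h1 _ hb).trans h3) (h4.le.trans (h2 _ hb))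
    have hbr : band p = r := band_eq (by linarith)
    rw [hbr] at h3 h4
    simp only at h3 h4
    -- the position in the row
    have hex : ∃ i, p.1 < (P r i).1 := ⟨K, h4⟩
    set i := Nat.find hex with hi
    have hi1 : p.1 < (P r i).1 := Nat.find_spec hex
    have hiK : i ≤ K := Nat.find_min' hex h4
    have hi0 : i ≠ 0 := by
      intro h
      rw [h] at hi1
      linarith
    obtain ⟨j, hj⟩ := Nat.exists_eq_succ_of_ne_zero hi0
    have hj1 : (P r j).1 ≤ p.1 := by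
      have := Nat.find_min hex (m := j) (by omega)
      exact not_lt.1 this
    rw [Finset.mem_image]
    refine ⟨(j, r), ?_, ?_⟩
    · rw [Finset.mem_product, Finset.mem_range, Finset.mem_range]
      exact ⟨by simp only; omega, by simp only; omega⟩
    · simp only
      by_contra hne
      have h5 := row_sep hX hρ1 (hP.mem r hr j (by omega)) hpX hne (hP.row r hr j (by omega))
        hr1 hj1
      have hi1' : p.1 < (P r (j + 1)).1 := by
        rw [hj] at hi1
        exact hi1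
      have hne' : p ≠ P r (j + 1) := by
        intro h
        rw [← h] at hi1'
        exact lt_irrefl _ hi1'
      have h6 := row_sep hX hρ1 hpX (hP.mem r hr (j + 1) (by omega)) hne' hr1
        (hP.row r hr (j + 1) (by omega)) hi1'.le
      have h7 := (hP.east r hr j (by omega)).1
      rw [abs_le] at h7
      linarith
  calc (StripNear.btw X (fun r => (P r 0).1) (fun r => (P r K).1)).card
      ≤ ((Finset.range K ×ˢ Finset.range (n + 2)).image (fun q : ℕ × ℕ => P q.2 q.1)).card :=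
        Finset.card_le_card hsub
    _ ≤ (Finset.range K ×ˢ Finset.range (n + 2)).card := Finset.card_image_le
    _ = K * (n + 2) := by rw [Finset.card_product, Finset.card_range, Finset.card_range]

end Pool.Agent.StripTwo
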