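import Pool.Agent.StripTwo.E2_Data
import Pool.Agent.StripTwo.Structure

/-! # The data of an array of points -/

namespace Pool.Agent.StripTwo

open Pool.Agent.StripNear

variable {X : Finset Pt} {n : ℕ}

private theorem e11_sqrt_le {x y : ℝ} (hy : 0 ≤ y) (h : 1 ≤ x ^ 2 + y ^ 2) :
    Real.sqrt (1 - x ^ 2) ≤ y := by
  rw [Real.sqrt_le_left hy]
  linarith

private theorem e11_row_unique {r r' : ℕ} {t ρ η : ℝ} (h1 : |t - r * h0| ≤ ρ)
    (h2 : |t - r' * h0| ≤ η) (h : ρ + η < h0) : r = r' := by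
  have hp := h0_pos
  have h3 : |((r : ℝ) - r') * h0| < h0 := by
    have e : ((r : ℝ) - r') * h0 = (t - r' * h0) - (t - r * h0) := by ring
    rw [e]
    calc |(t - r' * h0) - (t - r * h0)| ≤ |t - r' * h0| + |t - r * h0| := abs_sub _ _
      _ < h0 := by linarith
  rw [abs_mul, abs_of_pos hp] at h3
  have h4 : |(r : ℝ) - r'| < 1 := by
    by_contra h5
    push Not at h5
    nlinarith
  have h6 : |((r : ℤ) - (r' : ℤ) : ℤ)| < 1 := by
    have : ((|((r : ℤ) - (r' : ℤ) : ℤ)| : ℤ) : ℝ) < 1 := by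
      push_cast
      exact h4
    exact_mod_cast this
  have h7 : (r : ℤ) - (r' : ℤ) = 0 := Int.abs_lt_one_iff.1 h6
  omega

/-- Distances: two neighbours of the array are different points of `X` (their positions differ),
so their distance is at least one.  `upL`: `(1/2 + s)² + (h0 + t' - t)² ≥ 1` and
`h0 + t' - t > 0`.  Compare `StripNear/ArrayElastic.lean`. -/
theorem q2_of_array (hX : UnitSep X) {ρ σ : ℝ} (hρ : 0 ≤ ρ) (hρ1 : ρ ≤ 1 / 100)
    (hH : InStrip (((n : ℝ) + 1) * h0 + σ) X) {N : ℕ} {P : ℕ → ℕ → Pt}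
    (hP : IsArray X n ρ N P) :
    Q2 n N σ ρ (fun r i => (P r i).2 - r * h0) (fun r i => (P (r + 1) i).1 - (P r i).1 - 1 / 2)
      (fun r i => 1 - ((P r (i + 1)).1 - (P r i).1)) := by
  have h0g := h0_gt
  refine ⟨?_, ?_, ?_, ?_, ?_, ?_, ?_, ?_, ?_⟩
  · intro i hi
    have := (hH _ (hP.mem 0 (by omega) i hi)).1
    simpa using this
  · intro i hi
    have := (hH _ (hP.mem (n + 1) le_rfl i hi)).2
    push_cast
    linarith
  · intro r hr i hi
    exact hP.row r hr i hi
  · intro r hr i hi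
    exact (hP.ne r hr i hi).1
  · intro r hr i hi
    have h2 := (hP.east r hr i hi).1
    rw [abs_le] at h2 ⊢
    constructor <;> linarith [h2.1, h2.2]
  · intro r hr i hi
    ring
  · intro r hr i hi
    have h1 := (hP.ne r hr i hi).2
    have hne : P (r + 1) i ≠ P r i := by
      intro h
      rw [h] at h1
      rw [abs_le] at h1
      linarith [h1.1]
    have h2 := hX _ (hP.mem (r + 1) (by omega) i hi) _ (hP.mem r (by omega) i hi) hne
    rw [abs_le] at h1
    have h3 : Real.sqrt (1 - ((P (r + 1) i).1 - (P r i).1) ^ 2) ≤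
        (P (r + 1) i).2 - (P r i).2 := e11_sqrt_le (by linarith [h1.1]) h2
    have e : (1 : ℝ) / 2 + ((P (r + 1) i).1 - (P r i).1 - 1 / 2) =
        (P (r + 1) i).1 - (P r i).1 := by ring
    simp only [g]
    rw [e]
    push_cast
    linarith
  · intro r hr i hi
    have h1 := hP.row (r + 1) (by omega) i hi.le
    have h2 := hP.row r (by omega) (i + 1) (by omega)
    push_cast at h1
    rw [abs_le] at h1 h2
    have hpos : 0 ≤ (P (r + 1) i).2 - (P r (i + 1)).2 := by
      linarith [h1.1, h2.2]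
    have hne : P r (i + 1) ≠ P (r + 1) i := by
      intro h
      rw [h] at h2
      linarith [h1.1, h2.2]
    have h3 := hX _ (hP.mem r (by omega) (i + 1) (by omega)) _
      (hP.mem (r + 1) (by omega) i hi.le) hne
    have h4 : ((P r (i + 1)).2 - (P (r + 1) i).2) ^ 2 =
        ((P (r + 1) i).2 - (P r (i + 1)).2) ^ 2 := by ring
    rw [h4] at h3
    have h5 := e11_sqrt_le hpos h3
    have e : (1 : ℝ) / 2 + -((P (r + 1) i).1 - (P r i).1 - 1 / 2 +
        (1 - ((P r (i + 1)).1 - (P r i).1))) = (P r (i + 1)).1 - (P (r + 1) i).1 := by ring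
    simp only [g]
    rw [e]
    push_cast
    linarith
  · intro r hr i hi
    have h1 := (hP.east r hr i hi).1
    have hne : P r (i + 1) ≠ P r i := by
      intro h
      rw [h] at h1
      rw [abs_le] at h1
      linarith [h1.1]
    have h2 := hX _ (hP.mem r hr (i + 1) (by omega)) _ (hP.mem r hr i hi.le) hne
    rw [abs_le] at h1
    rw [add_comm] at h2
    have h3 := e11_sqrt_le (x := (P r (i + 1)).2 - (P r i).2)
      (y := (P r (i + 1)).1 - (P r i).1) (by linarith [h1.1]) h2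
    have e : (P r (i + 1)).2 - (r : ℝ) * h0 - ((P r i).2 - r * h0) =
        (P r (i + 1)).2 - (P r i).2 := by ring
    simp only [psi]
    rw [e]
    linarith

/-- Near an almost perfect cell the array is within `η` of the lattice. The row number of the
point `P r i` in `Good X n η u` is `r`; neighbours are identified by `near_unique`
(compare `hrow`, `hNE` in `StripNear/Run.lean`). -/
theorem end_row (hX : UnitSep X) {ρ η u : ℝ} (hρ : 0 ≤ ρ) (hρ1 : ρ ≤ 1 / 100) (hη : 0 ≤ η)
    (hη1 : η ≤ 1 / 100) {N : ℕ} {P : ℕ → ℕ → Pt} (hP : IsArray X n ρ N P)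
    (hG : Good X n η u) {r i : ℕ} (hr : r ≤ n + 1) (hi : i ≤ N)
    (hpos : |(P r i).1 - u| ≤ 2 * n + 20) :
    |(P r i).2 - r * h0| ≤ η ∧ (r ≤ n → Near η (P r i) (1 / 2) h0 (P (r + 1) i)) ∧
      (i < N → Near η (P r i) 1 0 (P r (i + 1))) := by
  have hh0 := h0_gt
  obtain ⟨r', hr', h1, h2, h4, -⟩ := hG.1 (P r i) (hP.mem r hr i hi) hpos
  have h3 : r = r' := e11_row_unique (hP.row r hr i hi) h1 (by linarith)
  subst h3
  refine ⟨h1, fun hrn => ?_, fun hiN => ?_⟩
  · obtain ⟨q, hq, hq'⟩ := h4 hrn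
    have h5 : q = P (r + 1) i :=
      near_unique hX hq (hP.mem (r + 1) (by omega) i hi) hq' (hP.ne r hrn i hi) (by linarith)
    rw [← h5]
    exact hq'
  · obtain ⟨q, hq, hq'⟩ := h2
    have h5 : q = P r (i + 1) :=
      near_unique hX hq (hP.mem r hr (i + 1) hiN) hq' (hP.east r hr i hiN) (by linarith)
    rw [← h5]
    exact hq'

end Pool.Agent.StripTwo
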