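import Pool.Agent.StripTwo.E2_Data

/-! # Windows and end columns -/

namespace Pool.Agent.StripTwo

open Pool.Agent.StripNear

variable {n N : ℕ} {σ ρ : ℝ} {t s lam : ℕ → ℕ → ℝ}

/-- Every column lies in at most `2 n + 7` windows. -/
theorem sum_Wc_le (hσ : 0 < σ) (h : Q2 n N σ ρ t s lam) :
    ∑ i ∈ (Finset.range N).filter (fun i => n + 3 ≤ i ∧ i + n + 4 ≤ N), Wc n σ t s lam i
      ≤ (2 * n + 7) * ∑ i ∈ Finset.range N, Zc n σ t s lam i := by
  set F := (Finset.range N).filter (fun i => n + 3 ≤ i ∧ i + n + 4 ≤ N) with hF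
  have h1 : ∀ i ∈ F, Wc n σ t s lam i =
      ∑ j ∈ Finset.range N, if j ∈ Finset.Icc (i - (n + 3)) (i + (n + 3)) then
        Zc n σ t s lam j else 0 := by
    intro i hi
    rw [hF, Finset.mem_filter, Finset.mem_range] at hi
    unfold Wc
    rw [← Finset.sum_filter]
    refine Finset.sum_congr ?_ fun _ _ => rfl
    ext j
    rw [Finset.mem_filter, Finset.mem_range, Finset.mem_Icc]
    omega
  rw [Finset.sum_congr rfl h1, Finset.sum_comm, Finset.mul_sum]
  refine Finset.sum_le_sum fun j hj => ?_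
  rw [Finset.mem_range] at hj
  have hZ := Zc_nonneg hσ h hj
  rw [← Finset.sum_filter, Finset.sum_const, nsmul_eq_mul]
  refine mul_le_mul_of_nonneg_right ?_ hZ
  have h2 : (F.filter fun i => j ∈ Finset.Icc (i - (n + 3)) (i + (n + 3))).card ≤ 2 * n + 7 := by
    have h3 : (F.filter fun i => j ∈ Finset.Icc (i - (n + 3)) (i + (n + 3))) ⊆
        Finset.Icc (j - (n + 3)) (j + (n + 3)) := by
      intro i hi
      rw [Finset.mem_filter, hF, Finset.mem_filter, Finset.mem_range, Finset.mem_Icc] at hi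
      rw [Finset.mem_Icc]
      omega
    refine (Finset.card_le_card h3).trans ?_
    rw [Nat.card_Icc]
    omega
  exact_mod_cast h2

/-- There are at most `2 n + 6` end columns. -/
theorem card_end (n N : ℕ) :
    ((Finset.range N).filter (fun i => ¬ (n + 3 ≤ i ∧ i + n + 4 ≤ N))).card ≤ 2 * n + 6 := by
  have h1 : (Finset.range N).filter (fun i => ¬ (n + 3 ≤ i ∧ i + n + 4 ≤ N)) ⊆
      Finset.range (n + 3) ∪ Finset.Ico (N - (n + 3)) N := by
    intro i hi
    rw [Finset.mem_filter, Finset.mem_range] at hi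
    rw [Finset.mem_union, Finset.mem_range, Finset.mem_Ico]
    omega
  refine (Finset.card_le_card h1).trans ((Finset.card_union_le _ _).trans ?_)
  rw [Finset.card_range, Nat.card_Ico]
  omega

end Pool.Agent.StripTwo
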