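import Pool.Agent.StripTwo.E3w_Def

/-! # Clipped differences, small `lam` -/

namespace Pool.Agent.StripTwo

open Pool.Agent.StripNear

variable {n i : ℕ} {σ ρ S : ℝ} {t s lam : ℕ → ℕ → ℝ}

/-- If the low point is on the left and the high point on the right then `(1 - chi) / 2 ≤ E / σ`.
Here `0 ≤ E`. -/
theorem chi_up {r : ℕ} {E : ℝ} (hσ : 0 < σ) (hE : 0 ≤ E) (h1 : t r i ≤ E) (h2 : σ - E ≤ t r (i + 1)) :
    (1 - chi σ t r i) / 2 ≤ E / σ := by
  have h3 : 1 - 2 * (E / σ) ≤ dt t r i / σ := by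
    have h4 : σ - 2 * E ≤ dt t r i := by
      unfold dt
      linarith
    have h5 := div_le_div_of_nonneg_right h4 hσ.le
    rw [sub_div, div_self hσ.ne', mul_div_assoc] at h5
    exact h5
  have h6 : 0 ≤ E / σ := by positivity
  have h7 : 1 - 2 * (E / σ) ≤ chi σ t r i := by
    unfold chi
    exact le_max_of_le_right (le_min (by linarith) h3)
  linarith

theorem chi_down {r : ℕ} {E : ℝ} (hσ : 0 < σ) (hE : 0 ≤ E) (h1 : σ - E ≤ t r i) (h2 : t r (i + 1) ≤ E) :
    (1 + chi σ t r i) / 2 ≤ E / σ := by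
  have h3 : dt t r i / σ ≤ -1 + 2 * (E / σ) := by
    have h4 : dt t r i ≤ -σ + 2 * E := by
      unfold dt
      linarith
    have h5 := div_le_div_of_nonneg_right h4 hσ.le
    rw [add_div, neg_div, div_self hσ.ne', mul_div_assoc] at h5
    exact h5
  have h6 : 0 ≤ E / σ := by positivity
  have h7 : chi σ t r i ≤ -1 + 2 * (E / σ) := by
    unfold chi
    exact max_le (by linarith) ((min_le_right _ _).trans h3)
  linarith

/-- `|lam r j| ≤ S + 4 σ²` in the window, when `2 S ≤ σ`: `lam ≥ -σ S ≥ -S` and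
`lam ≤ psi (dt) ≤ dt²`, `|dt| ≤ σ + 2 S ≤ 2 σ`. -/
theorem lam_small (w : Win n σ ρ S i t s lam) (hσ : 0 < σ) (hσ1 : σ ≤ 1 / 32) (hS : 2 * S ≤ σ)
    {r j : ℕ} (hr : r ≤ n + 1) (h1 : i ≤ j) (h2 : j + r ≤ i + n + 2) :
    |lam r j| ≤ S + 4 * σ ^ 2 := by
  have hS0 := w.S0
  have a1 := w.la r hr j (by omega) (by omega)
  have a2 := w.lu r hr j (by omega) (by omega)
  have a3 := w.lo r hr j h1 (by omega)
  have a4 := w.lo r hr (j + 1) (by omega) (by omega)
  have a5 := w.up r hr j (by omega) (by omega)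
  have a6 := w.up r hr (j + 1) (by omega) (by omega)
  have hσS : σ * S ≤ S := by nlinarith
  have hσS0 : 0 ≤ σ * S := by positivity
  have hdt : |dt t r j| ≤ 2 * σ := by
    unfold dt
    rw [abs_le]
    have : 2 * (σ * S) ≤ σ := by linarith
    constructor <;> linarith
  have hpsi := psi_le_sq (v := dt t r j) (by linarith)
  have hsq : dt t r j ^ 2 ≤ (2 * σ) ^ 2 := by
    rw [← sq_abs]
    exact pow_le_pow_left₀ (abs_nonneg _) hdt 2
  rw [abs_le]
  constructor
  · nlinarith [sq_nonneg σ]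
  · nlinarith

end Pool.Agent.StripTwo
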