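import Pool.Agent.StripTwo.E3w_Def

/-! # The penalty lemma: definitions -/

namespace Pool.Agent.StripTwo

open Pool.Agent.StripNear

variable {n i : ℕ} {σ ρ S : ℝ} {t s lam : ℕ → ℕ → ℝ}

/-- The constant of the penalty lemma. -/
noncomputable def CP (n : ℕ) : ℝ := 100 * 3 ^ (n + 1)

/-- The three penalty inequalities at the cell `i`. -/
structure Pen (n : ℕ) (σ S : ℝ) (i : ℕ) (t s lam : ℕ → ℕ → ℝ) : Prop where
  p1 : ∀ r ≤ n + 1, |dt t r i| ≤ σ → |dt t r i| * (σ - |dt t r i|) ≤ CP n * σ * S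
  p2 : ∀ r ≤ n, (1 - chi σ t r i) / 2 * |s r i| + (1 + chi σ t r i) / 2 * |s r i + lam r i|
    ≤ CP n * S
  p3 : ∀ r ≤ n, (1 + chi σ t (r + 1) i) / 2 * |s r i + lam r i|
    + (1 - chi σ t (r + 1) i) / 2 * |s r (i + 1)| ≤ CP n * S

end Pool.Agent.StripTwo
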