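import Pool.Agent.StripTwo.E4_Dich
import Pool.Agent.StripTwo.E5p_Def
import Pool.Agent.StripTwo.E5a_Chi

/-! # Second penalty inequality -/

namespace Pool.Agent.StripTwo

open Pool.Agent.StripNear

variable {n i : ℕ} {σ ρ S : ℝ} {t s lam : ℕ → ℕ → ℝ}

private theorem pen2_down {r : ℕ} {E : ℝ} (hσ : 0 < σ) (hE : 0 ≤ E) (h1 : σ - E ≤ t r i)
    (h2 : t r (i + 1) ≤ E) : (1 + chi σ t r i) / 2 ≤ E / σ := by
  have h3 : dt t r i / σ ≤ 2 * (E / σ) - 1 := by
    rw [div_le_iff₀ hσ]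
    have h4 : (2 * (E / σ) - 1) * σ = 2 * E - σ := by field_simp
    rw [h4]
    unfold dt
    linarith
  have h5 : 0 ≤ E / σ := div_nonneg hE hσ.le
  have h6 : chi σ t r i ≤ 2 * (E / σ) - 1 := by
    unfold chi
    refine max_le (by linarith) ?_
    exact (min_le_right _ _).trans h3
  linarith

private theorem pen2_up {r : ℕ} {E : ℝ} (hσ : 0 < σ) (hE : 0 ≤ E) (h1 : t r i ≤ E)
    (h2 : σ - E ≤ t r (i + 1)) : (1 - chi σ t r i) / 2 ≤ E / σ := by
  have h3 : 1 - 2 * (E / σ) ≤ dt t r i / σ := by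
    rw [le_div_iff₀ hσ]
    have h4 : (1 - 2 * (E / σ)) * σ = σ - 2 * E := by field_simp
    rw [h4]
    unfold dt
    linarith
  have h5 : 0 ≤ E / σ := div_nonneg hE hσ.le
  have h6 : 1 - 2 * (E / σ) ≤ chi σ t r i := by
    unfold chi
    refine le_trans ?_ (le_max_right _ _)
    exact le_min (by linarith) h3
  linarith

/-- a convex combination of two numbers, the second with weight at most `E / σ` -/
private theorem pen2_comb {σ E S w1 w2 a b : ℝ} (hσ : 0 < σ) (hσ1 : σ ≤ 1 / 32) (hE : 0 ≤ E)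
    (hS : 0 ≤ S) (h1 : 0 ≤ w1) (h2 : 0 ≤ w2) (h12 : w1 + w2 = 1) (hw : w2 ≤ E / σ)
    (ha : a ≤ 2 * E + 3 * S) (hb : b ≤ 2 * E + 4 * S + 4 * σ ^ 2) :
    w1 * a + w2 * b ≤ 5 * E + 7 * S := by
  have h3 : w1 * a ≤ 2 * E + 3 * S := by
    have h4 : w1 * a ≤ w1 * (2 * E + 3 * S) := mul_le_mul_of_nonneg_left ha h1
    have h5 : w1 * (2 * E + 3 * S) ≤ 1 * (2 * E + 3 * S) :=
      mul_le_mul_of_nonneg_right (by linarith) (by positivity)
    linarith
  have h4 : w2 * b ≤ w2 * (2 * E + 4 * S) + w2 * (4 * σ ^ 2) := by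
    have h5 : w2 * b ≤ w2 * (2 * E + 4 * S + 4 * σ ^ 2) := mul_le_mul_of_nonneg_left hb h2
    linarith
  have h5 : w2 * (2 * E + 4 * S) ≤ 1 * (2 * E + 4 * S) :=
    mul_le_mul_of_nonneg_right (by linarith) (by positivity)
  have h6 : w2 * (4 * σ ^ 2) ≤ E / σ * (4 * σ ^ 2) := mul_le_mul_of_nonneg_right hw (by positivity)
  have h7 : E / σ * (4 * σ ^ 2) = E * (4 * σ) := by
    field_simp
  have h8 : E * (4 * σ) ≤ E * 1 := mul_le_mul_of_nonneg_left (by linarith) hE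
  linarith

/-- Small slack, second inequality.  (low, low): lemma `low`.  If `(r, i)` is high then
`|s r i| ≤ 2 E + 3 S` (lemma `high`, with `j + 1 = i`); if `(r, i + 1)` is high then
`|s r i + lam r i| ≤ 2 E + 3 S`.  (high, low): the weight of `|s r i + lam r i|` is at most
`E / σ ≤ 1` (`chi_down`) and `|s r i + lam r i| ≤ |s r i| + S + 4 σ²`, `(E / σ) 4 σ² ≤ E`.
(low, high): the mirror. -/
theorem pen2_small (w : Win n σ ρ S i t s lam) (hσ : 0 < σ) (hσ1 : σ ≤ 1 / 32) (hρ : ρ ≤ 1 / 40)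
    (hi : 1 ≤ i) (hS : 44 * 3 ^ (n + 1) * S ≤ σ) {r : ℕ} (hr : r ≤ n) :
    (1 - chi σ t r i) / 2 * |s r i| + (1 + chi σ t r i) / 2 * |s r i + lam r i| ≤ CP n * S := by
  have hS0 := w.S0
  have hn : (1 : ℝ) ≤ 3 ^ (n + 1) := one_le_pow₀ (by norm_num)
  obtain ⟨P, hP⟩ : ∃ P : ℝ, P = 3 ^ (n + 1) := ⟨_, rfl⟩
  obtain ⟨E, hE⟩ : ∃ E : ℝ, E = ee r * S := ⟨_, rfl⟩
  have hdich := dich w hσ hσ1 hρ hi hS r (by omega)
  have hEle : E ≤ (11 * 3 ^ (n + 1) - 6) * S := by
    rw [hE]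
    exact mul_le_mul_of_nonneg_right (ee_le (by omega)) hS0
  have hE5 : 5 * S ≤ E := by
    rw [hE]
    exact mul_le_mul_of_nonneg_right (ee_ge r) hS0
  have hCP : CP n * S = 100 * (P * S) := by
    unfold CP
    rw [hP]
    ring
  rw [← hP] at hn hS hEle
  have hPS : S ≤ P * S := le_mul_of_one_le_left hS0 hn
  have hEle' : E ≤ 11 * (P * S) - 6 * S := by linarith
  have hS' : 44 * (P * S) ≤ σ := by linarith
  have hE0 : 0 ≤ E := by linarith
  have hfin : 5 * E + 7 * S ≤ CP n * S := by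
    rw [hCP]
    linarith
  have hc1 := chi_le σ t r i
  have hc2 := le_chi σ t r i
  have hw1 : 0 ≤ (1 - chi σ t r i) / 2 := by linarith
  have hw2 : 0 ≤ (1 + chi σ t r i) / 2 := by linarith
  have hw : (1 - chi σ t r i) / 2 + (1 + chi σ t r i) / 2 = 1 := by ring
  have hlam : |lam r i| ≤ S + 4 * σ ^ 2 :=
    lam_small w hσ hσ1 (by linarith) (by omega) le_rfl (by omega)
  have hd1 : t r i ≤ E ∨ σ - E ≤ t r i := by
    rw [hE]
    exact hdich i le_rfl (by omega)
  have hd2 : t r (i + 1) ≤ E ∨ σ - E ≤ t r (i + 1) := by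
    rw [hE]
    exact hdich (i + 1) (by omega) (by omega)
  -- high points
  have hh1 : σ - E ≤ t r i → |s r i| ≤ 2 * E + 3 * S := by
    intro h
    obtain ⟨j, rfl⟩ : ∃ j, i = j + 1 := ⟨i - 1, by omega⟩
    exact (high w hσ hσ1 hρ hr (j := j) le_rfl (by omega) hE0 h).1
  have hh2 : σ - E ≤ t r (i + 1) → |s r i + lam r i| ≤ 2 * E + 3 * S := by
    intro h
    exact (high w hσ hσ1 hρ hr (j := i) (by omega) (by omega) hE0 h).2.1
  refine le_trans ?_ hfin
  rcases hd1 with h1 | h1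
  · rcases hd2 with h2 | h2
    · -- low, low
      obtain ⟨l1, l2, -⟩ := low w hσ hσ1 hρ hr (j := i) le_rfl (by omega) (E := E) (by linarith)
        (by linarith) h1 h2
      have e1 : (1 - chi σ t r i) / 2 * |s r i| ≤ (1 - chi σ t r i) / 2 * (3 * E + 7 * S) :=
        mul_le_mul_of_nonneg_left (by linarith) hw1
      have e2 : (1 + chi σ t r i) / 2 * |s r i + lam r i| ≤
          (1 + chi σ t r i) / 2 * (3 * E + 7 * S) := mul_le_mul_of_nonneg_left l2 hw2
      have e3 : (1 - chi σ t r i) / 2 * (3 * E + 7 * S) +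
          (1 + chi σ t r i) / 2 * (3 * E + 7 * S) = 3 * E + 7 * S := by ring
      linarith
    · -- low, high
      have g1 := hh2 h2
      have g2 := pen2_up hσ hE0 h1 h2
      have g3 : |s r i| ≤ 2 * E + 4 * S + 4 * σ ^ 2 := by
        have g4 : |s r i| ≤ |s r i + lam r i| + |lam r i| := by
          have g5 : s r i = (s r i + lam r i) - lam r i := by ring
          calc |s r i| = |(s r i + lam r i) - lam r i| := by rw [← g5]
            _ ≤ |s r i + lam r i| + |lam r i| := abs_sub _ _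
        linarith
      have g4 := pen2_comb hσ hσ1 hE0 hS0 hw2 hw1 (by linarith) g2 g1 g3
      linarith
  · rcases hd2 with h2 | h2
    · -- high, low
      have g1 := hh1 h1
      have g2 := pen2_down hσ hE0 h1 h2
      have g3 : |s r i + lam r i| ≤ 2 * E + 4 * S + 4 * σ ^ 2 := by
        have g4 : |s r i + lam r i| ≤ |s r i| + |lam r i| := abs_add_le _ _
        linarith
      exact pen2_comb hσ hσ1 hE0 hS0 hw1 hw2 hw g2 g1 g3
    · -- high, high
      have g1 := hh1 h1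
      have g2 := hh2 h2
      have e1 : (1 - chi σ t r i) / 2 * |s r i| ≤ (1 - chi σ t r i) / 2 * (2 * E + 3 * S) :=
        mul_le_mul_of_nonneg_left g1 hw1
      have e2 : (1 + chi σ t r i) / 2 * |s r i + lam r i| ≤
          (1 + chi σ t r i) / 2 * (2 * E + 3 * S) := mul_le_mul_of_nonneg_left g2 hw2
      have e3 : (1 - chi σ t r i) / 2 * (2 * E + 3 * S) +
          (1 + chi σ t r i) / 2 * (2 * E + 3 * S) = 2 * E + 3 * S := by ring
      linarith

end Pool.Agent.StripTwo
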