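import Pool.Agent.StripTwo.E4_Dich
import Pool.Agent.StripTwo.E5p_Def
import Pool.Agent.StripTwo.E5a_Chi

/-! # Third penalty inequality -/

namespace Pool.Agent.StripTwo

open Pool.Agent.StripNear

variable {n i : ℕ} {σ ρ S : ℝ} {t s lam : ℕ → ℕ → ℝ}

/-- Small slack, third inequality.  `E = ee r * S`, `E' = ee (r + 1) * S ≤ σ / 4`, `3 E ≤ σ / 4`.
If `(r, i + 1)` is high, lemma `high` bounds both offsets.  Otherwise it is low.
`(r, i)` and `(r, i + 2)` low: lemma `low` for the cells `i` and `i + 1`.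
`(r, i)` low and `(r, i + 2)` high: lemma `low` bounds `|s r i + lam r i|` and
`t (r+1) i ≤ 3 E + 10 S ≤ E'`; lemma `high` at `i + 1` gives `t (r+1) (i+1) ≥ σ - E'` and
`|s r (i+1) + lam r (i+1)| ≤ 2 E + 3 S`; so the weight of `|s r (i+1)|` is at most `E' / σ`
and `|s r (i+1)| ≤ 2 E + 4 S + 4 σ²`.
`(r, i)` high and `(r, i + 2)` low: the mirror.
`(r, i)` and `(r, i + 2)` high, `(r, i + 1)` low: impossible.  Lemma `high` gives
`t (r+1) i, t (r+1) (i+1) ≥ σ - (3 E + 3 S)`, so `|chi (r+1) i| ≤ 1/2` and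
`be r i ≤ 4 dd r i ≤ 4 S`; but `be r i ≥ (σ - 3 E - 3 S) - E - |s r i + lam r i|` and
`|s r i + lam r i| ≤ |s r i| + S + 4 σ² ≤ 2 E + 4 S + 4 σ²`. -/
theorem pen3_small (w : Win n σ ρ S i t s lam) (hσ : 0 < σ) (hσ1 : σ ≤ 1 / 32) (hρ : ρ ≤ 1 / 40)
    (hi : 1 ≤ i) (hS : 44 * 3 ^ (n + 1) * S ≤ σ) {r : ℕ} (hr : r ≤ n) :
    (1 + chi σ t (r + 1) i) / 2 * |s r i + lam r i|
      + (1 - chi σ t (r + 1) i) / 2 * |s r (i + 1)| ≤ CP n * S := by
  have hS0 : 0 ≤ S := w.S0
  have hK1 : (1 : ℝ) ≤ 3 ^ (n + 1) := one_le_pow₀ (by norm_num)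
  have hKS : S ≤ 3 ^ (n + 1) * S := by nlinarith
  set P : ℝ := 3 ^ (n + 1) * S with hP
  have hPσ : 44 * P ≤ σ := by rw [hP]; linarith
  have hCP : CP n * S = 100 * P := by rw [CP, hP]; ring
  rw [hCP]
  obtain ⟨E, hE⟩ : ∃ E, E = ee r * S := ⟨_, rfl⟩
  obtain ⟨E', hE'⟩ : ∃ E', E' = ee (r + 1) * S := ⟨_, rfl⟩
  have hE1 : 3 * E + 10 * S ≤ E' := by
    have := mul_le_mul_of_nonneg_right (ee_succ r) hS0
    rw [hE, hE']; linarith
  have hE2 : E' ≤ 11 * P - 6 * S := by
    have := mul_le_mul_of_nonneg_right (ee_le (n := n) (r := r + 1) (by omega)) hS0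
    rw [hE', hP]; linarith
  have hE3 : 5 * S ≤ E := by
    have := mul_le_mul_of_nonneg_right (ee_ge r) hS0
    rw [hE]; linarith
  have hE0 : 0 ≤ E := by linarith
  have hSE : S ≤ E := by linarith
  have hES : E + S ≤ σ / 2 := by linarith
  have hc1 := chi_le σ t (r + 1) i
  have hc2 := le_chi σ t (r + 1) i
  have hwp0 : 0 ≤ (1 + chi σ t (r + 1) i) / 2 := by linarith
  have hwp1 : (1 + chi σ t (r + 1) i) / 2 ≤ 1 := by linarith
  have hwm0 : 0 ≤ (1 - chi σ t (r + 1) i) / 2 := by linarith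
  have hwm1 : (1 - chi σ t (r + 1) i) / 2 ≤ 1 := by linarith
  have hsum : (1 + chi σ t (r + 1) i) / 2 + (1 - chi σ t (r + 1) i) / 2 = 1 := by ring
  -- two crude bounds
  have crude : ∀ A B : ℝ, |s r i + lam r i| ≤ A → |s r (i + 1)| ≤ B → 0 ≤ A → 0 ≤ B →
      (1 + chi σ t (r + 1) i) / 2 * |s r i + lam r i|
      + (1 - chi σ t (r + 1) i) / 2 * |s r (i + 1)| ≤ A + B := by
    intro A B hA hB hA0 hB0
    have h1 : (1 + chi σ t (r + 1) i) / 2 * |s r i + lam r i| ≤ 1 * A :=
      mul_le_mul hwp1 hA (abs_nonneg _) (by norm_num)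
    have h2 : (1 - chi σ t (r + 1) i) / 2 * |s r (i + 1)| ≤ 1 * B :=
      mul_le_mul hwm1 hB (abs_nonneg _) (by norm_num)
    linarith
  have hσS : 2 * S ≤ σ := by linarith
  have hσsq : 4 * σ ^ 2 ≤ σ / 8 := by nlinarith
  rcases dich w hσ hσ1 hρ hi hS r (by omega) (i + 1) (by omega) (by omega) with hB | hA
  · rw [← hE] at hB
    rcases dich w hσ hσ1 hρ hi hS r (by omega) i (by omega) (by omega) with h0 | h0
    · rw [← hE] at h0
      obtain ⟨-, l2, l3⟩ := low w hσ hσ1 hρ hr le_rfl (by omega) hSE hES h0 hB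
      rcases dich w hσ hσ1 hρ hi hS r (by omega) (i + 2) (by omega) (by omega) with h2 | h2
      · rw [← hE] at h2
        obtain ⟨m1, -, -⟩ := low w hσ hσ1 hρ hr (j := i + 1) (by omega) (by omega) hSE hES hB h2
        refine (crude _ _ l2 m1 (by linarith) (by linarith)).trans ?_
        linarith
      · rw [← hE] at h2
        obtain ⟨-, m2, -, m4⟩ := high w hσ hσ1 hρ hr (j := i + 1) (by omega) (by omega) hE0 h2
        have hw := chi_up (t := t) (r := r + 1) (i := i) (E := E') hσ (by linarith) (by linarith)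
          (by linarith)
        have hl := lam_small w hσ hσ1 hσS (r := r) (j := i + 1) (by omega) (by omega) (by omega)
        have hs : |s r (i + 1)| ≤ (2 * E + 4 * S) + 4 * σ ^ 2 := by
          have : s r (i + 1) = (s r (i + 1) + lam r (i + 1)) - lam r (i + 1) := by ring
          rw [this]
          refine (abs_sub _ _).trans ?_
          linarith
        have h1 : (1 + chi σ t (r + 1) i) / 2 * |s r i + lam r i| ≤ 1 * (3 * E + 7 * S) :=
          mul_le_mul hwp1 l2 (abs_nonneg _) (by norm_num)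
        have h3 : (1 - chi σ t (r + 1) i) / 2 * |s r (i + 1)| ≤
            (1 - chi σ t (r + 1) i) / 2 * ((2 * E + 4 * S) + 4 * σ ^ 2) :=
          mul_le_mul_of_nonneg_left hs hwm0
        have h4 : (1 - chi σ t (r + 1) i) / 2 * (2 * E + 4 * S) ≤ 1 * (2 * E + 4 * S) :=
          mul_le_mul_of_nonneg_right hwm1 (by linarith)
        have h5 : (1 - chi σ t (r + 1) i) / 2 * (4 * σ ^ 2) ≤ E' / σ * (4 * σ ^ 2) :=
          mul_le_mul_of_nonneg_right hw (by positivity)
        have h6 : E' / σ * (4 * σ ^ 2) = 4 * σ * E' := by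
          field_simp
        have h7 : 4 * σ * E' ≤ E' := by nlinarith
        rw [h6] at h5
        linarith
    · rw [← hE] at h0
      obtain ⟨j, rfl⟩ : ∃ j, i = j + 1 := ⟨i - 1, by omega⟩
      obtain ⟨k1, -, k3, -⟩ := high w hσ hσ1 hρ hr (j := j) le_rfl (by omega) hE0 h0
      have hl := lam_small w hσ hσ1 hσS (r := r) (j := j + 1) (by omega) (by omega) (by omega)
      have hs : |s r (j + 1) + lam r (j + 1)| ≤ (2 * E + 4 * S) + 4 * σ ^ 2 := by
        refine (abs_add_le _ _).trans ?_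
        linarith
      rcases dich w hσ hσ1 hρ hi hS r (by omega) (j + 1 + 2) (by omega) (by omega) with h2 | h2
      · rw [← hE] at h2
        obtain ⟨m1, -, m3⟩ := low w hσ hσ1 hρ hr (j := j + 1 + 1) (by omega) (by omega) hSE hES hB h2
        have hw := chi_down (t := t) (r := r + 1) (i := j + 1) (E := E') hσ (by linarith) (by linarith)
          (by linarith)
        have h1 : (1 - chi σ t (r + 1) (j + 1)) / 2 * |s r (j + 1 + 1)| ≤ 1 * (2 * E + 6 * S) :=
          mul_le_mul hwm1 m1 (abs_nonneg _) (by norm_num)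
        have h3 : (1 + chi σ t (r + 1) (j + 1)) / 2 * |s r (j + 1) + lam r (j + 1)| ≤
            (1 + chi σ t (r + 1) (j + 1)) / 2 * ((2 * E + 4 * S) + 4 * σ ^ 2) :=
          mul_le_mul_of_nonneg_left hs hwp0
        have h4 : (1 + chi σ t (r + 1) (j + 1)) / 2 * (2 * E + 4 * S) ≤ 1 * (2 * E + 4 * S) :=
          mul_le_mul_of_nonneg_right hwp1 (by linarith)
        have h5 : (1 + chi σ t (r + 1) (j + 1)) / 2 * (4 * σ ^ 2) ≤ E' / σ * (4 * σ ^ 2) :=
          mul_le_mul_of_nonneg_right hw (by positivity)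
        have h6 : E' / σ * (4 * σ ^ 2) = 4 * σ * E' := by
          field_simp
        have h7 : 4 * σ * E' ≤ E' := by nlinarith
        rw [h6] at h5
        linarith
      · exfalso
        rw [← hE] at h2
        obtain ⟨-, m2, -, m4⟩ := high w hσ hσ1 hρ hr (j := j + 1 + 1) (by omega) (by omega) hE0 h2
        have u1 := w.up (r + 1) (by omega) (j + 1) (by omega) (by omega)
        have u2 := w.up (r + 1) (by omega) (j + 1 + 1) (by omega) (by omega)
        have hσSS : σ * S ≤ S := by nlinarith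
        have hd : |dt t (r + 1) (j + 1)| ≤ σ / 4 := by
          unfold dt
          rw [abs_le]
          constructor <;> linarith
        have hchi := chi_eq hσ (hd.trans (by linarith))
        have hcb : -(1 / 4) ≤ chi σ t (r + 1) (j + 1) := by
          rw [hchi, le_div_iff₀ hσ]
          have := (abs_le.mp hd).1
          linarith
        have hbe : 0 ≤ be t s lam r (j + 1) := by
          unfold be
          linarith [w.gR r hr (j + 1) (by omega) (by omega)]
        have hal : 0 ≤ al t s r (j + 1 + 1) := by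
          unfold al
          linarith [w.gL r hr (j + 1 + 1) (by omega) (by omega)]
        have hdd := w.db r hr
        have hbe4 : be t s lam r (j + 1) ≤ 4 * S := by
          unfold dd at hdd
          have h1 : 0 ≤ (1 - chi σ t (r + 1) (j + 1)) / 2 * al t s r (j + 1 + 1) :=
            mul_nonneg hwm0 hal
          have h2 : 1 / 4 * be t s lam r (j + 1) ≤
              (1 + chi σ t (r + 1) (j + 1)) / 2 * be t s lam r (j + 1) :=
            mul_le_mul_of_nonneg_right (by linarith) hbe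
          linarith
        have hns := w.ns r hr (j + 1) (by omega) (by omega)
        have hnl := w.nl r (by omega) (j + 1) (by omega) (by omega)
        have hg : |g (-(s r (j + 1) + lam r (j + 1)))| ≤ |-(s r (j + 1) + lam r (j + 1))| := by
          apply g_abs_le
          rw [abs_neg]
          refine (abs_add_le _ _).trans ?_
          linarith
        rw [abs_neg] at hg
        have hg' := (abs_le.mp (hg.trans hs)).2
        have : be t s lam r (j + 1) = t (r + 1) (j + 1) - t r (j + 1 + 1)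
          - g (-(s r (j + 1) + lam r (j + 1))) := rfl
        linarith
  · rw [← hE] at hA
    obtain ⟨k1, k2, -, -⟩ := high w hσ hσ1 hρ hr (j := i) (by omega) (by omega) hE0 hA
    refine (crude _ _ k2 k1 (by linarith) (by linarith)).trans ?_
    linarith

end Pool.Agent.StripTwo
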