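import Pool.Agent.StripTwo.E5p_Def

/-! # Penalty inequalities for large slack -/

namespace Pool.Agent.StripTwo

open Pool.Agent.StripNear

variable {n i : ℕ} {σ ρ S : ℝ} {t s lam : ℕ → ℕ → ℝ}

private theorem pb_lower {x B : ℝ} (hx : |x| ≤ 1 / 20) (hB : 0 ≤ B) (h : g x ≤ B) : -(2 * B) ≤ x := by
  by_cases h0 : x ≤ 0
  · have h1 := g_diff_ge (u := x) (v := 0) hx (by norm_num) h0
    rw [g_zero] at h1
    linarith
  · push Not at h0
    linarith

private theorem pb_conv {c x y B : ℝ} (h1 : -1 ≤ c) (h2 : c ≤ 1) (hx : x ≤ B) (hy : y ≤ B) :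
    (1 - c) / 2 * x + (1 + c) / 2 * y ≤ B := by
  have e1 : (1 - c) / 2 * x ≤ (1 - c) / 2 * B := mul_le_mul_of_nonneg_left hx (by linarith)
  have e2 : (1 + c) / 2 * y ≤ (1 + c) / 2 * B := mul_le_mul_of_nonneg_left hy (by linarith)
  linarith

/-- Large slack.  `|dt| (σ - |dt|) ≤ σ² / 4`.  `g (s r i) ≤ t (r+1) i - t r i ≤ σ + 2 σ S`
gives `s r i ≥ -2 (σ + 2 S)`, `g (-(s + lam)) ≤ σ + 2 S` gives `s + lam ≤ 2 (σ + 2 S)`, and
`lam ≥ -S`; so `|s r i|, |s r i + lam r i| ≤ 2 σ + 5 S`, and similarly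
`|s r (i+1)| ≤ 2 σ + 6 S ≤ CP n * S`. -/
theorem pen_big (w : Win n σ ρ S i t s lam) (hσ : 0 < σ) (hσ1 : σ ≤ 1 / 32) (hρ : ρ ≤ 1 / 40)
    (hi : 1 ≤ i) (hS : σ ≤ 44 * 3 ^ (n + 1) * S) : Pen n σ S i t s lam := by
  have hK : (1 : ℝ) ≤ 3 ^ (n + 1) := one_le_pow₀ (by norm_num)
  have hS0 := w.S0
  have hσS0 : 0 ≤ σ * S := mul_nonneg hσ.le hS0
  have hσS : σ * S ≤ 1 / 32 * S := mul_le_mul_of_nonneg_right hσ1 hS0
  have hKS : S ≤ 3 ^ (n + 1) * S := by nlinarith
  have hbig : 2 * σ + 5 * (σ * S) ≤ CP n * S := by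
    unfold CP
    nlinarith
  have hB : 0 ≤ σ + 2 * (σ * S) := by linarith
  -- bounds
  have key : ∀ r ≤ n, |s r i| ≤ CP n * S ∧ |s r i + lam r i| ≤ CP n * S ∧
      |s r (i + 1)| ≤ CP n * S := by
    intro r hr
    have ns0 := w.ns r hr i (by omega) (by omega)
    have ns1 := w.ns r hr (i + 1) (by omega) (by omega)
    have nl0 := w.nl r (by omega) i (by omega) (by omega)
    have u1 := w.up (r + 1) (by omega) i (by omega) (by omega)
    have u2 := w.up (r + 1) (by omega) (i + 1) (by omega) (by omega)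
    have l1 := w.lo r (by omega) i le_rfl (by omega)
    have l2 := w.lo r (by omega) (i + 1) (by omega) (by omega)
    have la0 := w.la r (by omega) i (by omega) (by omega)
    have la1 := w.la (r + 1) (by omega) i (by omega) (by omega)
    have g1 := w.gL r hr i (by omega) (by omega)
    have g2 := w.gR r hr i (by omega) (by omega)
    have g3 := w.gL r hr (i + 1) (by omega) (by omega)
    have st := w.st r hr i (by omega) (by omega)
    have a1 := pb_lower (x := s r i) (B := σ + 2 * (σ * S)) (by linarith) hB (by linarith)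
    have a2 := pb_lower (x := -(s r i + lam r i)) (B := σ + 2 * (σ * S))
      (by rw [abs_neg]; linarith [abs_add_le (s r i) (lam r i)]) hB (by linarith)
    have a3 := pb_lower (x := s r (i + 1)) (B := σ + 2 * (σ * S)) (by linarith) hB (by linarith)
    refine ⟨abs_le.mpr ⟨by linarith, by linarith⟩, abs_le.mpr ⟨by linarith, by linarith⟩,
      abs_le.mpr ⟨by linarith, by linarith⟩⟩
  refine ⟨?_, ?_, ?_⟩
  · intro r hr _
    have h1 : |dt t r i| * (σ - |dt t r i|) ≤ σ * σ / 4 := by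
      nlinarith [sq_nonneg (|dt t r i| - σ / 2)]
    have h2 : σ / 4 ≤ CP n * S := by
      unfold CP
      nlinarith
    have h3 : σ * (σ / 4) ≤ σ * (CP n * S) := mul_le_mul_of_nonneg_left h2 hσ.le
    nlinarith
  · intro r hr
    obtain ⟨k1, k2, -⟩ := key r hr
    exact pb_conv (le_chi σ t r i) (chi_le σ t r i) k1 k2
  · intro r hr
    obtain ⟨-, k2, k3⟩ := key r hr
    have := pb_conv (le_chi σ t (r + 1) i) (chi_le σ t (r + 1) i) k3 k2
    linarith

end Pool.Agent.StripTwo
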