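import Pool.Agent.StripTwo.E5b_Pen1
import Pool.Agent.StripTwo.E5c_Pen2
import Pool.Agent.StripTwo.E5d_Pen3
import Pool.Agent.StripTwo.E5e_PenBig

/-! # The penalty lemma -/

namespace Pool.Agent.StripTwo

open Pool.Agent.StripNear

variable {n i : ℕ} {σ ρ S : ℝ} {t s lam : ℕ → ℕ → ℝ}

theorem pen (w : Win n σ ρ S i t s lam) (hσ : 0 < σ) (hσ1 : σ ≤ 1 / 32) (hρ : ρ ≤ 1 / 40)
    (hi : 1 ≤ i) : Pen n σ S i t s lam := by
  rcases le_total (44 * 3 ^ (n + 1) * S) σ with h | h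
  · exact ⟨fun r hr hd => pen1_small w hσ hσ1 hρ hi h hr hd,
      fun r hr => pen2_small w hσ hσ1 hρ hi h hr, fun r hr => pen3_small w hσ hσ1 hρ hi h hr⟩
  · exact pen_big w hσ hσ1 hρ hi h

end Pool.Agent.StripTwo
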