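import Pool.Agent.StripTwo.E6a_Cell

/-! # Down triangles -/

namespace Pool.Agent.StripTwo

open Pool.Agent.StripNear

variable {n N : ℕ} {σ ρ : ℝ} {t s lam : ℕ → ℕ → ℝ}

/-- Down triangle, with `θ' = (1 + chi (r+1) i) / 2`:
`(t (r+1) i + t (r+1) (i+1)) / 2 - chi' dt' / 2 - t r (i+1)
  = dd + θ' g (-(s r i + lam r i)) + (1 - θ') g (s r (i+1))` (exact), and
`θ' (s r i + lam r i) - (1 - θ') s r (i+1) = lam (r+1) i / 2 + (chi' / 2) (s r i + lam r i + s r (i+1))`,
`(dt' / (2σ)) (s r i + lam r i + s r (i+1)) = (t' (i+1) s r (i+1) - t' i s r i) / σ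
  + (t' (i+1) / σ) (lam (r+1) i / 2) - (t' i / σ) (lam r i - lam (r+1) i / 2)`
where `t' = t (r+1)`; finally `lam r i - lam (r+1) i = s r (i+1) - s r i`. -/
theorem cellD (hσ : 0 < σ) (hσ1 : σ ≤ 1 / 32) (hρ : ρ ≤ 1 / 40) (h : Q2 n N σ ρ t s lam)
    {r i : ℕ} (hr : r ≤ n) (hi : i < N) :
    kap σ * lam (r + 1) i ≤ (t (r + 1) i + t (r + 1) (i + 1)) / 2 - t r (i + 1)
      + (1 / (2 * h0)) * ((1 - t (r + 1) (i + 1) / σ) * s r (i + 1)
        - (1 - t (r + 1) i / σ) * s r i)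
      - dd σ t s lam r i - aa t lam (r + 1) i / (2 * σ)
      + (eD σ t s lam r i - cD σ t lam r i / (2 * h0)) := by
  have hk := kap_lam hσ hσ1 hρ h (r := r + 1) (i := i) (by omega) hi
  have hd := dt_chi (t := t) hσ (r + 1) i
  have hc1 := chi_le σ t (r + 1) i
  have hc2 := le_chi σ t (r + 1) i
  have hS := h.ns r hr i hi.le
  have hS1 := h.ns r hr (i + 1) hi
  have hL := h.nl r (by omega) i hi
  have hst := h.step r hr i hi
  have hp : 0 < h0 := h0_pos
  have hlow : 1 / 2 ≤ h0 := by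
    have := h0_sq
    nlinarith
  have hze := ze_nonneg σ t (r + 1) i
  have hS1' : |s r (i + 1)| ≤ 1 / 20 := by linarith
  have hSL : |s r i + lam r i| ≤ 1 / 20 := by
    have := abs_add_le (s r i) (lam r i)
    linarith
  have g1 := g_lower hS1'
  have g2 := g_lower (s := -(s r i + lam r i)) (by rw [abs_neg]; exact hSL)
  unfold eD cD dd al be
  have hdt : dt t (r + 1) i = t (r + 1) (i + 1) - t (r + 1) i := rfl
  rw [hdt] at hk hd
  generalize g (s r (i + 1)) = G1 at *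
  generalize g (-(s r i + lam r i)) = G2 at *
  generalize chi σ t (r + 1) i = χ at *
  generalize ez σ t (r + 1) i = E at *
  generalize ze σ t (r + 1) i = ζ at *
  generalize aa t lam (r + 1) i = a at *
  generalize kap σ = κ at *
  generalize lam (r + 1) i = L' at *
  generalize lam r i = L at *
  generalize s r (i + 1) = S1 at *
  generalize s r i = S at *
  generalize t (r + 1) (i + 1) = U1 at *
  generalize t (r + 1) i = U0 at *
  generalize t r (i + 1) = T1 at *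
  set H : ℝ := 1 / (2 * h0) with hH
  have hH0 : 0 < H := by positivity
  have hH1 : H ≤ 1 := by
    rw [hH, div_le_one (by positivity)]
    linarith
  have e1 : -S1 / (2 * h0) = -S1 * H := by rw [hH]; ring
  have e2 : -(-(S + L)) / (2 * h0) = (S + L) * H := by rw [hH]; ring
  rw [e1] at g1
  rw [e2] at g2
  have m1 : (1 - χ) / 2 * (-S1 * H - S1 ^ 2) ≤ (1 - χ) / 2 * G1 :=
    mul_le_mul_of_nonneg_left g1 (by linarith)
  have m2 : (1 + χ) / 2 * ((S + L) * H - (-(S + L)) ^ 2) ≤ (1 + χ) / 2 * G2 :=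
    mul_le_mul_of_nonneg_left g2 (by linarith)
  have hA : 0 ≤ |S + L| + |S1| := by positivity
  have hZ : 0 ≤ ζ / σ := div_nonneg hze hσ.le
  have k1 : ((U1 - U0) / σ - χ) * (S + L + S1) ≤ ζ / σ * (|S + L| + |S1|) := by
    calc ((U1 - U0) / σ - χ) * (S + L + S1) ≤ |((U1 - U0) / σ - χ) * (S + L + S1)| := le_abs_self _
      _ = |(U1 - U0) / σ - χ| * |S + L + S1| := abs_mul _ _
      _ ≤ ζ / σ * (|S + L| + |S1|) := by
          rw [hd]
          exact mul_le_mul_of_nonneg_left (abs_add_le _ _) hZ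
  have k2 : H * (((U1 - U0) / σ - χ) * (S + L + S1) / 2) ≤ ζ / σ * (|S + L| + |S1|) := by
    have hZA : 0 ≤ ζ / σ * (|S + L| + |S1|) := mul_nonneg hZ hA
    calc H * (((U1 - U0) / σ - χ) * (S + L + S1) / 2) ≤ H * (ζ / σ * (|S + L| + |S1|)) := by
          apply mul_le_mul_of_nonneg_left _ hH0.le
          linarith
      _ ≤ 1 * (ζ / σ * (|S + L| + |S1|)) := mul_le_mul_of_nonneg_right hH1 hZA
      _ = _ := one_mul _
  have e3 : (L * (1 - U0 / σ) - L' * (1 - (U0 + U1) / σ) / 2) / (2 * h0)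
      = H * (L * (1 - U0 / σ) - L' * (1 - (U0 + U1) / σ) / 2) := by rw [hH]; ring
  rw [e3]
  have e4 : H * ((1 - U1 / σ) * S1 - (1 - U0 / σ) * S)
      - H * (L * (1 - U0 / σ) - L' * (1 - (U0 + U1) / σ) / 2)
      = - (H * (L' / 2 + (U1 - U0) / σ * (S + L + S1) / 2)) := by
    rw [hst]
    field_simp
    ring
  have e5 : (1 - χ) / 2 * (-S1 * H - S1 ^ 2) + (1 + χ) / 2 * ((S + L) * H - (-(S + L)) ^ 2)
      = H * (L' / 2 + χ * (S + L + S1) / 2)
        - ((1 + χ) / 2 * (S + L) ^ 2 + (1 - χ) / 2 * S1 ^ 2) := by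
    rw [hst]
    ring
  have e6 : H * (((U1 - U0) / σ - χ) * (S + L + S1) / 2)
      = H * (L' / 2 + (U1 - U0) / σ * (S + L + S1) / 2)
        - H * (L' / 2 + χ * (S + L + S1) / 2) := by ring
  have e7 : (1 + χ) / 2 * (U0 - T1 - G2) + (1 - χ) / 2 * (U1 - T1 - G1)
      = (U0 + U1) / 2 - T1 - χ * (U1 - U0) / 2 - ((1 - χ) / 2 * G1 + (1 + χ) / 2 * G2) := by ring
  linarith

end Pool.Agent.StripTwo
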