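import Pool.Agent.StripTwo.E6a_Cell

/-! # Potential and remainder of a column -/

namespace Pool.Agent.StripTwo

open Pool.Agent.StripNear

variable {n N : ℕ} {σ ρ : ℝ} {t s lam : ℕ → ℕ → ℝ}

/-- The potential of a column. -/
noncomputable def GG (n : ℕ) (σ : ℝ) (t s : ℕ → ℕ → ℝ) (i : ℕ) : ℝ :=
  (1 / (2 * h0)) * ∑ r ∈ Finset.range (n + 1),
      s r i * (((n : ℝ) + 1 - r) * (1 - t (r + 1) i / σ) - ((r : ℝ) + 1) * (t r i / σ))
    - ((n : ℝ) + 1) / 2 * ∑ r ∈ Finset.range (n + 2), t r i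

/-- The remainder of a column. -/
noncomputable def RR (n : ℕ) (σ : ℝ) (t s lam : ℕ → ℕ → ℝ) (i : ℕ) : ℝ :=
  (∑ r ∈ Finset.range (n + 1), (((r : ℝ) + 1) * (eU σ t s lam r i - cU σ t lam r i / (2 * h0))
      + ((n : ℝ) + 1 - r) * (eD σ t s lam r i - cD σ t lam r i / (2 * h0))))
    + ((n : ℝ) + 2) * (ez σ t 0 i + ez σ t (n + 1) i)

end Pool.Agent.StripTwo
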