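import Pool.Agent.StripTwo.E6b_CellU
import Pool.Agent.StripTwo.E6c_CellD
import Pool.Agent.StripTwo.E7d_Def

/-! # Weighted sum of the cell inequalities of one column -/

namespace Pool.Agent.StripTwo

open Pool.Agent.StripNear

variable {n N : ℕ} {σ ρ : ℝ} {t s lam : ℕ → ℕ → ℝ}

/-- Weights of the rows: `lam r i` occurs with weight `(r + 1)` from `cellU r` and `n + 1 - (r - 1)`
from `cellD (r - 1)`; row `0` has weight `n + 2` from `cellB` and `1` from `cellU 0`; row `n + 1`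
has weight `n + 2` from `cellT` and `1` from `cellD n`. -/
theorem lam_weights (n : ℕ) (f : ℕ → ℝ) :
    ((n : ℝ) + 2) * (f 0 + f (n + 1))
      + ∑ r ∈ Finset.range (n + 1), (((r : ℝ) + 1) * f r + ((n : ℝ) + 1 - r) * f (r + 1))
      = ((n : ℝ) + 3) * ∑ r ∈ Finset.range (n + 2), f r := by
  have hA : ∑ r ∈ Finset.range (n + 2), ((r : ℝ) + 1) * f r =
      ∑ r ∈ Finset.range (n + 1), ((r : ℝ) + 1) * f r + ((n : ℝ) + 2) * f (n + 1) := by
    rw [Finset.sum_range_succ]
    push_cast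
    ring
  have hB : ∑ r ∈ Finset.range (n + 2), ((n : ℝ) + 2 - r) * f r =
      ∑ r ∈ Finset.range (n + 1), ((n : ℝ) + 1 - r) * f (r + 1) + ((n : ℝ) + 2) * f 0 := by
    rw [Finset.sum_range_succ']
    congr 1
    · refine Finset.sum_congr rfl fun r _ => ?_
      push_cast
      ring
    · simp
  have hC : ∑ r ∈ Finset.range (n + 2), ((r : ℝ) + 1) * f r +
      ∑ r ∈ Finset.range (n + 2), ((n : ℝ) + 2 - r) * f r =
      ((n : ℝ) + 3) * ∑ r ∈ Finset.range (n + 2), f r := by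
    rw [← Finset.sum_add_distrib, Finset.mul_sum]
    refine Finset.sum_congr rfl fun r _ => ?_
    ring
  rw [Finset.sum_add_distrib]
  linear_combination hC - hA - hB

/-- The height terms: with `a r = (t r i + t r (i+1)) / 2`, `e r = (t r (i+1) - t r i) / 2` one has
`t (r+1) i = a (r+1) - e (r+1)` and `t r (i+1) = a r + e r`. -/
theorem height_weights (n : ℕ) (σ : ℝ) (a e : ℕ → ℝ) :
    ((n : ℝ) + 2) * (a 0 + (σ - a (n + 1)))
      + ∑ r ∈ Finset.range (n + 1), (((r : ℝ) + 1) * ((a (r + 1) - e (r + 1)) - a r)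
        + ((n : ℝ) + 1 - r) * (a (r + 1) - (a r + e r)))
      = ((n : ℝ) + 2) * σ - ((n : ℝ) + 1) * ∑ r ∈ Finset.range (n + 2), e r := by
  have hA : ∑ r ∈ Finset.range (n + 2), (r : ℝ) * e r =
      ∑ r ∈ Finset.range (n + 1), ((r : ℝ) + 1) * e (r + 1) := by
    rw [Finset.sum_range_succ']
    simp
  have hB : ∑ r ∈ Finset.range (n + 2), ((n : ℝ) + 1 - r) * e r =
      ∑ r ∈ Finset.range (n + 1), ((n : ℝ) + 1 - r) * e r := by
    rw [Finset.sum_range_succ]
    push_cast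
    ring
  have hC : ∑ r ∈ Finset.range (n + 2), (r : ℝ) * e r +
      ∑ r ∈ Finset.range (n + 2), ((n : ℝ) + 1 - r) * e r =
      ((n : ℝ) + 1) * ∑ r ∈ Finset.range (n + 2), e r := by
    rw [← Finset.sum_add_distrib, Finset.mul_sum]
    refine Finset.sum_congr rfl fun r _ => ?_
    ring
  have hD : ∑ r ∈ Finset.range (n + 1), (a (r + 1) - a r) = a (n + 1) - a 0 :=
    Finset.sum_range_sub a (n + 1)
  have hE : ∑ r ∈ Finset.range (n + 1), (((r : ℝ) + 1) * ((a (r + 1) - e (r + 1)) - a r)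
        + ((n : ℝ) + 1 - r) * (a (r + 1) - (a r + e r))) =
      ((n : ℝ) + 2) * ∑ r ∈ Finset.range (n + 1), (a (r + 1) - a r)
        - ∑ r ∈ Finset.range (n + 1), ((r : ℝ) + 1) * e (r + 1)
        - ∑ r ∈ Finset.range (n + 1), ((n : ℝ) + 1 - r) * e r := by
    rw [Finset.mul_sum, ← Finset.sum_sub_distrib, ← Finset.sum_sub_distrib]
    refine Finset.sum_congr rfl fun r _ => ?_
    ring
  rw [hE, hD, ← hA, ← hB]
  linear_combination -hC

private theorem Col_split (m : ℕ) (c : ℝ) (H P Q U A E : ℕ → ℝ) :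
    ∑ r ∈ Finset.range m, (H r + c * (P r - Q r) - U r - A r + E r) =
      ∑ r ∈ Finset.range m, H r + c * (∑ r ∈ Finset.range m, P r - ∑ r ∈ Finset.range m, Q r)
        - ∑ r ∈ Finset.range m, U r - ∑ r ∈ Finset.range m, A r + ∑ r ∈ Finset.range m, E r := by
  rw [Finset.sum_add_distrib, Finset.sum_sub_distrib, Finset.sum_sub_distrib,
    Finset.sum_add_distrib, ← Finset.mul_sum, Finset.sum_sub_distrib]

/-- `(n + 2) (cellB + cellT) + ∑ r, ((r + 1) cellU r + (n + 1 - r) cellD r)`. All the weights of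
the nonnegative slacks are at least `1` (and `(n + 3) / 2 ≥ 1` for `aa / σ`). -/
theorem column (hσ : 0 < σ) (hσ1 : σ ≤ 1 / 32) (hρ : ρ ≤ 1 / 40) (h : Q2 n N σ ρ t s lam)
    {i : ℕ} (hi : i < N) :
    ((n : ℝ) + 3) * (kap σ * ∑ r ∈ Finset.range (n + 2), lam r i)
      ≤ ((n : ℝ) + 2) * σ + (GG n σ t s (i + 1) - GG n σ t s i) - Zc n σ t s lam i
        + RR n σ t s lam i := by
  set a : ℕ → ℝ := fun r => (t r i + t r (i + 1)) / 2 with ha
  set e : ℕ → ℝ := fun r => (t r (i + 1) - t r i) / 2 with he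
  set c : ℝ := 1 / (2 * h0) with hc
  have hn0 : (0 : ℝ) ≤ n := Nat.cast_nonneg n
  have hcell : ∀ r ∈ Finset.range (n + 1),
      ((r : ℝ) + 1) * (kap σ * lam r i) + ((n : ℝ) + 1 - r) * (kap σ * lam (r + 1) i) ≤
      (((r : ℝ) + 1) * ((a (r + 1) - e (r + 1)) - a r)
        + ((n : ℝ) + 1 - r) * (a (r + 1) - (a r + e r)))
      + c * (s r (i + 1) * (((n : ℝ) + 1 - r) * (1 - t (r + 1) (i + 1) / σ)
          - ((r : ℝ) + 1) * (t r (i + 1) / σ))
        - s r i * (((n : ℝ) + 1 - r) * (1 - t (r + 1) i / σ) - ((r : ℝ) + 1) * (t r i / σ)))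
      - (uu σ t s lam r i + dd σ t s lam r i)
      - (((r : ℝ) + 1) * (aa t lam r i / (2 * σ))
        + ((n : ℝ) + 1 - r) * (aa t lam (r + 1) i / (2 * σ)))
      + (((r : ℝ) + 1) * (eU σ t s lam r i - cU σ t lam r i / (2 * h0))
        + ((n : ℝ) + 1 - r) * (eD σ t s lam r i - cD σ t lam r i / (2 * h0))) := by
    intro r hr
    rw [Finset.mem_range] at hr
    have hr' : r ≤ n := by omega
    have hrn : (r : ℝ) ≤ n := by exact_mod_cast hr'
    have hr0 : (0 : ℝ) ≤ r := Nat.cast_nonneg r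
    have h1 := mul_le_mul_of_nonneg_left (cellU hσ hσ1 hρ h hr' hi)
      (by linarith : (0 : ℝ) ≤ (r : ℝ) + 1)
    have h2 := mul_le_mul_of_nonneg_left (cellD hσ hσ1 hρ h hr' hi)
      (by linarith : (0 : ℝ) ≤ (n : ℝ) + 1 - r)
    have h3 := mul_nonneg hr0 (uu_nonneg h hr' hi)
    have h4 := mul_nonneg (by linarith : (0 : ℝ) ≤ (n : ℝ) - r) (dd_nonneg h hr' hi)
    have e1 : a (r + 1) - e (r + 1) = t (r + 1) i := by simp only [ha, he]; ring
    have e2 : a r + e r = t r (i + 1) := by simp only [ha, he]; ring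
    have e3 : a (r + 1) = (t (r + 1) i + t (r + 1) (i + 1)) / 2 := rfl
    have e4 : a r = (t r i + t r (i + 1)) / 2 := rfl
    rw [e1, e2, e3, e4]
    rw [← hc] at h1 h2
    generalize uu σ t s lam r i = U at *
    generalize dd σ t s lam r i = D at *
    generalize (eU σ t s lam r i - cU σ t lam r i / (2 * h0)) = EU at *
    generalize (eD σ t s lam r i - cD σ t lam r i / (2 * h0)) = ED at *
    generalize aa t lam r i / (2 * σ) = A1 at *
    generalize aa t lam (r + 1) i / (2 * σ) = A2 at *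
    generalize t r i / σ = T1 at *
    generalize t r (i + 1) / σ = T2 at *
    generalize t (r + 1) i / σ = T3 at *
    generalize t (r + 1) (i + 1) / σ = T4 at *
    linarith
  have hsum := Finset.sum_le_sum hcell
  rw [Col_split] at hsum
  have hL := lam_weights n (fun r => kap σ * lam r i)
  have hA := lam_weights n (fun r => aa t lam r i / (2 * σ))
  have hH := height_weights n σ a e
  have hB := cellB hσ hσ1 hρ h hi
  have hT := cellT hσ hσ1 hρ h hi
  have hBT := mul_le_mul_of_nonneg_left (add_le_add hB hT) (by linarith : (0 : ℝ) ≤ (n : ℝ) + 2)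
  have hbo := mul_nonneg (by linarith : (0 : ℝ) ≤ (n : ℝ) + 1) (bo_nonneg h hi)
  have hte := mul_nonneg (by linarith : (0 : ℝ) ≤ (n : ℝ) + 1) (te_nonneg h hi)
  have haa0 : 0 ≤ ∑ r ∈ Finset.range (n + 2), aa t lam r i := by
    refine Finset.sum_nonneg fun r hr => ?_
    rw [Finset.mem_range] at hr
    exact aa_nonneg h (by omega) hi
  have haa1 : ((n : ℝ) + 3) * ∑ r ∈ Finset.range (n + 2), aa t lam r i / (2 * σ) =
      (∑ r ∈ Finset.range (n + 2), aa t lam r i) / σ +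
        ((n : ℝ) + 1) * ((∑ r ∈ Finset.range (n + 2), aa t lam r i) / (2 * σ)) := by
    rw [← Finset.sum_div]
    field_simp
    ring
  have haa2 : 0 ≤ ((n : ℝ) + 1) * ((∑ r ∈ Finset.range (n + 2), aa t lam r i) / (2 * σ)) := by
    positivity
  have hE : ∑ r ∈ Finset.range (n + 2), e r =
      (∑ r ∈ Finset.range (n + 2), t r (i + 1) - ∑ r ∈ Finset.range (n + 2), t r i) / 2 := by
    rw [← Finset.sum_sub_distrib, Finset.sum_div]
  have hLk : kap σ * ∑ r ∈ Finset.range (n + 2), lam r i =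
      ∑ r ∈ Finset.range (n + 2), kap σ * lam r i := Finset.mul_sum _ _ _
  unfold GG Zc RR
  rw [hLk, ← hc, ← hL]
  rw [hE] at hH
  rw [haa1] at hA
  beta_reduce at hA
  have ha0 : a 0 = (t 0 i + t 0 (i + 1)) / 2 := rfl
  have han : a (n + 1) = (t (n + 1) i + t (n + 1) (i + 1)) / 2 := rfl
  rw [ha0, han] at hH
  linarith

end Pool.Agent.StripTwo
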