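import Pool.Agent.StripTwo.E5p_Def
import Pool.Agent.StripTwo.E7d_Def

/-! # Cross terms of an interior column -/

namespace Pool.Agent.StripTwo

open Pool.Agent.StripNear

variable {n i : ℕ} {σ ρ S : ℝ} {t s lam : ℕ → ℕ → ℝ}

private theorem cross_neg {L x A B : ℝ} (hL : L < 0) (hA : -A ≤ L) (hx : |x| ≤ B) (hB : 0 ≤ B) :
    |L * x| ≤ A * B := by
  rw [abs_mul, abs_of_neg hL]
  exact mul_le_mul (by linarith) hx (abs_nonneg _) (by linarith)

private theorem cross_key {T T' σ S : ℝ} (hσ : 0 < σ) (h1 : -(σ * S) ≤ T) (h1' : -(σ * S) ≤ T')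
    (h2 : T ≤ σ + σ * S) (h2' : T' ≤ σ + σ * S) :
    |1 - (T + T') / σ| ≤ 1 - |T' - T| / σ + 2 * S := by
  have e1 : (T + T') / σ * σ = T + T' := div_mul_cancel₀ _ hσ.ne'
  have e2 : |T' - T| / σ * σ = |T' - T| := div_mul_cancel₀ _ hσ.ne'
  have h3 : |T' - T| ≤ T + T' + 2 * (σ * S) := by
    rw [abs_le]; constructor <;> linarith
  have h4 : |T' - T| ≤ 2 * σ + 2 * (σ * S) - (T + T') := by
    rw [abs_le]; constructor <;> linarith
  rw [abs_le]
  constructor
  · by_contra hcon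
    rw [not_le] at hcon
    nlinarith
  · by_contra hcon
    rw [not_le] at hcon
    nlinarith

/-- If `lam < 0`: `|lam| ≤ σ S`, `|1 - (t + t') / σ| ≤ 1 + 2 ρ / σ`.  If `lam ≥ 0` and `|dt| ≤ σ`:
`|1 - (t + t') / σ| ≤ 1 - |dt| / σ + 2 S` (as `-σ S ≤ t, t' ≤ σ + σ S`), `lam ≤ psi dt ≤ dt²` and
`dt² (1 - |dt| / σ) = |dt| (|dt| (σ - |dt|) / σ) ≤ |dt| CP S` by `Pen.p1`, `dt² * 2 S ≤ 4 ρ S`.
If `lam ≥ 0` and `|dt| > σ`: `|1 - (t + t') / σ| ≤ 2 S` and `lam ≤ ρ`. -/
theorem cross1 (w : Win n σ ρ S i t s lam) (p : Pen n σ S i t s lam) (hσ : 0 < σ)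
    (hρ : ρ ≤ 1 / 40) {r : ℕ} (hr : r ≤ n + 1) :
    |lam r i * (1 - (t r i + t r (i + 1)) / σ)| ≤ (2 * CP n + 6) * (σ + ρ) * S := by
  have hS := w.S0
  have hCP : 0 ≤ CP n := by unfold CP; positivity
  have n1 := w.nt r hr i (by omega) (by omega)
  have n2 := w.nt r hr (i + 1) (by omega) (by omega)
  have hρ0 : 0 ≤ ρ := le_trans (abs_nonneg _) n1
  have l1 := w.lo r hr i (by omega) (by omega)
  have l2 := w.lo r hr (i + 1) (by omega) (by omega)
  have u1 := w.up r hr i (by omega) (by omega)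
  have u2 := w.up r hr (i + 1) (by omega) (by omega)
  have la := w.la r hr i (by omega) (by omega)
  have lu := w.lu r hr i (by omega) (by omega)
  have nl := w.nl r hr i (by omega) (by omega)
  have p1 := p.p1 r hr
  have key := cross_key hσ l1 l2 u1 u2
  have hdt : dt t r i = t r (i + 1) - t r i := rfl
  rw [← hdt] at key
  have hd2 : |dt t r i| ≤ 2 * ρ := by
    rw [hdt]
    have := abs_sub (t r (i + 1)) (t r i)
    linarith
  have hd1 : |dt t r i| ≤ 1 := by linarith
  have hpsi := psi_le_sq hd1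
  have hSρ : 0 ≤ S * ρ := mul_nonneg hS hρ0
  have hSσ : 0 ≤ S * σ := mul_nonneg hS hσ.le
  have hCS : 0 ≤ CP n * (S * σ) := mul_nonneg hCP hSσ
  have hCR : 0 ≤ CP n * (S * ρ) := mul_nonneg hCP hSρ
  rcases lt_or_ge (lam r i) 0 with hneg | hpos
  · have hx : |1 - (t r i + t r (i + 1)) / σ| ≤ 1 + 2 * ρ / σ := by
      have e1 := abs_sub (1 : ℝ) ((t r i + t r (i + 1)) / σ)
      have e2 : |(t r i + t r (i + 1)) / σ| ≤ 2 * ρ / σ := by
        rw [abs_div, abs_of_pos hσ]
        apply div_le_div_of_nonneg_right _ hσ.le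
        have := abs_add_le (t r i) (t r (i + 1))
        linarith
      rw [abs_one] at e1
      linarith
    have h1 := cross_neg hneg la hx (by positivity)
    have e3 : σ * S * (1 + 2 * ρ / σ) = σ * S + 2 * ρ * S := by
      field_simp
    rw [e3] at h1
    nlinarith
  · rw [abs_mul, abs_of_nonneg hpos]
    rcases le_or_gt (|dt t r i|) σ with hle | hgt
    · have q1 := p1 hle
      have hsq : (dt t r i) ^ 2 = |dt t r i| ^ 2 := (sq_abs _).symm
      set D := |dt t r i| with hD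
      have hD0 : 0 ≤ D := abs_nonneg _
      have hw : 0 ≤ 1 - D / σ := by
        have : D / σ ≤ 1 := (div_le_one hσ).2 hle
        linarith
      have hL : lam r i ≤ D ^ 2 := by rw [← hsq]; linarith
      have h1 : lam r i * |1 - (t r i + t r (i + 1)) / σ| ≤ D ^ 2 * (1 - D / σ + 2 * S) :=
        mul_le_mul hL key (abs_nonneg _) (by positivity)
      have h2 : D ^ 2 * (1 - D / σ) = D * (D * (σ - D) / σ) := by
        field_simp
      have h3 : D * (σ - D) / σ ≤ CP n * S := by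
        rw [div_le_iff₀ hσ]
        linarith
      have h4 : D * (D * (σ - D) / σ) ≤ 2 * ρ * (CP n * S) := by
        have h40 : 0 ≤ D * (σ - D) / σ := div_nonneg (mul_nonneg hD0 (by linarith)) hσ.le
        exact mul_le_mul hd2 h3 h40 (by linarith)
      have h5 : D ^ 2 * (2 * S) ≤ 4 * (S * ρ) := by
        have h51 : D ^ 2 ≤ 2 * ρ := by nlinarith
        nlinarith
      have h6 : D ^ 2 * (1 - D / σ + 2 * S) = D ^ 2 * (1 - D / σ) + D ^ 2 * (2 * S) := by ring
      rw [h6, h2] at h1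
      nlinarith
    · have hw : 1 - |dt t r i| / σ + 2 * S ≤ 2 * S := by
        have : 1 ≤ |dt t r i| / σ := (one_le_div hσ).2 hgt.le
        linarith
      have hL : lam r i ≤ ρ := le_trans (le_abs_self _) nl
      have h1 : lam r i * |1 - (t r i + t r (i + 1)) / σ| ≤ ρ * (2 * S) :=
        mul_le_mul hL (key.trans hw) (abs_nonneg _) hρ0
      nlinarith

/-- `lam ≥ 0`: `t / σ ≥ -S`, `lam ≤ ρ`.  `lam < 0`: `|lam| ≤ σ S`, `|t / σ| ≤ ρ / σ`. -/
theorem cross2 (w : Win n σ ρ S i t s lam) (hσ : 0 < σ) {r : ℕ} (hr : r ≤ n) :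
    -(2 * (σ + ρ) * S) ≤ lam (r + 1) i * (t r (i + 1) / σ) := by
  have hS := w.S0
  have n2 := w.nt r (by omega) (i + 1) (by omega) (by omega)
  have hρ0 : 0 ≤ ρ := le_trans (abs_nonneg _) n2
  have l2 := w.lo r (by omega) (i + 1) (by omega) (by omega)
  have la := w.la (r + 1) (by omega) i (by omega) (by omega)
  have nl := w.nl (r + 1) (by omega) i (by omega) (by omega)
  have hSρ : 0 ≤ S * ρ := mul_nonneg hS hρ0
  have hSσ : 0 ≤ S * σ := mul_nonneg hS hσ.le
  rcases lt_or_ge (lam (r + 1) i) 0 with hneg | hpos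
  · have hx : |t r (i + 1) / σ| ≤ ρ / σ := by
      rw [abs_div, abs_of_pos hσ]
      exact div_le_div_of_nonneg_right n2 hσ.le
    have h1 := cross_neg hneg la hx (by positivity)
    have e3 : σ * S * (ρ / σ) = ρ * S := by
      field_simp
    rw [e3] at h1
    have h2 := neg_abs_le (lam (r + 1) i * (t r (i + 1) / σ))
    nlinarith
  · have h1 : -S ≤ t r (i + 1) / σ := by
      rw [le_div_iff₀ hσ]
      linarith
    have hL : lam (r + 1) i ≤ ρ := le_trans (le_abs_self _) nl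
    have h2 : lam (r + 1) i * (-S) ≤ lam (r + 1) i * (t r (i + 1) / σ) :=
      mul_le_mul_of_nonneg_left h1 hpos
    nlinarith

theorem cross3 (w : Win n σ ρ S i t s lam) (hσ : 0 < σ) {r : ℕ} (hr : r ≤ n) :
    -(2 * (σ + ρ) * S) ≤ lam r i * (1 - t (r + 1) i / σ) := by
  have hS := w.S0
  have n2 := w.nt (r + 1) (by omega) i (by omega) (by omega)
  have hρ0 : 0 ≤ ρ := le_trans (abs_nonneg _) n2
  have u2 := w.up (r + 1) (by omega) i (by omega) (by omega)
  have la := w.la r (by omega) i (by omega) (by omega)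
  have nl := w.nl r (by omega) i (by omega) (by omega)
  have hSρ : 0 ≤ S * ρ := mul_nonneg hS hρ0
  have hSσ : 0 ≤ S * σ := mul_nonneg hS hσ.le
  rcases lt_or_ge (lam r i) 0 with hneg | hpos
  · have hx : |1 - t (r + 1) i / σ| ≤ 1 + ρ / σ := by
      have e1 := abs_sub (1 : ℝ) (t (r + 1) i / σ)
      have e2 : |t (r + 1) i / σ| ≤ ρ / σ := by
        rw [abs_div, abs_of_pos hσ]
        exact div_le_div_of_nonneg_right n2 hσ.le
      rw [abs_one] at e1
      linarith
    have h1 := cross_neg hneg la hx (by positivity)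
    have e3 : σ * S * (1 + ρ / σ) = σ * S + ρ * S := by
      field_simp
    rw [e3] at h1
    have h2 := neg_abs_le (lam r i * (1 - t (r + 1) i / σ))
    nlinarith
  · have h1 : -S ≤ 1 - t (r + 1) i / σ := by
      have : t (r + 1) i / σ ≤ 1 + S := by
        rw [div_le_iff₀ hσ]
        linarith
      linarith
    have hL : lam r i ≤ ρ := le_trans (le_abs_self _) nl
    have h2 : lam r i * (-S) ≤ lam r i * (1 - t (r + 1) i / σ) :=
      mul_le_mul_of_nonneg_left h1 hpos
    nlinarith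

end Pool.Agent.StripTwo
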