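import Pool.Agent.StripTwo.E8a_Err
import Pool.Agent.StripTwo.E8b_Cross

/-! # The remainder of an interior column -/

namespace Pool.Agent.StripTwo

open Pool.Agent.StripNear

variable {n i : ℕ} {σ ρ S : ℝ} {t s lam : ℕ → ℕ → ℝ}

/-- Constant of the interior remainder. -/
noncomputable def C1 (n : ℕ) : ℝ := 20 * ((n : ℝ) + 2) ^ 2 * CP n

/-- Sum of the previous bounds; `∑ r, ((r + 1) + (n + 1 - r)) = (n + 1) (n + 2)`, `CP n ≥ 300`,
`1 / (2 h0) ≤ 3 / 5`. -/
theorem rem_le (w : Win n σ ρ S i t s lam) (p : Pen n σ S i t s lam) (hσ : 0 < σ)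
    (hρ : ρ ≤ 1 / 40) (hρ0 : 0 ≤ ρ) : RR n σ t s lam i ≤ C1 n * (σ + ρ) * S := by
  have hS : 0 ≤ S := w.S0
  have hh := h0_gt
  have hh0 := h0_pos
  have hCP : 300 ≤ CP n := by
    unfold CP
    have : (3 : ℝ) ^ 1 ≤ 3 ^ (n + 1) := pow_le_pow_right₀ (by norm_num) (by omega)
    linarith
  set Y : ℝ := (σ + ρ) * S with hY
  have hY0 : 0 ≤ Y := by positivity
  set k : ℝ := 1 / (2 * h0) with hk
  have hk0 : 0 ≤ k := by positivity
  have hk1 : k ≤ 3 / 5 := by
    rw [hk, div_le_iff₀ (by positivity)]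
    linarith
  have hdiv : ∀ x : ℝ, x / (2 * h0) = k * x := by
    intro x; rw [hk]; ring
  have hterm : ∀ r ∈ Finset.range (n + 1),
      (((r : ℝ) + 1) * (eU σ t s lam r i - cU σ t lam r i / (2 * h0))
      + ((n : ℝ) + 1 - r) * (eD σ t s lam r i - cD σ t lam r i / (2 * h0)))
      ≤ ((n : ℝ) + 2) * ((3 * CP n + 13) * Y) := by
    intro r hr
    have hr' : r ≤ n := Nat.lt_succ_iff.mp (Finset.mem_range.mp hr)
    have hrR : (r : ℝ) ≤ n := by exact_mod_cast hr'
    have hr0 : (0 : ℝ) ≤ r := Nat.cast_nonneg r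
    have e1 := eU_le w p hσ hr'
    have e2 := eD_le w p hσ hr'
    have c1 := (abs_le.mp (cross1 w p hσ hρ (r := r) (by omega))).1
    have c2 := cross2 w hσ hr'
    have c3 := cross3 w hσ hr'
    have c4 := (abs_le.mp (cross1 w p hσ hρ (r := r + 1) (by omega))).2
    have e1' : eU σ t s lam r i ≤ (2 * CP n + 10) * Y := by rw [hY]; linarith
    have e2' : eD σ t s lam r i ≤ (2 * CP n + 10) * Y := by rw [hY]; linarith
    have hcU : -((CP n + 5) * Y) ≤ cU σ t lam r i := by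
      unfold cU
      rw [hY]
      linarith
    have hcD : -((CP n + 5) * Y) ≤ cD σ t lam r i := by
      unfold cD
      rw [hY]
      linarith
    have key : ∀ x : ℝ, -((CP n + 5) * Y) ≤ x → -(x / (2 * h0)) ≤ 3 / 5 * ((CP n + 5) * Y) := by
      intro x hx
      rw [hdiv]
      have h1 : k * (-x) ≤ k * ((CP n + 5) * Y) := mul_le_mul_of_nonneg_left (by linarith) hk0
      have h2 : k * ((CP n + 5) * Y) ≤ 3 / 5 * ((CP n + 5) * Y) :=
        mul_le_mul_of_nonneg_right hk1 (by positivity)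
      linarith
    have a1 : eU σ t s lam r i - cU σ t lam r i / (2 * h0) ≤ (3 * CP n + 13) * Y := by
      have := key _ hcU
      have h3 : 0 ≤ CP n * Y := by positivity
      nlinarith
    have a2 : eD σ t s lam r i - cD σ t lam r i / (2 * h0) ≤ (3 * CP n + 13) * Y := by
      have := key _ hcD
      have h3 : 0 ≤ CP n * Y := by positivity
      nlinarith
    have b1 := mul_le_mul_of_nonneg_left a1 (show (0 : ℝ) ≤ (r : ℝ) + 1 by linarith)
    have b2 := mul_le_mul_of_nonneg_left a2 (show (0 : ℝ) ≤ (n : ℝ) + 1 - r by linarith)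
    calc _ ≤ ((r : ℝ) + 1) * ((3 * CP n + 13) * Y) + ((n : ℝ) + 1 - r) * ((3 * CP n + 13) * Y) :=
          add_le_add b1 b2
      _ = _ := by ring
  have hsum := Finset.sum_le_sum hterm
  rw [Finset.sum_const, Finset.card_range, nsmul_eq_mul] at hsum
  have z1 := ez_le w hσ (r := 0) (by omega)
  have z2 := ez_le w hσ (r := n + 1) (by omega)
  have z1' : ez σ t 0 i ≤ 4 * Y := by rw [hY]; linarith
  have z2' : ez σ t (n + 1) i ≤ 4 * Y := by rw [hY]; linarith
  have hn : (0 : ℝ) ≤ n := Nat.cast_nonneg n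
  have hfin : RR n σ t s lam i ≤ ((n : ℝ) + 1) * (((n : ℝ) + 2) * ((3 * CP n + 13) * Y))
      + ((n : ℝ) + 2) * (8 * Y) := by
    unfold RR
    have h8 : ((n : ℝ) + 2) * (ez σ t 0 i + ez σ t (n + 1) i) ≤ ((n : ℝ) + 2) * (8 * Y) := by
      apply mul_le_mul_of_nonneg_left _ (by linarith)
      linarith
    push_cast at hsum
    linarith
  have hlast : ((n : ℝ) + 1) * (((n : ℝ) + 2) * ((3 * CP n + 13) * Y))
      + ((n : ℝ) + 2) * (8 * Y) ≤ C1 n * Y := by
    unfold C1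
    have g1 : ((n : ℝ) + 1) * (((n : ℝ) + 2) * ((3 * CP n + 13) * Y)) ≤
        ((n : ℝ) + 2) * (((n : ℝ) + 2) * ((3 * CP n + 13) * Y)) := by
      apply mul_le_mul_of_nonneg_right (by linarith)
      positivity
    have g2 : ((n : ℝ) + 2) * (8 * Y) ≤ ((n : ℝ) + 2) * (((n : ℝ) + 2) * (8 * Y)) := by
      apply mul_le_mul_of_nonneg_left _ (by linarith)
      nlinarith
    have g3 : (3 * CP n + 21) * Y ≤ 20 * CP n * Y := by
      apply mul_le_mul_of_nonneg_right _ hY0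
      linarith
    have g4 : ((n : ℝ) + 2) ^ 2 * ((3 * CP n + 21) * Y) ≤ ((n : ℝ) + 2) ^ 2 * (20 * CP n * Y) :=
      mul_le_mul_of_nonneg_left g3 (by positivity)
    nlinarith
  calc RR n σ t s lam i ≤ _ := hfin
    _ ≤ C1 n * Y := hlast
    _ = C1 n * (σ + ρ) * S := by rw [hY]; ring

end Pool.Agent.StripTwo
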