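import Pool.Agent.StripTwo.E7d_Def

/-! # Columns where all deviations are at most `η` -/

namespace Pool.Agent.StripTwo

open Pool.Agent.StripNear

variable {n i : ℕ} {σ η : ℝ} {t s lam : ℕ → ℕ → ℝ}

/-- Constant of the end columns. -/
noncomputable def C2 (n : ℕ) : ℝ := 30 * ((n : ℝ) + 2) ^ 2

private theorem End_h0 : 0 ≤ 1 / (2 * h0) ∧ 1 / (2 * h0) ≤ 1 := by
  have h1 := h0_gt
  have h2 : (0 : ℝ) < 2 * h0 := by linarith
  refine ⟨by positivity, ?_⟩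
  rw [div_le_one h2]
  linarith

private theorem End_ze (hσ : 0 < σ) (hη : 0 ≤ η) {r : ℕ} (h1 : |t r i| ≤ η)
    (h2 : |t r (i + 1)| ≤ η) : ze σ t r i ≤ 2 * η := by
  unfold ze dt
  refine max_le (by linarith) ?_
  have h3 := abs_sub (t r (i + 1)) (t r i)
  linarith

private theorem End_ez (hσ : 0 < σ) (hη : 0 ≤ η) {r : ℕ} (h1 : |t r i| ≤ η)
    (h2 : |t r (i + 1)| ≤ η) : ez σ t r i ≤ 2 * η + 4 * (η ^ 2 / σ) := by
  have h3 := End_ze hσ hη h1 h2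
  have h4 := ze_nonneg σ t r i
  unfold ez
  have h5 : ze σ t r i ^ 2 / σ ≤ 4 * (η ^ 2 / σ) := by
    rw [← mul_div_assoc]
    refine div_le_div_of_nonneg_right ?_ hσ.le
    nlinarith
  linarith

private theorem End_quad {c x y η : ℝ} (hc1 : c ≤ 1) (hc2 : -1 ≤ c) (hx : |x| ≤ 2 * η)
    (hy : |y| ≤ 2 * η) : (1 - c) / 2 * x ^ 2 + (1 + c) / 2 * y ^ 2 ≤ 4 * η ^ 2 := by
  have h1 : x ^ 2 ≤ (2 * η) ^ 2 := by
    rw [← sq_abs x]
    exact pow_le_pow_left₀ (abs_nonneg x) hx 2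
  have h2 : y ^ 2 ≤ (2 * η) ^ 2 := by
    rw [← sq_abs y]
    exact pow_le_pow_left₀ (abs_nonneg y) hy 2
  have h3 := mul_le_mul_of_nonneg_left h1 (by linarith : 0 ≤ (1 - c) / 2)
  have h4 := mul_le_mul_of_nonneg_left h2 (by linarith : 0 ≤ (1 + c) / 2)
  nlinarith

private theorem End_lin {z x y η σ : ℝ} (hσ : 0 < σ) (hη : 0 ≤ η) (hz0 : 0 ≤ z)
    (hz : z ≤ 2 * η) (hxy : |x| + |y| ≤ 3 * η) :
    z / σ * (|x| + |y|) ≤ 6 * (η ^ 2 / σ) := by
  have h1 : z * (|x| + |y|) ≤ 2 * η * (3 * η) :=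
    mul_le_mul hz hxy (by positivity) (by linarith)
  have h2 : z / σ * (|x| + |y|) = z * (|x| + |y|) / σ := by ring
  rw [h2, ← mul_div_assoc]
  refine div_le_div_of_nonneg_right ?_ hσ.le
  nlinarith

private theorem End_eU (hσ : 0 < σ) (hη : 0 ≤ η) (hη1 : η ≤ 1 / 40) {r : ℕ}
    (h1 : |t r i| ≤ η) (h2 : |t r (i + 1)| ≤ η) (h3 : |s r i| ≤ η) (h4 : |lam r i| ≤ η) :
    eU σ t s lam r i ≤ 21 / 10 * η + 10 * (η ^ 2 / σ) := by
  have h5 := End_ez hσ hη h1 h2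
  have h6 : |s r i + lam r i| ≤ 2 * η := (abs_add_le _ _).trans (by linarith)
  have h7 := End_quad (chi_le σ t r i) (le_chi σ t r i) (by linarith : |s r i| ≤ 2 * η) h6
  have h8 := End_lin (x := s r i) (y := s r i + lam r i) hσ hη (ze_nonneg σ t r i)
    (End_ze hσ hη h1 h2) (by linarith)
  unfold eU
  nlinarith

private theorem End_eD (hσ : 0 < σ) (hη : 0 ≤ η) (hη1 : η ≤ 1 / 40) {r : ℕ}
    (h1 : |t (r + 1) i| ≤ η) (h2 : |t (r + 1) (i + 1)| ≤ η) (h3 : |s r i| ≤ η)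
    (h3' : |s r (i + 1)| ≤ η) (h4 : |lam r i| ≤ η) :
    eD σ t s lam r i ≤ 21 / 10 * η + 10 * (η ^ 2 / σ) := by
  have h5 := End_ez hσ hη h1 h2
  have h6 : |s r i + lam r i| ≤ 2 * η := (abs_add_le _ _).trans (by linarith)
  have h7 := End_quad (chi_le σ t (r + 1) i) (le_chi σ t (r + 1) i)
    (by linarith : |s r (i + 1)| ≤ 2 * η) h6
  have h8 := End_lin (x := s r i + lam r i) (y := s r (i + 1)) hσ hη (ze_nonneg σ t (r + 1) i)
    (End_ze hσ hη h1 h2) (by linarith)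
  unfold eD
  nlinarith

private theorem End_prod {x y η : ℝ} (hη : 0 ≤ η) (hx : |x| ≤ η) {b : ℝ} (hy : |y| ≤ b) :
    |x * y| ≤ η * b := by
  rw [abs_mul]
  exact mul_le_mul hx hy (abs_nonneg _) hη

private theorem End_div {x η σ : ℝ} (hσ : 0 < σ) (hx : |x| ≤ η) : |x / σ| ≤ η / σ := by
  rw [abs_div, abs_of_pos hσ]
  exact div_le_div_of_nonneg_right hx hσ.le

private theorem End_cU (hσ : 0 < σ) (hη : 0 ≤ η) {r : ℕ}
    (h1 : |t r i| ≤ η) (h2 : |t r (i + 1)| ≤ η) (h4 : |lam r i| ≤ η) (h5 : |lam (r + 1) i| ≤ η) :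
    |cU σ t lam r i| ≤ η / 2 + 2 * (η ^ 2 / σ) := by
  have a1 : |1 - (t r i + t r (i + 1)) / σ| ≤ 1 + 2 * (η / σ) := by
    have b1 : |(t r i + t r (i + 1)) / σ| ≤ 2 * η / σ :=
      End_div hσ ((abs_add_le _ _).trans (by linarith))
    have b2 := abs_sub (1 : ℝ) ((t r i + t r (i + 1)) / σ)
    rw [abs_one] at b2
    rw [mul_div_assoc] at b1
    linarith
  have a2 := End_prod hη h4 a1
  have a3 := End_prod hη h5 (End_div hσ h2)
  have a4 : η * (1 + 2 * (η / σ)) = η + 2 * (η ^ 2 / σ) := by ring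
  have a5 : η * (η / σ) = η ^ 2 / σ := by ring
  rw [a4] at a2
  rw [a5] at a3
  unfold cU
  refine (abs_add_le _ _).trans ?_
  rw [abs_div, abs_two]
  linarith

private theorem End_cD (hσ : 0 < σ) (hη : 0 ≤ η) {r : ℕ}
    (h1 : |t (r + 1) i| ≤ η) (h2 : |t (r + 1) (i + 1)| ≤ η) (h4 : |lam r i| ≤ η)
    (h5 : |lam (r + 1) i| ≤ η) :
    |cD σ t lam r i| ≤ 3 / 2 * η + 2 * (η ^ 2 / σ) := by
  have a1 : |1 - (t (r + 1) i + t (r + 1) (i + 1)) / σ| ≤ 1 + 2 * (η / σ) := by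
    have b1 : |(t (r + 1) i + t (r + 1) (i + 1)) / σ| ≤ 2 * η / σ :=
      End_div hσ ((abs_add_le _ _).trans (by linarith))
    have b2 := abs_sub (1 : ℝ) ((t (r + 1) i + t (r + 1) (i + 1)) / σ)
    rw [abs_one] at b2
    rw [mul_div_assoc] at b1
    linarith
  have a0 : |1 - t (r + 1) i / σ| ≤ 1 + η / σ := by
    have b1 := End_div hσ h1
    have b2 := abs_sub (1 : ℝ) (t (r + 1) i / σ)
    rw [abs_one] at b2
    linarith
  have a2 := End_prod hη h5 a1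
  have a3 := End_prod hη h4 a0
  have a4 : η * (1 + 2 * (η / σ)) = η + 2 * (η ^ 2 / σ) := by ring
  have a5 : η * (1 + η / σ) = η + η ^ 2 / σ := by ring
  rw [a4] at a2
  rw [a5] at a3
  unfold cD
  refine (abs_sub _ _).trans ?_
  rw [abs_div, abs_two]
  linarith

private theorem End_c {c b : ℝ} (hc : |c| ≤ b) : -(c / (2 * h0)) ≤ b := by
  have h1 := End_h0
  have h2 : |c / (2 * h0)| ≤ b := by
    have h3 : c / (2 * h0) = c * (1 / (2 * h0)) := by ring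
    rw [h3, abs_mul, abs_of_nonneg h1.1]
    calc |c| * (1 / (2 * h0)) ≤ |c| * 1 := mul_le_mul_of_nonneg_left h1.2 (abs_nonneg c)
      _ ≤ b := by linarith
  have h4 := neg_abs_le (c / (2 * h0))
  linarith

/-- `|dt| ≤ 2 η`, `ze ≤ 2 η`, all error terms of `eU`, `eD` are at most `13 (η + η² / σ)`, also
the cross terms. -/
theorem rem_end (hσ : 0 < σ) (hη : 0 ≤ η) (hη1 : η ≤ 1 / 40)
    (ht : ∀ r ≤ n + 1, |t r i| ≤ η) (ht' : ∀ r ≤ n + 1, |t r (i + 1)| ≤ η)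
    (hs : ∀ r ≤ n, |s r i| ≤ η) (hs' : ∀ r ≤ n, |s r (i + 1)| ≤ η)
    (hl : ∀ r ≤ n + 1, |lam r i| ≤ η) :
    RR n σ t s lam i ≤ C2 n * (η + η ^ 2 / σ) := by
  have hQ : 0 ≤ η ^ 2 / σ := by positivity
  have hn0 : (0 : ℝ) ≤ n := Nat.cast_nonneg n
  have h1 : ∀ r ∈ Finset.range (n + 1),
      (((r : ℝ) + 1) * (eU σ t s lam r i - cU σ t lam r i / (2 * h0))
        + ((n : ℝ) + 1 - r) * (eD σ t s lam r i - cD σ t lam r i / (2 * h0))) ≤
      ((n : ℝ) + 2) * (12 * (η + η ^ 2 / σ)) := by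
    intro r hr
    rw [Finset.mem_range] at hr
    have hr' : r ≤ n := by omega
    have hrn : (r : ℝ) ≤ n := by exact_mod_cast hr'
    have hr0 : (0 : ℝ) ≤ r := Nat.cast_nonneg r
    have b1 := End_eU hσ hη hη1 (ht r (by omega)) (ht' r (by omega)) (hs r hr') (hl r (by omega))
    have b2 := End_eD hσ hη hη1 (ht (r + 1) (by omega)) (ht' (r + 1) (by omega)) (hs r hr')
      (hs' r hr') (hl r (by omega))
    have b3 := End_c (End_cU hσ hη (ht r (by omega)) (ht' r (by omega)) (hl r (by omega))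
      (hl (r + 1) (by omega)))
    have b4 := End_c (End_cD hσ hη (ht (r + 1) (by omega)) (ht' (r + 1) (by omega))
      (hl r (by omega)) (hl (r + 1) (by omega)))
    have b5 : eU σ t s lam r i - cU σ t lam r i / (2 * h0) ≤ 12 * (η + η ^ 2 / σ) := by linarith
    have b6 : eD σ t s lam r i - cD σ t lam r i / (2 * h0) ≤ 12 * (η + η ^ 2 / σ) := by linarith
    have b7 := mul_le_mul_of_nonneg_left b5 (by linarith : (0 : ℝ) ≤ (r : ℝ) + 1)
    have b8 := mul_le_mul_of_nonneg_left b6 (by linarith : (0 : ℝ) ≤ (n : ℝ) + 1 - r)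
    refine (add_le_add b7 b8).trans (le_of_eq ?_)
    ring
  have h2 := Finset.sum_le_sum h1
  rw [Finset.sum_const, Finset.card_range, nsmul_eq_mul] at h2
  push_cast at h2
  have h3 := End_ez hσ hη (ht 0 (by omega)) (ht' 0 (by omega))
  have h4 := End_ez hσ hη (ht (n + 1) le_rfl) (ht' (n + 1) le_rfl)
  have h5 : ((n : ℝ) + 2) * (ez σ t 0 i + ez σ t (n + 1) i) ≤
      ((n : ℝ) + 2) * (8 * (η + η ^ 2 / σ)) :=
    mul_le_mul_of_nonneg_left (by linarith) (by linarith)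
  unfold RR C2
  have hM : 0 ≤ η + η ^ 2 / σ := by linarith
  have h6 : 30 * ((n : ℝ) + 2) ^ 2 * (η + η ^ 2 / σ) =
      ((n : ℝ) + 1) * (((n : ℝ) + 2) * (12 * (η + η ^ 2 / σ))) +
      ((n : ℝ) + 2) * (8 * (η + η ^ 2 / σ)) +
      ((n : ℝ) + 2) * ((18 * n + 40) * (η + η ^ 2 / σ)) := by ring
  have h7 : 0 ≤ ((n : ℝ) + 2) * ((18 * n + 40) * (η + η ^ 2 / σ)) := by positivity
  rw [h6]
  linarith

theorem GG_end (hσ : 0 < σ) (hη : 0 ≤ η) (hη1 : η ≤ 1 / 40)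
    (ht : ∀ r ≤ n + 1, |t r i| ≤ η) (hs : ∀ r ≤ n, |s r i| ≤ η) :
    |GG n σ t s i| ≤ C2 n * (η + η ^ 2 / σ) := by
  have _ := hη1
  have hQ : 0 ≤ η ^ 2 / σ := by positivity
  have hn0 : (0 : ℝ) ≤ n := Nat.cast_nonneg n
  have hh := End_h0
  have h1 : |∑ r ∈ Finset.range (n + 1),
      s r i * (((n : ℝ) + 1 - r) * (1 - t (r + 1) i / σ) - ((r : ℝ) + 1) * (t r i / σ))| ≤
      ((n : ℝ) + 1) * (((n : ℝ) + 2) * (η + η ^ 2 / σ)) := by
    refine (Finset.abs_sum_le_sum_abs _ _).trans ?_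
    have h2 : ∀ r ∈ Finset.range (n + 1),
        |s r i * (((n : ℝ) + 1 - r) * (1 - t (r + 1) i / σ) - ((r : ℝ) + 1) * (t r i / σ))| ≤
        ((n : ℝ) + 2) * (η + η ^ 2 / σ) := by
      intro r hr
      rw [Finset.mem_range] at hr
      have hr' : r ≤ n := by omega
      have hrn : (r : ℝ) ≤ n := by exact_mod_cast hr'
      have hr0 : (0 : ℝ) ≤ r := Nat.cast_nonneg r
      have hQ' : 0 ≤ η / σ := by positivity
      have b1 := End_div hσ (ht (r + 1) (by omega))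
      have b2 := End_div hσ (ht r (by omega))
      have b3 : |1 - t (r + 1) i / σ| ≤ 1 + η / σ := by
        have b4 := abs_sub (1 : ℝ) (t (r + 1) i / σ)
        rw [abs_one] at b4
        linarith
      have b5 : |((n : ℝ) + 1 - r) * (1 - t (r + 1) i / σ) - ((r : ℝ) + 1) * (t r i / σ)| ≤
          ((n : ℝ) + 2) * (1 + η / σ) := by
        refine (abs_sub _ _).trans ?_
        rw [abs_mul, abs_mul, abs_of_nonneg (by linarith : (0 : ℝ) ≤ (n : ℝ) + 1 - r),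
          abs_of_nonneg (by linarith : (0 : ℝ) ≤ (r : ℝ) + 1)]
        have b6 := mul_le_mul_of_nonneg_left b3 (by linarith : (0 : ℝ) ≤ (n : ℝ) + 1 - r)
        have b7 := mul_le_mul_of_nonneg_left (by linarith : |t r i / σ| ≤ 1 + η / σ)
          (by linarith : (0 : ℝ) ≤ (r : ℝ) + 1)
        refine (add_le_add b6 b7).trans (le_of_eq ?_)
        ring
      refine (End_prod hη (hs r hr') b5).trans (le_of_eq ?_)
      ring
    refine (Finset.sum_le_sum h2).trans (le_of_eq ?_)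
    rw [Finset.sum_const, Finset.card_range, nsmul_eq_mul]
    push_cast
    ring
  have h3 : |∑ r ∈ Finset.range (n + 2), t r i| ≤ ((n : ℝ) + 2) * η := by
    refine (Finset.abs_sum_le_sum_abs _ _).trans ?_
    have h4 : ∀ r ∈ Finset.range (n + 2), |t r i| ≤ η := by
      intro r hr
      rw [Finset.mem_range] at hr
      exact ht r (by omega)
    refine (Finset.sum_le_sum h4).trans (le_of_eq ?_)
    rw [Finset.sum_const, Finset.card_range, nsmul_eq_mul]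
    push_cast
    ring
  unfold GG C2
  refine (abs_sub _ _).trans ?_
  rw [abs_mul, abs_mul, abs_of_nonneg hh.1, abs_of_nonneg (by linarith : 0 ≤ ((n : ℝ) + 1) / 2)]
  have hM : 0 ≤ η + η ^ 2 / σ := by linarith
  have h5 : 1 / (2 * h0) * |∑ r ∈ Finset.range (n + 1),
      s r i * (((n : ℝ) + 1 - r) * (1 - t (r + 1) i / σ) - ((r : ℝ) + 1) * (t r i / σ))| ≤
      1 * (((n : ℝ) + 1) * (((n : ℝ) + 2) * (η + η ^ 2 / σ))) :=
    mul_le_mul hh.2 h1 (abs_nonneg _) (by norm_num)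
  have h6 : ((n : ℝ) + 1) / 2 * |∑ r ∈ Finset.range (n + 2), t r i| ≤
      ((n : ℝ) + 1) / 2 * (((n : ℝ) + 2) * (η + η ^ 2 / σ)) := by
    refine mul_le_mul_of_nonneg_left (h3.trans ?_) (by linarith)
    exact mul_le_mul_of_nonneg_left (by linarith) (by linarith)
  have h7 : 30 * ((n : ℝ) + 2) ^ 2 * (η + η ^ 2 / σ) =
      1 * (((n : ℝ) + 1) * (((n : ℝ) + 2) * (η + η ^ 2 / σ))) +
      ((n : ℝ) + 1) / 2 * (((n : ℝ) + 2) * (η + η ^ 2 / σ)) +
      ((n : ℝ) + 2) * ((57 / 2 * n + 117 / 2) * (η + η ^ 2 / σ)) := by ring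
  have h8 : 0 ≤ ((n : ℝ) + 2) * ((57 / 2 * n + 117 / 2) * (η + η ^ 2 / σ)) := by positivity
  rw [h7]
  linarith

end Pool.Agent.StripTwo
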