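import Pool.Agent.StripTwo.E3_Win
import Pool.Agent.StripTwo.E5_Pen
import Pool.Agent.StripTwo.E7_Col
import Pool.Agent.StripTwo.E8_Rem
import Pool.Agent.StripTwo.E9_End
import Pool.Agent.StripTwo.E10a_Win

/-! # The elastic lemma above a lattice width -/

namespace Pool.Agent.StripTwo

open Pool.Agent.StripNear

variable {n N : ℕ} {σ ρ η : ℝ} {t s lam : ℕ → ℕ → ℝ}

/-- Smallness constant. -/
noncomputable def SM (n : ℕ) : ℝ := 4000 * ((n : ℝ) + 2) ^ 2 * 3 ^ (n + 1) * (2 * n + 7)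

/-- Error constant. -/
noncomputable def EE (n : ℕ) : ℝ := 600 * ((n : ℝ) + 3) ^ 3

private theorem SM_ge (n : ℕ) : (300000 : ℝ) ≤ SM n := by
  unfold SM
  have hn : (0 : ℝ) ≤ n := Nat.cast_nonneg n
  have h1 : (4 : ℝ) ≤ ((n : ℝ) + 2) ^ 2 := by nlinarith
  have h2 : (3 : ℝ) ≤ 3 ^ (n + 1) := by
    have : (1 : ℝ) ≤ 3 ^ n := one_le_pow₀ (by norm_num)
    rw [pow_succ]; linarith
  have h3 : (7 : ℝ) ≤ 2 * n + 7 := by linarith
  have h4 : (4 : ℝ) * 3 ≤ ((n : ℝ) + 2) ^ 2 * 3 ^ (n + 1) :=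
    mul_le_mul h1 h2 (by norm_num) (by positivity)
  have h5 : (4 : ℝ) * 3 * 7 ≤ ((n : ℝ) + 2) ^ 2 * 3 ^ (n + 1) * (2 * n + 7) :=
    mul_le_mul h4 h3 (by norm_num) (by positivity)
  nlinarith

private theorem C2_nonneg (n : ℕ) : 0 ≤ C2 n := by unfold C2; positivity

/-- Sum of `column` over `i < N`: the potentials telescope, `GG_end` at both ends; the remainders
of the end columns by `rem_end`, of the other ones by `win_of`, `pen`, `rem_le` and `sum_Wc_le`: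
their sum is at most `C1 n (σ + ρ) (2 n + 7) ∑ Zc ≤ ∑ Zc`, because
`SM n = C1 n * (2 n + 7) * 2 ` or more.  Divide by `(n + 3) kap σ`; `kap_mul`, `1 / kap σ ≤ 2 σ`. -/
theorem elastic2 (hσ : 0 < σ) (hη : 0 ≤ η) (hηρ : η ≤ ρ) (hsm : SM n * (σ + ρ) ≤ 1)
    (h : Q2 n N σ ρ t s lam)
    (hend : ∀ i ≤ N, (i ≤ n + 3 ∨ N ≤ i + (n + 3)) → (∀ r ≤ n + 1, |t r i| ≤ η) ∧
      (∀ r ≤ n, |s r i| ≤ η) ∧ (i < N → ∀ r ≤ n + 1, |lam r i| ≤ η)) :
    ∑ i ∈ Finset.range N, ∑ r ∈ Finset.range (n + 2), lam r i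
      ≤ 2 * (1 - ct σ) * (n + 2) / (n + 3) * N + EE n * η := by
  have hρ0 : 0 ≤ ρ := hη.trans hηρ
  have hSM := SM_ge n
  have hsmall : 300000 * (σ + ρ) ≤ 1 :=
    (mul_le_mul_of_nonneg_right hSM (by linarith)).trans hsm
  have hσ1 : σ ≤ 1 / 32 := by linarith
  have hρ1 : ρ ≤ 1 / 40 := by linarith
  have hη1 : η ≤ 1 / 40 := by linarith
  have hn : (0 : ℝ) ≤ n := Nat.cast_nonneg n
  have hC2 := C2_nonneg n
  have hkap : 1 / (2 * σ) ≤ kap σ := kap_ge hσ
  have hkap0 : 0 < kap σ := lt_of_lt_of_le (by positivity) hkap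
  set Z : ℕ → ℝ := fun i => Zc n σ t s lam i with hZ
  set B : ℝ := C2 n * (η + η ^ 2 / σ) with hB
  have hB0 : 0 ≤ B := by positivity
  have hZ0 : 0 ≤ ∑ i ∈ Finset.range N, Z i :=
    Finset.sum_nonneg fun i hi => Zc_nonneg hσ h (Finset.mem_range.1 hi)
  -- the remainders of the interior columns
  have hint : ∑ i ∈ (Finset.range N).filter (fun i => n + 3 ≤ i ∧ i + n + 4 ≤ N),
      RR n σ t s lam i ≤ ∑ i ∈ Finset.range N, Z i := by
    have h1 : ∑ i ∈ (Finset.range N).filter (fun i => n + 3 ≤ i ∧ i + n + 4 ≤ N),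
        RR n σ t s lam i ≤ ∑ i ∈ (Finset.range N).filter (fun i => n + 3 ≤ i ∧ i + n + 4 ≤ N),
          C1 n * (σ + ρ) * Wc n σ t s lam i := by
      refine Finset.sum_le_sum fun i hi => ?_
      obtain ⟨-, hi1, hi2⟩ := Finset.mem_filter.1 hi
      have w := win_of hσ hρ1 h hi1 hi2
      exact rem_le w (pen w hσ hσ1 hρ1 (by omega)) hσ hρ1 hρ0
    have hC1 : 0 ≤ C1 n * (σ + ρ) := by
      have : 0 ≤ C1 n := by unfold C1 CP; positivity
      exact mul_nonneg this (by linarith)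
    have h2 : C1 n * (σ + ρ) * (2 * n + 7) ≤ 1 := by
      have : C1 n * (σ + ρ) * (2 * n + 7) = SM n * (σ + ρ) / 2 := by
        unfold C1 CP SM; ring
      rw [this]
      have : 0 ≤ SM n * (σ + ρ) := mul_nonneg (by linarith) (by linarith)
      linarith
    calc ∑ i ∈ (Finset.range N).filter (fun i => n + 3 ≤ i ∧ i + n + 4 ≤ N),
        RR n σ t s lam i ≤ ∑ i ∈ (Finset.range N).filter (fun i => n + 3 ≤ i ∧ i + n + 4 ≤ N),
          C1 n * (σ + ρ) * Wc n σ t s lam i := h1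
      _ = C1 n * (σ + ρ) * ∑ i ∈ (Finset.range N).filter (fun i => n + 3 ≤ i ∧ i + n + 4 ≤ N),
          Wc n σ t s lam i := by rw [Finset.mul_sum]
      _ ≤ C1 n * (σ + ρ) * ((2 * n + 7) * ∑ i ∈ Finset.range N, Zc n σ t s lam i) :=
          mul_le_mul_of_nonneg_left (sum_Wc_le hσ h) hC1
      _ = C1 n * (σ + ρ) * (2 * n + 7) * ∑ i ∈ Finset.range N, Z i := by rw [hZ]; ring
      _ ≤ 1 * ∑ i ∈ Finset.range N, Z i := mul_le_mul_of_nonneg_right h2 hZ0
      _ = ∑ i ∈ Finset.range N, Z i := one_mul _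
  -- the end columns
  have hends : ∑ i ∈ (Finset.range N).filter (fun i => ¬ (n + 3 ≤ i ∧ i + n + 4 ≤ N)),
      RR n σ t s lam i ≤ (2 * n + 6) * B := by
    have h1 : ∑ i ∈ (Finset.range N).filter (fun i => ¬ (n + 3 ≤ i ∧ i + n + 4 ≤ N)),
        RR n σ t s lam i
        ≤ ∑ i ∈ (Finset.range N).filter (fun i => ¬ (n + 3 ≤ i ∧ i + n + 4 ≤ N)), B := by
      refine Finset.sum_le_sum fun i hi => ?_
      obtain ⟨hi0, hi1⟩ := Finset.mem_filter.1 hi
      have hiN : i < N := Finset.mem_range.1 hi0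
      obtain ⟨a1, a2, a3⟩ := hend i hiN.le (by omega)
      obtain ⟨b1, b2, -⟩ := hend (i + 1) (by omega) (by omega)
      exact rem_end hσ hη hη1 a1 b1 a2 b2 (a3 hiN)
    refine h1.trans ?_
    rw [Finset.sum_const, nsmul_eq_mul]
    refine mul_le_mul_of_nonneg_right ?_ hB0
    have := card_end n N
    calc ((((Finset.range N).filter (fun i => ¬ (n + 3 ≤ i ∧ i + n + 4 ≤ N))).card : ℕ) : ℝ)
        ≤ ((2 * n + 6 : ℕ) : ℝ) := by exact_mod_cast this
      _ = 2 * n + 6 := by push_cast; ring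
  have hRR : ∑ i ∈ Finset.range N, RR n σ t s lam i
      ≤ ∑ i ∈ Finset.range N, Z i + (2 * n + 6) * B := by
    rw [← Finset.sum_filter_add_sum_filter_not (Finset.range N)
      (fun i => n + 3 ≤ i ∧ i + n + 4 ≤ N)]
    exact add_le_add hint hends
  -- the potentials
  have hG0 : |GG n σ t s 0| ≤ B := by
    obtain ⟨a1, a2, -⟩ := hend 0 (by omega) (by omega)
    exact GG_end hσ hη hη1 a1 a2
  have hGN : |GG n σ t s N| ≤ B := by
    obtain ⟨a1, a2, -⟩ := hend N le_rfl (by omega)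
    exact GG_end hσ hη hη1 a1 a2
  have htel : ∑ i ∈ Finset.range N, (GG n σ t s (i + 1) - GG n σ t s i)
      = GG n σ t s N - GG n σ t s 0 := Finset.sum_range_sub _ _
  set L : ℝ := ∑ i ∈ Finset.range N, ∑ r ∈ Finset.range (n + 2), lam r i with hL
  have hsum : ((n : ℝ) + 3) * (kap σ * L) ≤ N * (((n : ℝ) + 2) * σ) + (2 * n + 8) * B := by
    have h1 : ((n : ℝ) + 3) * (kap σ * L)
        = ∑ i ∈ Finset.range N, ((n : ℝ) + 3) * (kap σ * ∑ r ∈ Finset.range (n + 2), lam r i) := by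
      rw [hL, Finset.mul_sum, Finset.mul_sum]
    have h2 : ∑ i ∈ Finset.range N, ((n : ℝ) + 3) * (kap σ * ∑ r ∈ Finset.range (n + 2), lam r i)
        ≤ ∑ i ∈ Finset.range N, (((n : ℝ) + 2) * σ + (GG n σ t s (i + 1) - GG n σ t s i)
          - Zc n σ t s lam i + RR n σ t s lam i) :=
      Finset.sum_le_sum fun i hi => column hσ hσ1 hρ1 h (Finset.mem_range.1 hi)
    have h3 : ∑ i ∈ Finset.range N, (((n : ℝ) + 2) * σ + (GG n σ t s (i + 1) - GG n σ t s i)
          - Zc n σ t s lam i + RR n σ t s lam i)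
        = N * (((n : ℝ) + 2) * σ) + (GG n σ t s N - GG n σ t s 0)
          - ∑ i ∈ Finset.range N, Z i + ∑ i ∈ Finset.range N, RR n σ t s lam i := by
      rw [Finset.sum_add_distrib, Finset.sum_sub_distrib, Finset.sum_add_distrib, htel,
        Finset.sum_const, Finset.card_range, nsmul_eq_mul]
    have g0 := abs_le.1 hG0
    have gN := abs_le.1 hGN
    rw [h1]
    refine h2.trans ?_
    rw [h3]
    linarith [g0.1, g0.2, gN.1, gN.2]
  -- division
  have hk : kap σ * (2 * (1 - ct σ)) = σ := kap_mul hσ hσ1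
  have h3 : (0 : ℝ) < (n : ℝ) + 3 := by linarith
  have hpos : 0 < ((n : ℝ) + 3) * kap σ := by positivity
  have hmain : ((n : ℝ) + 3) * kap σ * L
      ≤ ((n : ℝ) + 3) * kap σ * (2 * (1 - ct σ) * (n + 2) / (n + 3) * N + EE n * η) := by
    have e1 : ((n : ℝ) + 3) * kap σ * (2 * (1 - ct σ) * (n + 2) / (n + 3) * N + EE n * η)
        = N * (((n : ℝ) + 2) * σ) + ((n : ℝ) + 3) * kap σ * (EE n * η) := by
      have : ((n : ℝ) + 3) * kap σ * (2 * (1 - ct σ) * (n + 2) / (n + 3) * N)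
          = N * (((n : ℝ) + 2) * (kap σ * (2 * (1 - ct σ)))) := by
        field_simp
      rw [mul_add, this, hk]
    rw [e1]
    have e2 : (2 * (n : ℝ) + 8) * B ≤ ((n : ℝ) + 3) * kap σ * (EE n * η) := by
      have hq : η + η ^ 2 / σ = (σ * η + η * η) / σ := by field_simp
      have hq1 : η + η ^ 2 / σ ≤ η / σ := by
        rw [hq]
        refine div_le_div_of_nonneg_right ?_ hσ.le
        nlinarith
      have hB1 : B ≤ C2 n * (η / σ) := mul_le_mul_of_nonneg_left hq1 hC2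
      have hB2 : (2 * (n : ℝ) + 8) * B ≤ (2 * (n : ℝ) + 8) * (C2 n * (η / σ)) :=
        mul_le_mul_of_nonneg_left hB1 (by linarith)
      have hE : ((n : ℝ) + 3) * (1 / (2 * σ)) * (EE n * η) ≤ ((n : ℝ) + 3) * kap σ * (EE n * η) := by
        refine mul_le_mul_of_nonneg_right (mul_le_mul_of_nonneg_left hkap h3.le) ?_
        unfold EE; positivity
      refine hB2.trans (le_trans ?_ hE)
      have hC : (2 * (n : ℝ) + 8) * C2 n ≤ ((n : ℝ) + 3) * EE n / 2 := by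
        unfold C2 EE
        have a1 : 2 * (n : ℝ) + 8 ≤ 4 * (n + 3) := by linarith
        have a2 : 30 * ((n : ℝ) + 2) ^ 2 ≤ 30 * ((n : ℝ) + 3) ^ 3 := by
          have b1 : ((n : ℝ) + 2) ^ 2 ≤ ((n : ℝ) + 3) ^ 2 :=
            pow_le_pow_left₀ (by linarith) (by linarith) 2
          have b2 : ((n : ℝ) + 3) ^ 2 ≤ ((n : ℝ) + 3) ^ 3 :=
            pow_le_pow_right₀ (by linarith) (by norm_num)
          linarith
        calc (2 * (n : ℝ) + 8) * (30 * ((n : ℝ) + 2) ^ 2)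
            ≤ (4 * (n + 3)) * (30 * ((n : ℝ) + 3) ^ 3) :=
              mul_le_mul a1 a2 (by positivity) (by positivity)
          _ ≤ ((n : ℝ) + 3) * (600 * ((n : ℝ) + 3) ^ 3) / 2 := by
              have : 0 ≤ ((n : ℝ) + 3) * ((n : ℝ) + 3) ^ 3 := by positivity
              linarith
      calc (2 * (n : ℝ) + 8) * (C2 n * (η / σ)) = ((2 * (n : ℝ) + 8) * C2 n) * (η / σ) := by ring
        _ ≤ (((n : ℝ) + 3) * EE n / 2) * (η / σ) :=
            mul_le_mul_of_nonneg_right hC (by positivity)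
        _ = ((n : ℝ) + 3) * (1 / (2 * σ)) * (EE n * η) := by field_simp
    have e3 : ((n : ℝ) + 3) * kap σ * L = ((n : ℝ) + 3) * (kap σ * L) := by ring
    rw [e3]
    linarith
  exact le_of_mul_le_mul_left hmain hpos

end Pool.Agent.StripTwo
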