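import Pool.Agent.StripNear.CellLoss
import Pool.Agent.StripTwo.E10_Elastic
import Pool.Agent.StripTwo.Structure

/-! # Constants of the argument -/

namespace Pool.Agent.StripTwo

open Pool.Agent.StripNear

variable {X : Finset Pt} {n : ℕ}

/-- Molnar's factor per row. -/
noncomputable def mt (n : ℕ) (τ : ℝ) : ℝ := (n + 3) / (n + 1 + 2 * ct τ)

theorem ct_ge_half {τ : ℝ} (h0 : 0 < τ) (h1 : τ ≤ 1 / 32) : 1 / 2 ≤ ct τ := by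
  have := one_sub_ct_le h0 h1
  nlinarith

theorem mt_den_pos (n : ℕ) {τ : ℝ} (h0 : 0 < τ) (h1 : τ ≤ 1 / 32) :
    (0 : ℝ) < n + 1 + 2 * ct τ := by
  have h := ct_ge_half h0 h1
  have hn : (0 : ℝ) ≤ n := Nat.cast_nonneg n
  linarith

theorem one_le_mt (n : ℕ) {τ : ℝ} (h0 : 0 < τ) (h1 : τ ≤ 1 / 32) : 1 ≤ mt n τ := by
  have h := ct_le_one τ
  unfold mt
  rw [le_div_iff₀ (mt_den_pos n h0 h1)]
  linarith

theorem mt_le_two (n : ℕ) {τ : ℝ} (h0 : 0 < τ) (h1 : τ ≤ 1 / 32) : mt n τ ≤ 2 := by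
  have h := ct_ge_half h0 h1
  have hn : (0 : ℝ) ≤ n := Nat.cast_nonneg n
  unfold mt
  rw [div_le_iff₀ (mt_den_pos n h0 h1)]
  linarith

theorem SM_ge (n : ℕ) : 84000 ≤ SM n := by
  unfold SM
  have hn : (0 : ℝ) ≤ n := Nat.cast_nonneg n
  have h1 : (4 : ℝ) ≤ ((n : ℝ) + 2) ^ 2 := by nlinarith
  have h2 : (1 : ℝ) ≤ 3 ^ (n + 1) := one_le_pow₀ (by norm_num)
  have h3 : (7 : ℝ) ≤ 2 * n + 7 := by linarith
  have h4 : (4 : ℝ) * 1 ≤ ((n : ℝ) + 2) ^ 2 * 3 ^ (n + 1) :=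
    mul_le_mul h1 h2 (by norm_num) (by positivity)
  have h5 : (4 : ℝ) * 1 * 7 ≤ ((n : ℝ) + 2) ^ 2 * 3 ^ (n + 1) * (2 * n + 7) :=
    mul_le_mul h4 h3 (by norm_num) (by positivity)
  calc (84000 : ℝ) ≤ 4000 * (4 * 1 * 7) := by norm_num
    _ ≤ 4000 * (((n : ℝ) + 2) ^ 2 * 3 ^ (n + 1) * (2 * n + 7)) :=
        mul_le_mul_of_nonneg_left h5 (by norm_num)
    _ = _ := by ring

theorem SM_pos (n : ℕ) : 0 < SM n := by linarith [SM_ge n]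

theorem EE_pos (n : ℕ) : 0 < EE n := by
  unfold EE
  positivity

theorem EE_ge (n : ℕ) : 40 * ((n : ℝ) + 2) ^ 2 ≤ EE n := by
  unfold EE
  have hn : (0 : ℝ) ≤ n := Nat.cast_nonneg n
  have h1 : ((n : ℝ) + 2) ^ 2 ≤ (n + 3) ^ 2 := by nlinarith
  have h2 : ((n : ℝ) + 3) ^ 2 ≤ (n + 3) ^ 3 := by
    have : 0 ≤ ((n : ℝ) + 3) ^ 2 := by positivity
    nlinarith
  nlinarith [sq_nonneg ((n : ℝ) + 3)]

/-- The constants of the argument. -/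
structure Par2 (n : ℕ) (τ ρ η ε1 ε2 : ℝ) : Prop where
  hτ : 0 < τ
  hη : 0 < η
  hηρ : η ≤ ρ
  hsm : SM n * (4 * ρ + τ) ≤ 1
  hnρ : 100 * ((n : ℝ) + 3) * ρ ≤ 1
  hε2 : 0 < ε2
  hε : 4 * ε2 ≤ ε1
  hε1 : ε1 ≤ 1
  hcost : 16 * EE n * η ≤ ε1
  hτ2 : 1000 * ((n : ℝ) + 2) * win n * τ ≤ ε2
  good1 : ∀ X : Finset Pt, UnitSep X → InStrip (((n : ℝ) + 1) * h0 + 1 / 100) X → ∀ u : ℝ,
    T X n (u - win n) (u + win n) ≤ ε1 → Good X n ρ u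
  good2 : ∀ X : Finset Pt, UnitSep X → InStrip (((n : ℝ) + 1) * h0 + 1 / 100) X → ∀ u : ℝ,
    T X n (u - win n) (u + win n) ≤ ε2 → Good X n η u

theorem par_small {τ ρ η ε1 ε2 : ℝ} (P : Par2 n τ ρ η ε1 ε2) :
    η ≤ 1 / 1000 ∧ ρ ≤ 1 / 1000 ∧ τ ≤ 1 / 100 := by
  have h1 := P.hsm
  have h2 := SM_ge n
  have h4 := P.hη
  have h5 := P.hηρ
  have h6 := P.hτ
  have h7 : 0 < 4 * ρ + τ := by linarith
  have h8 : 84000 * (4 * ρ + τ) ≤ 1 := (mul_le_mul_of_nonneg_right h2 h7.le).trans h1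
  refine ⟨?_, ?_, ?_⟩ <;> linarith

theorem par_chain {τ ρ η ε1 ε2 : ℝ} (P : Par2 n τ ρ η ε1 ε2) {a : ℤ} {d : ℕ → Pt}
    (hd : IsChain X n η a d) {r : ℕ} (hr : r ≤ n + 1) :
    (a : ℝ) - 5 ≤ (d r).1 ∧ (d r).1 ≤ a + n + 7 ∧ |(d r).1 - (d 0).1| ≤ n + 2 := by
  obtain ⟨hη1, -, -⟩ := par_small P
  have h1 := abs_le.1 (chain_pos P.hη.le hd hr)
  have h2 := abs_le.1 hd.2.1
  have h3 : (0 : ℝ) ≤ r := Nat.cast_nonneg r
  have h4 : (r : ℝ) ≤ n + 1 := by exact_mod_cast hr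
  have h5 : (r : ℝ) * η ≤ r * (1 / 1000) := mul_le_mul_of_nonneg_left hη1 h3
  refine ⟨by linarith [h1.1, h2.1], by linarith [h1.2, h2.2], ?_⟩
  rw [abs_le]
  constructor <;> linarith [h1.1, h1.2]

theorem par_strip {τ : ℝ} (hτ : τ ≤ 1 / 100)
    (hH : InStrip (((n : ℝ) + 1) * h0 + τ) X) : InStrip (((n : ℝ) + 1) * h0 + 1 / 100) X := by
  intro p hp
  have := hH p hp
  exact ⟨this.1, by linarith [this.2]⟩

/-- Choice of the constants. -/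
theorem exists_par2 (n : ℕ) : ∃ τ0 > 0, ∃ ρ η ε1 ε2 : ℝ, ∀ τ : ℝ, 0 < τ → τ ≤ τ0 →
    Par2 n τ ρ η ε1 ε2 := by
  have hS := SM_pos n
  have hE := EE_pos n
  have hW : (0 : ℝ) < win n := by
    have : 0 < win n := by unfold win; omega
    exact_mod_cast this
  obtain ⟨ρ, hρ⟩ : ∃ ρ : ℝ, ρ = min (1 / (8 * SM n)) (1 / (100 * ((n : ℝ) + 3))) := ⟨_, rfl⟩
  have hρ0 : 0 < ρ := by rw [hρ]; exact lt_min (by positivity) (by positivity)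
  obtain ⟨e1, he1, hg1⟩ := good_of_T2 n hρ0
  obtain ⟨ε1, hε1⟩ : ∃ ε1 : ℝ, ε1 = min 1 e1 := ⟨_, rfl⟩
  have hε10 : 0 < ε1 := by rw [hε1]; exact lt_min one_pos he1
  obtain ⟨η, hη⟩ : ∃ η : ℝ, η = min ρ (ε1 / (16 * EE n)) := ⟨_, rfl⟩
  have hη0 : 0 < η := by rw [hη]; exact lt_min hρ0 (by positivity)
  obtain ⟨e2, he2, hg2⟩ := good_of_T2 n hη0
  obtain ⟨ε2, hε2⟩ : ∃ ε2 : ℝ, ε2 = min (ε1 / 4) e2 := ⟨_, rfl⟩
  have hε20 : 0 < ε2 := by rw [hε2]; exact lt_min (by positivity) he2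
  refine ⟨min (1 / (2 * SM n)) (ε2 / (1000 * ((n : ℝ) + 2) * win n)),
    lt_min (by positivity) (by positivity), ρ, η, ε1, ε2, fun τ hτ hτ1 => ?_⟩
  have hτa : τ ≤ 1 / (2 * SM n) := hτ1.trans (min_le_left _ _)
  have hτb : τ ≤ ε2 / (1000 * ((n : ℝ) + 2) * win n) := hτ1.trans (min_le_right _ _)
  refine ⟨hτ, hη0, ?_, ?_, ?_, hε20, ?_, ?_, ?_, ?_, ?_, ?_⟩
  · rw [hη]; exact min_le_left _ _
  · rw [le_div_iff₀ (by positivity)] at hτa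
    have h1 : ρ ≤ 1 / (8 * SM n) := by rw [hρ]; exact min_le_left _ _
    rw [le_div_iff₀ (by positivity)] at h1
    linarith
  · have h1 : ρ ≤ 1 / (100 * ((n : ℝ) + 3)) := by rw [hρ]; exact min_le_right _ _
    rw [le_div_iff₀ (by positivity)] at h1
    linarith
  · have : ε2 ≤ ε1 / 4 := by rw [hε2]; exact min_le_left _ _
    linarith
  · rw [hε1]; exact min_le_left _ _
  · have h1 : η ≤ ε1 / (16 * EE n) := by rw [hη]; exact min_le_right _ _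
    rw [le_div_iff₀ (by positivity)] at h1
    linarith
  · rw [le_div_iff₀ (by positivity)] at hτb
    linarith
  · intro X hX hH u hT
    exact hg1 X hX hH u (hT.trans (by rw [hε1]; exact min_le_right _ _))
  · intro X hX hH u hT
    exact hg2 X hX hH u (hT.trans (by rw [hε2]; exact min_le_right _ _))

end Pool.Agent.StripTwo
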