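import Pool.Agent.StripNear.ArrayExists
import Pool.Agent.StripTwo.E11_Array
import Pool.Agent.StripTwo.S1_Params

/-! # Elastic runs -/

namespace Pool.Agent.StripTwo

open Pool.Agent.StripNear

variable {X : Finset Pt} {n : ℕ}

private theorem run_array_mono {ρ : ℝ} {N K : ℕ} {P : ℕ → ℕ → Pt} (hP : IsArray X n ρ N P)
    (hK : K ≤ N) : IsArray X n ρ K P where
  mem r hr i hi := hP.mem r hr i (hi.trans hK)
  row r hr i hi := hP.row r hr i (hi.trans hK)
  east r hr i hi := hP.east r hr i (lt_of_lt_of_le hi hK)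
  ne r hr i hi := hP.ne r hr i (hi.trans hK)

/-- Length of the array. -/
private theorem run_exists_K {ρ A B : ℝ} (hρ : 0 ≤ ρ) (hρ1 : ρ ≤ 1 / 100)
    (hnρ : ((n : ℝ) + 2) * ρ ≤ 1 / 100) (h : ℕ → ℝ)
    (hstep : ∀ i, (∀ j ≤ i, h j ≤ B) → |h (i + 1) - h i - 1| ≤ ρ) (h0 : h 0 ≤ A + 5)
    (hAB : A + n + 18 ≤ B) :
    ∃ K : ℕ, A ≤ h K ∧ (∀ j ≤ n + 2, A + j * (1 - ρ) ≤ h (K + j) ∧
      h (K + j) ≤ A + 5 + j * (1 + ρ)) ∧ (∀ i, i < K + n + 2 → h i ≤ B) ∧
      (∀ i < K, h i < A) := by
  have hn : (0 : ℝ) ≤ n := Nat.cast_nonneg n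
  have hex : ∃ i, A ≤ h i := by
    by_contra hno
    push Not at hno
    have h1 : ∀ i : ℕ, h 0 + i * (1 - ρ) ≤ h i := by
      intro i
      induction i with
      | zero => simp
      | succ i ih =>
        have h2 := hstep i (fun j _ => by
          have := hno j
          linarith)
        have h3 := (abs_le.1 h2).1
        push_cast
        linarith
    obtain ⟨i, hi⟩ := exists_nat_gt ((A - h 0) / (1 - ρ))
    rw [div_lt_iff₀ (by linarith)] at hi
    have h4 := h1 i
    have h5 := hno i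
    linarith
  classical
  set K := Nat.find hex with hK
  have hKspec : A ≤ h K := Nat.find_spec hex
  have hlt : ∀ i < K, h i < A := by
    intro i hi
    have := Nat.find_min hex hi
    push Not at this
    exact this
  have hK5 : h K ≤ A + 5 := by
    rcases Nat.eq_zero_or_pos K with h6 | h6
    · rw [h6]
      exact h0
    · obtain ⟨k, hk⟩ : ∃ k, K = k + 1 := ⟨K - 1, by omega⟩
      have h7 := hstep k (fun j hj => by
        have := hlt j (by omega)
        linarith)
      have h8 := (abs_le.1 h7).2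
      have h9 := hlt k (by omega)
      rw [hk]
      linarith
  have hmain : ∀ j ≤ n + 2, ∀ i ≤ j, A + i * (1 - ρ) ≤ h (K + i) ∧
      h (K + i) ≤ A + 5 + i * (1 + ρ) := by
    intro j
    induction j with
    | zero =>
      intro _ i hi
      have : i = 0 := by omega
      subst this
      simp only [Nat.cast_zero, zero_mul, add_zero]
      exact ⟨hKspec, hK5⟩
    | succ j ih =>
      intro hj i hi
      have ih' := ih (by omega)
      rcases Nat.lt_or_ge i (j + 1) with h6 | h6
      · exact ih' i (by omega)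
      · have h7 : i = j + 1 := by omega
        subst h7
        have h8 : ∀ j' ≤ K + j, h j' ≤ B := by
          intro j' hj'
          rcases Nat.lt_or_ge j' K with h9 | h9
          · have := hlt j' h9
            linarith
          · obtain ⟨t, rfl⟩ : ∃ t, j' = K + t := ⟨j' - K, by omega⟩
            have h10 := (ih' t (by omega)).2
            have h11 : (t : ℝ) ≤ n + 1 := by
              have : t ≤ n + 1 := by omega
              exact_mod_cast this
            have h11' : (t : ℝ) * ρ ≤ ((n : ℝ) + 2) * ρ :=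
              mul_le_mul_of_nonneg_right (by linarith) hρ
            linarith
        have h12 := hstep (K + j) h8
        have h13 := ih' j le_rfl
        have h14 := abs_le.1 h12
        have h15 : K + (j + 1) = K + j + 1 := by omega
        rw [h15]
        push_cast
        constructor
        · linarith [h14.1, h13.1]
        · linarith [h14.2, h13.2]
  refine ⟨K, hKspec, fun j hj => hmain j hj j le_rfl, ?_, hlt⟩
  intro i hi
  rcases Nat.lt_or_ge i K with h9 | h9
  · have := hlt i h9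
    linarith
  · obtain ⟨t, rfl⟩ : ∃ t, i = K + t := ⟨i - K, by omega⟩
    have h10 := (hmain t (by omega) t le_rfl).2
    have h11 : (t : ℝ) ≤ n + 1 := by
      have : t ≤ n + 1 := by omega
      exact_mod_cast this
    have h11' : (t : ℝ) * ρ ≤ ((n : ℝ) + 2) * ρ :=
      mul_le_mul_of_nonneg_right (by linarith) hρ
    linarith

/-- Horizontal distances in the bottom row. -/
theorem run_row_dist {ρ : ℝ} {N : ℕ} {P : ℕ → ℕ → Pt} (hP : IsArray X n ρ N P) (i : ℕ) :
    ∀ j : ℕ, i + j ≤ N → |(P 0 (i + j)).1 - (P 0 i).1 - j| ≤ j * ρ := by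
  intro j
  induction j with
  | zero =>
    intro _
    simp
  | succ j ih =>
    intro hj
    have h1 := abs_le.1 (ih (by omega))
    have h2 := abs_le.1 (hP.east 0 (by omega) (i + j) (by omega)).1
    have e : i + (j + 1) = i + j + 1 := by omega
    rw [e, abs_le]
    push_cast
    constructor <;> linarith [h1.1, h1.2, h2.1, h2.2]

/-- Computation at the end of the run lemma. -/
theorem run_calc2 (n : ℕ) {τ η : ℝ} (hτ : 0 < τ) (hτ1 : τ ≤ 1 / 32) (hη : 0 ≤ η) (K : ℕ)
    {D : ℝ} (h : (K : ℝ) * (n + 2) - D ≤ 2 * (1 - ct τ) * (n + 2) / (n + 3) * K + EE n * η) :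
    (K : ℝ) * (n + 2) ≤ mt n τ * D + 2 * EE n * η := by
  have hn : (0 : ℝ) ≤ n := Nat.cast_nonneg n
  have hq := mt_den_pos n hτ hτ1
  have hE := EE_pos n
  have hmt : mt n τ * (n + 1 + 2 * ct τ) = n + 3 := by
    unfold mt
    exact div_mul_cancel₀ _ hq.ne'
  have hmt2 := mt_le_two n hτ hτ1
  have hmt1 := one_le_mt n hτ hτ1
  have h1 : 2 * (1 - ct τ) * ((n : ℝ) + 2) / (n + 3) * K
      = (K : ℝ) * (n + 2) - (K : ℝ) * (n + 2) * (n + 1 + 2 * ct τ) / (n + 3) := by
    have h3 : (n : ℝ) + 3 ≠ 0 := by positivity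
    field_simp
    ring
  rw [h1] at h
  have h2 : (K : ℝ) * (n + 2) * (n + 1 + 2 * ct τ) / (n + 3) ≤ D + EE n * η := by linarith
  have h3 : mt n τ * ((K : ℝ) * (n + 2) * (n + 1 + 2 * ct τ) / (n + 3)) = (K : ℝ) * (n + 2) := by
    have h4 : (n : ℝ) + 3 ≠ 0 := by positivity
    calc mt n τ * ((K : ℝ) * (n + 2) * (n + 1 + 2 * ct τ) / (n + 3))
        = (K : ℝ) * (n + 2) * (mt n τ * (n + 1 + 2 * ct τ)) / (n + 3) := by ring
      _ = (K : ℝ) * (n + 2) * (n + 3) / (n + 3) := by rw [hmt]
      _ = (K : ℝ) * (n + 2) := by field_simp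
  have h5 := mul_le_mul_of_nonneg_left h2 (by linarith : 0 ≤ mt n τ)
  rw [h3] at h5
  have h6 : mt n τ * (EE n * η) ≤ 2 * (EE n * η) :=
    mul_le_mul_of_nonneg_right hmt2 (by positivity)
  linarith

/-- The run lemma: between two almost perfect cells `a ≤ a'` with only good cells in between, a
chain at `a` can be moved to a chain at `a'`, and the number of points in between is at most
Molnar's bound. -/
theorem run2 (n : ℕ) {τ ρ η : ℝ} (hτ : 0 < τ) (hη : 0 < η) (hηρ : η ≤ ρ)
    (hsm : SM n * (4 * ρ + τ) ≤ 1) (hnρ3 : 100 * ((n : ℝ) + 3) * ρ ≤ 1) {X : Finset Pt}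
    (hX : UnitSep X) (hH : InStrip (((n : ℝ) + 1) * h0 + τ) X) {a a' : ℤ} (haa : a ≤ a')
    (hG : ∀ j : ℤ, a ≤ j → j ≤ a' → Good X n ρ j) (hGa : Good X n η a) (hGa' : Good X n η a')
    {c : ℕ → Pt} (hc : IsChain X n η a c) :
    ∃ d : ℕ → Pt, IsChain X n η a' d ∧ (∀ r ≤ n + 1, (c r).1 ≤ (d r).1) ∧
      ((StripNear.btw X (fun r => (c r).1) (fun r => (d r).1)).card : ℝ)
        ≤ mt n τ * (∑ r ∈ Finset.range (n + 2), ((d r).1 - (c r).1)) + 2 * EE n * η := by
  have hn : (0 : ℝ) ≤ n := Nat.cast_nonneg n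
  have hρ : 0 < ρ := hη.trans_le hηρ
  have hSM := SM_ge n
  have hsm' : 84000 * (4 * ρ + τ) ≤ 1 :=
    (mul_le_mul_of_nonneg_right hSM (by linarith)).trans hsm
  have hρ1 : ρ ≤ 1 / 100 := by linarith
  have hτ1 : τ ≤ 1 / 100 := by linarith
  have hη1 : η ≤ 1 / 100 := by linarith
  have hnρ : ((n : ℝ) + 2) * ρ ≤ 1 / 100 := by nlinarith
  have haaR : (a : ℝ) ≤ a' := by exact_mod_cast haa
  have hh0 := h0_gt
  have hLat := lat_of_good haa hG
  have hH' := par_strip hτ1 hH
  have hcρ : IsChain X n ρ a c := by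
    refine ⟨hc.1, hc.2.1, hc.2.2.1.trans hηρ, fun r hr => ?_⟩
    have := hc.2.2.2 r hr
    exact ⟨this.1.trans hηρ, this.2.trans hηρ⟩
  have hc0 := abs_le.1 hc.2.1
  obtain ⟨P, hP0, hPA⟩ := array_exists hX hρ.le hρ1 hLat hcρ (by linarith [hc0.1])
    (by linarith [hc0.2])
  -- the number of columns
  obtain ⟨K, hK1, hK2, hK3, hK4⟩ := run_exists_K (n := n) (A := (a' : ℝ))
    (B := (a' : ℝ) + (2 * n + 20) - (n + 2)) hρ.le hρ1 hnρ (fun i => (P 0 i).1)
    (fun i hi => by
      have h1 : IsArray X n ρ (i + 1) P := hPA (i + 1) (fun j hj => hi j (by omega))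
      exact (h1.east 0 (by omega) i (by omega)).1)
    (by
      have e : P 0 0 = c 0 := hP0 0 (by omega)
      show (P 0 0).1 ≤ (a' : ℝ) + 5
      rw [e]
      linarith [hc0.2])
    (by linarith)
  have hArr : IsArray X n ρ (K + n + 2) P := hPA (K + n + 2) hK3
  have hArrK : IsArray X n ρ K P := run_array_mono hArr (by omega)
  have hK20 := hK2 0 (by omega)
  simp only [Nat.cast_zero, zero_mul, add_zero] at hK20
  -- positions of the end columns
  have hposL : ∀ i, i ≤ n + 3 → i ≤ K → ∀ r ≤ n + 1, |(P r i).1 - a| ≤ 2 * n + 20 := by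
    intro i hi1 hi2 r hr
    have h1 := abs_le.1 (run_row_dist hArrK 0 i (by omega))
    have h2 := abs_le.1 (array_col hArrK hr hi2)
    rw [zero_add] at h1
    have e : P 0 0 = c 0 := hP0 0 (by omega)
    rw [e] at h1
    have hrR : (r : ℝ) ≤ n + 1 := by exact_mod_cast hr
    have hiR : (i : ℝ) ≤ n + 3 := by exact_mod_cast hi1
    have hr0 : (0 : ℝ) ≤ r := Nat.cast_nonneg r
    have hi0 : (0 : ℝ) ≤ i := Nat.cast_nonneg i
    have hrρ : (r : ℝ) * ρ ≤ 1 / 50 := by nlinarith
    have hiρ : (i : ℝ) * ρ ≤ 1 / 50 := by nlinarith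
    rw [abs_le]
    constructor <;> linarith [h1.1, h1.2, h2.1, h2.2, hc0.1, hc0.2]
  have hposR : ∀ i, K ≤ i + (n + 3) → i ≤ K → ∀ r ≤ n + 1, |(P r i).1 - a'| ≤ 2 * n + 20 := by
    intro i hi1 hi2 r hr
    obtain ⟨j, hj⟩ : ∃ j, K = i + j := ⟨K - i, by omega⟩
    have hj3 : j ≤ n + 3 := by omega
    have h1 := abs_le.1 (run_row_dist hArrK i j (by omega))
    have h2 := abs_le.1 (array_col hArrK hr hi2)
    rw [← hj] at h1
    have hrR : (r : ℝ) ≤ n + 1 := by exact_mod_cast hr
    have hjR : (j : ℝ) ≤ n + 3 := by exact_mod_cast hj3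
    have hr0 : (0 : ℝ) ≤ r := Nat.cast_nonneg r
    have hj0 : (0 : ℝ) ≤ j := Nat.cast_nonneg j
    have hrρ : (r : ℝ) * ρ ≤ 1 / 50 := by nlinarith
    have hjρ : (j : ℝ) * ρ ≤ 1 / 50 := by nlinarith
    rw [abs_le]
    constructor <;> linarith [h1.1, h1.2, h2.1, h2.2, hK20.1, hK20.2]
  have hend : ∀ i ≤ K, (i ≤ n + 3 ∨ K ≤ i + (n + 3)) → ∀ r ≤ n + 1,
      |(P r i).2 - r * h0| ≤ η ∧ (r ≤ n → Near η (P r i) (1 / 2) h0 (P (r + 1) i)) ∧
      (i < K + n + 2 → Near η (P r i) 1 0 (P r (i + 1))) := by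
    intro i hi h r hr
    rcases h with h | h
    · exact end_row hX hρ.le hρ1 hη.le hη1 hArr hGa hr (by omega) (hposL i h hi r hr)
    · exact end_row hX hρ.le hρ1 hη.le hη1 hArr hGa' hr (by omega) (hposR i h hi r hr)
  -- elastic lemma
  have hQ := q2_of_array hX hρ.le hρ1 hH hArrK
  have hel := elastic2 (n := n) (N := K) (σ := τ) (ρ := ρ) (η := η) hτ hη.le hηρ
    (by
      have h1 : SM n * (τ + ρ) ≤ SM n * (4 * ρ + τ) :=
        mul_le_mul_of_nonneg_left (by linarith) (by linarith)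
      linarith) hQ
    (fun i hi h => ⟨fun r hr => (hend i hi h r hr).1,
      fun r hr => by
        have h1 := ((hend i hi h r (by omega)).2.1 hr).1
        exact h1,
      fun hiK r hr => by
        have h1 := ((hend i hi h r hr).2.2 (by omega)).1
        show |1 - ((P r (i + 1)).1 - (P r i).1)| ≤ η
        rw [abs_sub_comm]
        exact h1⟩)
  have hsum : ∑ i ∈ Finset.range K, ∑ r ∈ Finset.range (n + 2), (1 - ((P r (i + 1)).1 - (P r i).1))
      = (K : ℝ) * (n + 2) - ∑ r ∈ Finset.range (n + 2), ((P r K).1 - (c r).1) := by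
    rw [Finset.sum_comm]
    have h1 : ∀ r ∈ Finset.range (n + 2),
        ∑ i ∈ Finset.range K, (1 - ((P r (i + 1)).1 - (P r i).1)) = K - ((P r K).1 - (c r).1) := by
      intro r hr
      rw [Finset.sum_sub_distrib, Finset.sum_range_sub (fun i => (P r i).1), Finset.sum_const,
        Finset.card_range, nsmul_eq_mul, mul_one, hP0 r (by have := Finset.mem_range.1 hr; omega)]
    rw [Finset.sum_congr rfl h1, Finset.sum_sub_distrib, Finset.sum_const, Finset.card_range,
      nsmul_eq_mul]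
    push_cast
    ring
  rw [hsum] at hel
  have hd : IsChain X n η a' (fun r => P r K) := by
    refine ⟨fun r hr => hArrK.mem r hr K le_rfl, ?_, ?_,
      fun r hr => (hend K le_rfl (Or.inr (by omega)) r (by omega)).2.1 hr⟩
    · rw [abs_le]
      constructor
      · linarith [hK20.1]
      · linarith [hK20.2]
    · have h1 := (hend K le_rfl (Or.inr (by omega)) 0 (by omega)).1
      simpa using h1
  have hbtw : StripNear.btw X (fun r => (c r).1) (fun r => (P r K).1) =
      StripNear.btw X (fun r => (P r 0).1) (fun r => (P r K).1) := by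
    unfold StripNear.btw
    refine Finset.filter_congr ?_
    intro p hp
    have h1 : band p ≤ n + 1 := band_le2 (hH' p hp).1 (hH' p hp).2
    show (c (band p)).1 ≤ p.1 ∧ p.1 < (P (band p) K).1 ↔
      (P (band p) 0).1 ≤ p.1 ∧ p.1 < (P (band p) K).1
    rw [hP0 (band p) h1]
  refine ⟨fun r => P r K, hd, ?_, ?_⟩
  · intro r hr
    have h1 : ∀ i ≤ K, (P r 0).1 ≤ (P r i).1 := by
      intro i
      induction i with
      | zero => intro _; exact le_rfl
      | succ i ih =>
        intro hi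
        have h2 := ih (by omega)
        have h3 := (abs_le.1 (hArrK.east r hr i (by omega)).1).1
        linarith
    have h2 := h1 K le_rfl
    rw [hP0 r hr] at h2
    exact h2
  · have hcard := count_array2 hX hρ.le hρ1 hH' hLat hArrK
      (fun r hr => by
        have h1 := abs_le.1 (array_col hArrK hr (Nat.zero_le K))
        have hrR : (r : ℝ) ≤ n + 1 := by exact_mod_cast hr
        have hr0 : (0 : ℝ) ≤ r := Nat.cast_nonneg r
        have hrρ : (r : ℝ) * ρ ≤ 1 / 100 := by nlinarith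
        have h2 : (P 0 0).1 = (c 0).1 := by rw [hP0 0 (by omega)]
        linarith [h1.1, hc0.1])
      (fun r hr => by
        have h1 := abs_le.1 (hposR K (by omega) le_rfl r hr)
        linarith [h1.2])
    have hcard' : ((StripNear.btw X (fun r => (P r 0).1) (fun r => (P r K).1)).card : ℝ) ≤
        (K : ℝ) * (n + 2) := by
      have : ((StripNear.btw X (fun r => (P r 0).1) (fun r => (P r K).1)).card : ℝ) ≤
          ((K * (n + 2) : ℕ) : ℝ) := by exact_mod_cast hcard
      push_cast at this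
      exact this
    show ((StripNear.btw X (fun r => (c r).1) (fun r => (P r K).1)).card : ℝ) ≤ _
    rw [hbtw]
    exact hcard'.trans (run_calc2 n hτ (by linarith) hη.le K hel)

end Pool.Agent.StripTwo
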