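import Pool.Agent.StripTwo.Accounting
import Pool.Agent.StripTwo.S1_Params

/-! # Defects: a bad cell pays for the two cuts around it -/

namespace Pool.Agent.StripTwo

open Pool.Agent.StripNear

variable {X : Finset Pt} {n : ℕ}

/-- The defect lemma. -/
theorem defect2 {τ ρ η ε1 ε2 : ℝ} (P : Par2 n τ ρ η ε1 ε2) (hX : UnitSep X)
    (hH : InStrip (((n : ℝ) + 1) * h0 + τ) X) {a b b' : ℤ} (hab : a < b) (hbb : b < b')
    (hbad : ε1 < Tw X n b) (hVa : Tw X n a ≤ ε2) (hVb : Tw X n b' ≤ ε2)
    (hnon : ∀ j : ℤ, a < j → j < b' → ε2 < Tw X n j) {d e : ℕ → Pt}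
    (hd : IsChain X n η a d) (he : IsChain X n η b' e) :
    (∀ r ≤ n + 1, (d r).1 ≤ (e r).1) ∧
    ((StripNear.btw X (fun r => (d r).1) (fun r => (e r).1)).card : ℝ)
      ≤ mt n τ * (∑ r ∈ Finset.range (n + 2), ((e r).1 - (d r).1)) - 2 * EE n * η := by
  obtain ⟨hη1, hρ1, hτ1⟩ := par_small P
  have hη := P.hη
  have hτ := P.hτ
  have hε2 := P.hε2
  have hε := P.hε
  have hH' := par_strip hτ1 hH
  have hGa : Good X n η a := P.good2 X hX hH' a hVa
  have hGb : Good X n η b' := P.good2 X hX hH' b' hVb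
  have hn : (0 : ℝ) ≤ n := Nat.cast_nonneg n
  have hWr : (win n : ℝ) = 12 * n + 60 := by unfold win; push_cast; ring
  have hW0 : (0 : ℝ) < win n := by rw [hWr]; linarith
  have habr : (a : ℝ) < b := by exact_mod_cast hab
  have hbbr : (b : ℝ) < b' := by exact_mod_cast hbb
  -- the two windows are far apart
  have hfar : (a : ℝ) + 2 * win n < b' := by
    by_contra hcon
    rw [not_lt] at hcon
    have h1 : Tw X n b ≤ T X n ((a : ℝ) - win n) ((b' : ℝ) + win n) := by
      unfold Tw
      exact T_mono hX (by linarith) (by linarith)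
    have h2 := T_add X n (α := (a : ℝ) - win n) (β := (a : ℝ) + win n) (γ := (b' : ℝ) + win n)
      (by linarith) (by linarith)
    have h3 : T X n ((a : ℝ) + win n) ((b' : ℝ) + win n) ≤ Tw X n b' := by
      unfold Tw
      exact T_mono hX (by linarith) le_rfl
    have h4 : T X n ((a : ℝ) - win n) ((a : ℝ) + win n) ≤ ε2 := hVa
    linarith
  set α : ℝ := (a : ℝ) + n + 7 with hα
  set β : ℝ := (b' : ℝ) - 5 with hβ
  have hαβ : α ≤ β := by
    rw [hα, hβ]
    linarith
  have hda : ∀ r ≤ n + 1, (d r).1 ≤ α := fun r hr => (par_chain P hd hr).2.1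
  have heb : ∀ r ≤ n + 1, β ≤ (e r).1 := fun r hr => (par_chain P he hr).1
  have hde : ∀ r ≤ n + 1, (d r).1 ≤ (e r).1 := fun r hr =>
    (hda r hr).trans (hαβ.trans (heb r hr))
  refine ⟨hde, ?_⟩
  -- the loss between the cuts
  have hT1 : ε1 / 2 ≤ T X n α β := by
    have h1 : Tw X n b ≤ T X n ((a : ℝ) - win n) ((b' : ℝ) + win n) := by
      unfold Tw
      exact T_mono hX (by linarith) (by linarith)
    have h2 := T_add X n (α := (a : ℝ) - win n) (β := α) (γ := (b' : ℝ) + win n)
      (by rw [hα]; linarith) (by rw [hα]; linarith)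
    have h3 := T_add X n (α := α) (β := β) (γ := (b' : ℝ) + win n) hαβ (by rw [hβ]; linarith)
    have h4 : T X n ((a : ℝ) - win n) α ≤ Tw X n a := by
      unfold Tw
      exact T_mono hX le_rfl (by rw [hα]; linarith)
    have h5 : T X n β ((b' : ℝ) + win n) ≤ Tw X n b' := by
      unfold Tw
      exact T_mono hX (by rw [hβ]; linarith) le_rfl
    linarith
  set m : ℕ := (b' - a - n - 12 - 2 * win n).toNat with hm
  have hmr : (b' : ℝ) - a - n - 12 - 2 * win n ≤ m := by
    have h1 : b' - a - n - 12 - 2 * win n ≤ (m : ℤ) := Int.self_le_toNat _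
    exact_mod_cast h1
  have hT2 : ε2 * m / (2 * win n) ≤ T X n α β := by
    rcases Nat.eq_zero_or_pos m with h0 | h0
    · rw [h0]
      simp only [Nat.cast_zero, mul_zero, zero_div]
      exact T_nonneg hX n α β
    · have h1 : (m : ℤ) = b' - a - n - 12 - 2 * win n := by
        rw [hm]
        exact Int.toNat_of_nonneg (by omega)
      have h1r : (m : ℝ) = b' - a - n - 12 - 2 * win n := by exact_mod_cast h1
      have h2 := loss_of_not_perfect (n := n) hX hε2 (a + n + 7 + win n) m (by
        intro j hj1 hj2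
        exact hnon j (by omega) (by omega))
      refine h2.trans (T_mono hX ?_ ?_)
      · rw [hα]
        push_cast
        linarith
      · rw [hβ]
        push_cast
        linarith
  have acc := accounting2 hX hτ hτ1 hH (η := 2 * η) (by linarith) (by linarith)
    (fun r => (d r).1) (fun r => (e r).1) hde (fun r hr => (par_chain P hd hr).2.2)
    (fun r hr => (par_chain P he hr).2.2)
    (chain_left2 hX hH' hη.le (by linarith) le_rfl hGa hd)
    (chain_right2 hX hH' hη.le (by linarith) le_rfl hGb he) hαβ hda heb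
  set S := ∑ r ∈ Finset.range (n + 2), ((e r).1 - (d r).1) with hS
  have hS0 : 0 ≤ S := by
    refine Finset.sum_nonneg fun r hr => ?_
    rw [Finset.mem_range] at hr
    linarith [hde r (by omega)]
  have hmt : S ≤ mt n τ * S := by
    have := one_le_mt n hτ (by linarith)
    nlinarith
  have hlen : (e 0).1 - (d 0).1 + (2 * n + 6) ≤ m + 4 * win n := by
    have h1 := (par_chain P hd (r := 0) (by omega)).1
    have h2 := (par_chain P he (r := 0) (by omega)).2.1
    linarith
  have h4 := P.hτ2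
  have hm0 : (0 : ℝ) ≤ m := Nat.cast_nonneg m
  -- 3 τ m ≤ (1/125) T
  have h3 : 3 * τ * m ≤ (1 / 125) * T X n α β := by
    have h5 : 3 * τ * m ≤ (1 / 125) * (ε2 * m / (2 * win n)) := by
      rw [← mul_div_assoc, le_div_iff₀ (by linarith)]
      have h6 := mul_le_mul_of_nonneg_right h4 hm0
      have h7 : 0 ≤ (n : ℝ) * win n * τ * m := by positivity
      nlinarith
    refine h5.trans (mul_le_mul_of_nonneg_left hT2 (by norm_num))
  have h5 : 3 * τ * (4 * win n) ≤ (3 / 250) * ε2 := by
    have h7 : 0 ≤ (n : ℝ) * win n * τ := by positivity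
    nlinarith
  have h6 : 3 * τ * ((e 0).1 - (d 0).1 + (2 * n + 6)) ≤ 3 * τ * (m + 4 * win n) :=
    mul_le_mul_of_nonneg_left hlen (by linarith)
  have hcost := P.hcost
  have hEE := EE_ge n
  have h7 : 40 * ((n : ℝ) + 2) ^ 2 * η ≤ EE n * η := mul_le_mul_of_nonneg_right hEE hη.le
  have h10 : 20 * ((n : ℝ) + 2) ^ 2 * (2 * η) = 40 * ((n : ℝ) + 2) ^ 2 * η := by ring
  rw [h10] at acc
  have h11 : 16 * EE n * η = 16 * (EE n * η) := by ring
  have h12 : 2 * EE n * η = 2 * (EE n * η) := by ring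
  rw [h11] at hcost
  rw [h12]
  have h13 : 0 ≤ EE n * η := mul_nonneg (EE_pos n).le hη.le
  linarith

end Pool.Agent.StripTwo
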