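import Pool.Agent.StripTwo.Accounting
import Pool.Agent.StripTwo.S1_Params

/-! # The parts of the strip before the first and after the last perfect cell -/

namespace Pool.Agent.StripTwo

open Pool.Agent.StripNear

variable {X : Finset Pt} {n : ℕ}

private theorem Parts_win_pos (n : ℕ) : (0 : ℝ) < win n := by
  have : 0 < win n := by unfold win; omega
  exact_mod_cast this

/-- the window loss of a run of cells which are not almost perfect -/
private theorem Parts_T (hX : UnitSep X) {ε2 : ℝ} (hε : 0 < ε2) (A : ℤ) {α β : ℝ}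
    (hα : α ≤ A) (m : ℕ) (hm : m = 0 ∨ (A : ℝ) + 2 * win n + m ≤ β)
    (h : ∀ j : ℤ, A + win n ≤ j → j < A + win n + m → ε2 < Tw X n j) :
    ε2 * m / (2 * win n) ≤ T X n α β := by
  rcases hm with h0 | h0
  · rw [h0]
    simp only [Nat.cast_zero, mul_zero, zero_div]
    exact T_nonneg hX n α β
  · refine (loss_of_not_perfect hX hε (A + win n) m h).trans ?_
    refine T_mono hX ?_ ?_
    · push_cast
      linarith
    · push_cast
      linarith

private theorem Parts_core {τ ρ η ε1 ε2 : ℝ} (P : Par2 n τ ρ η ε1 ε2) (hX : UnitSep X)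
    (hH : InStrip (((n : ℝ) + 1) * h0 + τ) X) (c d : ℕ → ℝ) (hcd : ∀ r ≤ n + 1, c r ≤ d r)
    (sc : ∀ r ≤ n + 1, |c r - c 0| ≤ n + 2) (sd : ∀ r ≤ n + 1, |d r - d 0| ≤ n + 2)
    (hL : LeftOK X n (2 * η) c) (hR : RightOK X n (2 * η) d) {α β : ℝ} (hαβ : α ≤ β)
    (hα : ∀ r ≤ n + 1, c r ≤ α) (hβ : ∀ r ≤ n + 1, β ≤ d r) (m : ℕ)
    (hD : ∀ r ≤ n + 1, d r - c r ≤ m + n + 13 + 2 * win n)
    (hT : ε2 * m / (2 * win n) ≤ T X n α β) :
    ((StripNear.btw X c d).card : ℝ) ≤ mt n τ * (∑ r ∈ Finset.range (n + 2), (d r - c r)) +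
      (3 * τ * (3 * n + 19 + 2 * win n) + 40 * (n + 2) ^ 2 * η) := by
  obtain ⟨hη1, hρ1, hτ1⟩ := par_small P
  have hη := P.hη
  have hτ := P.hτ
  have hW := Parts_win_pos n
  have hn : (0 : ℝ) ≤ n := Nat.cast_nonneg n
  have acc := accounting2 hX hτ hτ1 hH (η := 2 * η) (by linarith) (by linarith) c d hcd sc sd hL hR
    hαβ hα hβ
  set S := ∑ r ∈ Finset.range (n + 2), (d r - c r) with hS
  have hS0 : 0 ≤ S := by
    refine Finset.sum_nonneg fun r hr => ?_
    rw [Finset.mem_range] at hr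
    linarith [hcd r (by omega)]
  have hmt : S ≤ mt n τ * S := by
    have := one_le_mt n hτ (by linarith)
    nlinarith
  have h2 : 3 * τ * ((d 0 - c 0) + (2 * n + 6)) ≤ 3 * τ * (m + (3 * n + 19 + 2 * win n)) :=
    mul_le_mul_of_nonneg_left (by linarith [hD 0 (by omega)]) (by linarith)
  have h3 : 3 * τ * m ≤ ε2 * m / (2 * win n) := by
    rw [le_div_iff₀ (by linarith)]
    have h4 := P.hτ2
    have h5 : (0 : ℝ) ≤ m := Nat.cast_nonneg m
    have h6 : 0 ≤ (n : ℝ) * win n * τ := by positivity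
    have h7 : 0 ≤ (win n : ℝ) * τ := by positivity
    have h8 : 6 * ((win n : ℝ) * τ) ≤ ε2 := by linarith
    have h9 := mul_le_mul_of_nonneg_right h8 h5
    linarith
  have h10 : 20 * ((n : ℝ) + 2) ^ 2 * (2 * η) = 40 * (n + 2) ^ 2 * η := by ring
  rw [h10] at acc
  linarith

private theorem Parts_const_nonneg (n : ℕ) {τ ρ η ε1 ε2 : ℝ} (P : Par2 n τ ρ η ε1 ε2) :
    0 ≤ 3 * τ * (3 * (n : ℝ) + 19 + 2 * win n) + 40 * (n + 2) ^ 2 * η := by
  have hη := P.hη
  have hτ := P.hτ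
  positivity

private theorem Parts_floor {x : ℝ} : ((⌊x⌋₊ : ℕ) = 0 ∨ ((⌊x⌋₊ : ℕ) : ℝ) ≤ x) ∧
    x < (⌊x⌋₊ : ℝ) + 1 := by
  refine ⟨?_, Nat.lt_floor_add_one x⟩
  rcases le_or_gt 0 x with h | h
  · exact Or.inr (Nat.floor_le h)
  · exact Or.inl (Nat.floor_of_nonpos h.le)

/-- The last part: no almost perfect cell after `a`. -/
theorem last_part2 (n : ℕ) {τ ρ η ε1 ε2 : ℝ} (P : Par2 n τ ρ η ε1 ε2) : ∃ C : ℝ, 0 ≤ C ∧
    ∀ X : Finset Pt, UnitSep X → InStrip (((n : ℝ) + 1) * h0 + τ) X → ∀ L : ℝ, 0 ≤ L →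
    (∀ p ∈ X, 0 ≤ p.1 ∧ p.1 ≤ L) → ∀ a : ℤ, Tw X n a ≤ ε2 → (∀ j : ℤ, a < j → ε2 < Tw X n j) →
    ∀ d : ℕ → Pt, IsChain X n η a d →
    ((rgt X (fun r => (d r).1)).card : ℝ)
      ≤ mt n τ * (∑ r ∈ Finset.range (n + 2), (L + 2 - (d r).1)) + C := by
  refine ⟨_, Parts_const_nonneg n P, ?_⟩
  intro X hX hH L hL hXL a ha hj d hd
  obtain ⟨hη1, hρ1, hτ1⟩ := par_small P
  have hη := P.hη
  have hH' := par_strip hτ1 hH
  have hG : Good X n η a := P.good2 X hX hH' a ha
  have hW := Parts_win_pos n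
  have hn : (0 : ℝ) ≤ n := Nat.cast_nonneg n
  have hbtw : rgt X (fun r => (d r).1) = StripNear.btw X (fun r => (d r).1) (fun _ => L + 2) := by
    classical
    unfold rgt StripNear.btw
    refine Finset.filter_congr fun p hp => ?_
    have := (hXL p hp).2
    constructor
    · intro h
      exact ⟨h, by linarith⟩
    · exact fun h => h.1
  have hdL : ∀ r ≤ n + 1, (d r).1 ≤ L := fun r hr => (hXL _ (hd.1 r hr)).2
  rw [hbtw]
  set A : ℤ := a + n + 7 with hA
  have hAr : (A : ℝ) = a + n + 7 := by rw [hA]; push_cast; ring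
  obtain ⟨hf1, hf2⟩ := Parts_floor (x := L + 2 - A - 2 * win n)
  set m : ℕ := ⌊L + 2 - A - 2 * win n⌋₊ with hm
  refine Parts_core P hX hH (fun r => (d r).1) (fun _ => L + 2) ?_ ?_ ?_ ?_ ?_
    (α := min (A : ℝ) (L + 2)) (β := L + 2) (min_le_right _ _) ?_ ?_ m ?_ ?_
  · intro r hr
    linarith [hdL r hr]
  · intro r hr
    exact (par_chain P hd hr).2.2
  · intro r _
    simp only [sub_self, abs_zero]
    linarith
  · exact chain_left2 hX hH' hη.le (by linarith) le_rfl hG hd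
  · intro j _ b _ _ p hp _ _ _
    have h1 := (hXL p hp).2
    have h2 := xn_le_two X p b
    linarith
  · intro r hr
    refine le_min ?_ ?_
    · rw [hAr]
      exact (par_chain P hd hr).2.1
    · linarith [hdL r hr]
  · intro r _
    exact le_rfl
  · intro r hr
    have h1 := (par_chain P hd hr).1
    rw [hAr] at hf2
    linarith
  · refine Parts_T hX P.hε2 A (min_le_left _ _) m ?_ ?_
    · rcases hf1 with h | h
      · exact Or.inl h
      · exact Or.inr (by linarith)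
    · intro j hj1 _
      refine hj j ?_
      have : (0 : ℤ) ≤ (n : ℤ) := Int.natCast_nonneg n
      have h2 : (0 : ℤ) ≤ (win n : ℤ) := Int.natCast_nonneg _
      omega

/-- The first part: no almost perfect cell before `a`. -/
theorem first_part2 (n : ℕ) {τ ρ η ε1 ε2 : ℝ} (P : Par2 n τ ρ η ε1 ε2) : ∃ C : ℝ, 0 ≤ C ∧
    ∀ X : Finset Pt, UnitSep X → InStrip (((n : ℝ) + 1) * h0 + τ) X → ∀ L : ℝ, 0 ≤ L →
    (∀ p ∈ X, 0 ≤ p.1 ∧ p.1 ≤ L) → ∀ a : ℤ, Tw X n a ≤ ε2 → (∀ j : ℤ, j < a → ε2 < Tw X n j) →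
    ∀ d : ℕ → Pt, IsChain X n η a d →
    ((StripNear.btw X (fun _ => 0) (fun r => (d r).1)).card : ℝ)
      ≤ mt n τ * (∑ r ∈ Finset.range (n + 2), (d r).1) + C := by
  refine ⟨_, Parts_const_nonneg n P, ?_⟩
  intro X hX hH L hL hXL a ha hj d hd
  obtain ⟨hη1, hρ1, hτ1⟩ := par_small P
  have hη := P.hη
  have hH' := par_strip hτ1 hH
  have hG : Good X n η a := P.good2 X hX hH' a ha
  have hW := Parts_win_pos n
  have hn : (0 : ℝ) ≤ n := Nat.cast_nonneg n
  have hd0 : ∀ r ≤ n + 1, 0 ≤ (d r).1 := fun r hr => (hXL _ (hd.1 r hr)).1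
  obtain ⟨hf1, hf2⟩ := Parts_floor (x := (a : ℝ) - 5 - 2 * win n)
  set m : ℕ := ⌊(a : ℝ) - 5 - 2 * win n⌋₊ with hm
  have hmain := Parts_core P hX hH (fun _ => 0) (fun r => (d r).1) (α := 0)
    (β := max 0 ((a : ℝ) - 5)) hd0 ?_ ?_ ?_ ?_ (le_max_left _ _) ?_ ?_ m ?_ ?_
  · simpa only [sub_zero] using hmain
  · intro r _
    simp only [sub_self, abs_zero]
    linarith
  · intro r hr
    exact (par_chain P hd hr).2.2
  · intro j _ b _ _ p hp _ _ _
    exact (hXL p hp).1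
  · exact chain_right2 hX hH' hη.le (by linarith) le_rfl hG hd
  · intro r _
    exact le_rfl
  · intro r hr
    exact max_le (hd0 r hr) (par_chain P hd hr).1
  · intro r hr
    have h1 := (par_chain P hd hr).2.1
    simp only [sub_zero]
    linarith
  · refine Parts_T hX P.hε2 0 (by simp) m ?_ ?_
    · rcases hf1 with h | h
      · exact Or.inl h
      · refine Or.inr ?_
        push_cast
        refine le_trans ?_ (le_max_right _ _)
        linarith
    · intro j _ hj2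
      refine hj j ?_
      rcases hf1 with h | h
      · exfalso
        rw [h] at hj2
        push_cast at hj2
        omega
      · have h1 : (j : ℝ) < 0 + win n + m := by exact_mod_cast hj2
        have h2 : (j : ℝ) < a := by linarith
        exact_mod_cast h2

/-- No almost perfect cell at all. -/
theorem no_part2 (n : ℕ) {τ ρ η ε1 ε2 : ℝ} (P : Par2 n τ ρ η ε1 ε2) : ∃ C : ℝ, 0 ≤ C ∧
    ∀ X : Finset Pt, UnitSep X → InStrip (((n : ℝ) + 1) * h0 + τ) X → ∀ L : ℝ, 0 ≤ L →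
    (∀ p ∈ X, 0 ≤ p.1 ∧ p.1 ≤ L) → (∀ j : ℤ, ε2 < Tw X n j) →
    (X.card : ℝ) ≤ mt n τ * ((n + 2) * (L + 2)) + C := by
  refine ⟨_, Parts_const_nonneg n P, ?_⟩
  intro X hX hH L hL hXL hj
  obtain ⟨hη1, hρ1, hτ1⟩ := par_small P
  have hη := P.hη
  have hW := Parts_win_pos n
  have hn : (0 : ℝ) ≤ n := Nat.cast_nonneg n
  have hbtw : X = StripNear.btw X (fun _ => 0) (fun _ => L + 2) := by
    classical
    unfold StripNear.btw
    refine (Finset.filter_true_of_mem fun p hp => ?_).symm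
    have h1 := hXL p hp
    exact ⟨h1.1, by linarith [h1.2]⟩
  obtain ⟨hf1, hf2⟩ := Parts_floor (x := L + 2 - 2 * win n)
  set m : ℕ := ⌊L + 2 - 2 * win n⌋₊ with hm
  have hmain := Parts_core P hX hH (fun _ => 0) (fun _ => L + 2) (α := 0)
    (β := L + 2) (fun r _ => by linarith) ?_ ?_ ?_ ?_ (by linarith) ?_ ?_ m ?_ ?_
  · rw [← hbtw] at hmain
    have h1 : ∑ r ∈ Finset.range (n + 2), (L + 2 - 0) = (n + 2) * (L + 2) := by
      rw [Finset.sum_const, Finset.card_range, nsmul_eq_mul]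
      push_cast
      ring
    rw [h1] at hmain
    exact hmain
  · intro r _
    simp only [sub_self, abs_zero]
    linarith
  · intro r _
    simp only [sub_self, abs_zero]
    linarith
  · intro j _ b _ _ p hp _ _ _
    exact (hXL p hp).1
  · intro j _ b _ _ p hp _ _ _
    have h1 := (hXL p hp).2
    have h2 := xn_le_two X p b
    linarith
  · intro r _
    exact le_rfl
  · intro r _
    exact le_rfl
  · intro r _
    linarith
  · refine Parts_T hX P.hε2 0 (by simp) m ?_ (fun j _ _ => hj j)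
    rcases hf1 with h | h
    · exact Or.inl h
    · refine Or.inr ?_
      push_cast
      linarith

end Pool.Agent.StripTwo
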