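import Pool.Agent.StripNear.RightCount
import Pool.Agent.StripTwo.S2_Run
import Pool.Agent.StripTwo.S3_Defect
import Pool.Agent.StripTwo.S4_Parts

/-! # Counting from the right, global counting -/

namespace Pool.Agent.StripTwo

open Pool.Agent.StripNear

variable {X : Finset Pt} {n : ℕ}

/-- Main induction, from the right to the left. -/
theorem right_count2 (n : ℕ) {τ ρ η ε1 ε2 : ℝ} (P : Par2 n τ ρ η ε1 ε2) : ∃ C : ℝ, 0 ≤ C ∧
    ∀ X : Finset Pt, UnitSep X → InStrip (((n : ℝ) + 1) * h0 + τ) X → ∀ L : ℝ, 0 ≤ L →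
    (∀ p ∈ X, 0 ≤ p.1 ∧ p.1 ≤ L) → ∀ a : ℤ, Tw X n a ≤ ε2 →
    ∀ c : ℕ → Pt, IsChain X n η a c →
    ((rgt X (fun r => (c r).1)).card : ℝ)
      ≤ mt n τ * (∑ r ∈ Finset.range (n + 2), (L + 2 - (c r).1)) + C := by
  obtain ⟨C0, hC0, hlast⟩ := last_part2 n P
  have hηpos := P.hη
  have hKpos : 0 ≤ 2 * EE n * η := by
    have := EE_pos n
    positivity
  refine ⟨C0 + 2 * EE n * η, by linarith, ?_⟩
  intro X hX hH L hL0 hL
  obtain ⟨hη1, hρ1, hτ1⟩ := par_small P
  have hH' := par_strip hτ1 hH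
  have hε2 := P.hε2
  have hε := P.hε
  have hε1 := P.hε1
  suffices main : ∀ N : ℕ, ∀ a : ℤ, (⌈L⌉ + (win n : ℤ) + 5 - a).toNat = N → Tw X n a ≤ ε2 →
      ∀ c : ℕ → Pt, IsChain X n η a c →
      ((rgt X (fun r => (c r).1)).card : ℝ)
        ≤ mt n τ * (∑ r ∈ Finset.range (n + 2), (L + 2 - (c r).1))
          + (C0 + 2 * EE n * η) by
    intro a ha c hc
    exact main _ a rfl ha c hc
  intro N
  induction N using Nat.strong_induction_on with
  | _ N ih =>
    intro a hN ha c hc
    have hnear := rc_near hX hL (j := a) (by linarith : Tw X n a ≤ 1)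
    -- the first bad cell after `a`
    obtain ⟨b, ⟨hab, hbad⟩, hbmin⟩ := Int.exists_least_of_bdd
      (P := fun b : ℤ => a < b ∧ ε1 < Tw X n b) ⟨a, fun z hz => hz.1.le⟩
      ⟨⌈L⌉ + 2 + (win n : ℤ), hnear.2, by
        have h1 : 1 < Tw X n (⌈L⌉ + 2 + (win n : ℤ)) := by
          apply far_cells hX hL
          right
          push_cast
          have := Int.le_ceil L
          linarith
        linarith⟩
    -- the last almost perfect cell before `b`
    obtain ⟨a', ⟨haa', ha'b, hTa'⟩, ha'max⟩ := Int.exists_greatest_of_bdd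
      (P := fun z : ℤ => a ≤ z ∧ z < b ∧ Tw X n z ≤ ε2) ⟨b, fun z hz => hz.2.1.le⟩
      ⟨a, le_rfl, hab, ha⟩
    have hgood1 : ∀ j : ℤ, a ≤ j → j ≤ a' → Good X n ρ j := by
      intro j hj1 hj2
      apply P.good1 X hX hH'
      show Tw X n j ≤ ε1
      rcases eq_or_lt_of_le hj1 with h | h
      · rw [← h]
        linarith
      · by_contra hcon
        have := hbmin j ⟨h, lt_of_not_ge hcon⟩
        omega
    have hgood2 : ∀ j : ℤ, Tw X n j ≤ ε2 → Good X n η j := fun j hj =>
      P.good2 X hX hH' j hj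
    obtain ⟨d, hd, hcd, hcard⟩ := run2 n P.hτ P.hη P.hηρ P.hsm P.hnρ hX hH haa' hgood1
      (hgood2 a ha) (hgood2 a' hTa') hc
    have hcard' : ((StripNear.btw X (fun r => (c r).1) (fun r => (d r).1)).card : ℝ)
        ≤ mt n τ * (∑ r ∈ Finset.range (n + 2), ((d r).1 - (c r).1))
          + 2 * EE n * η := hcard
    have hsplit := rc_rgt_le X (fun r => (c r).1) (fun r => (d r).1)
    have hsum := rc_sum n (fun r => (c r).1) (fun r => (d r).1) (L + 2)
    by_cases hex : ∃ b' : ℤ, b < b' ∧ Tw X n b' ≤ ε2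
    · obtain ⟨b', ⟨hbb', hTb'⟩, hb'min⟩ := Int.exists_least_of_bdd
        (P := fun z : ℤ => b < z ∧ Tw X n z ≤ ε2) ⟨b, fun z hz => hz.1.le⟩ hex
      obtain ⟨e, he⟩ := exists_chain hX P.hη.le (by linarith) (hgood2 b' hTb')
      have hnon : ∀ j : ℤ, a' < j → j < b' → ε2 < Tw X n j := by
        intro j hj1 hj2
        by_contra hcon
        rw [not_lt] at hcon
        rcases lt_trichotomy j b with h | h | h
        · have := ha'max j ⟨by omega, h, hcon⟩
          omega
        · rw [h] at hcon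
          linarith
        · have := hb'min j ⟨h, hcon⟩
          omega
      obtain ⟨hde, hcard2⟩ := defect2 P hX hH ha'b hbb' hbad hTa' hTb' hnon hd he
      have hrec := ih (⌈L⌉ + (win n : ℤ) + 5 - b').toNat (by omega) b' rfl hTb' e he
      have hsplit2 := rc_rgt_le X (fun r => (d r).1) (fun r => (e r).1)
      have hsum2 := rc_sum n (fun r => (d r).1) (fun r => (e r).1) (L + 2)
      rw [← hsum, mul_add]
      rw [← hsum2, mul_add]
      linarith
    · have hlast' := hlast X hX hH L hL0 hL a' hTa' (by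
        intro j hj
        by_contra hcon
        rw [not_lt] at hcon
        rcases lt_trichotomy j b with h | h | h
        · have := ha'max j ⟨by omega, h, hcon⟩
          omega
        · rw [h] at hcon
          linarith
        · exact hex ⟨j, h, hcon⟩) d hd
      rw [← hsum, mul_add]
      linarith

/-- Counting theorem. -/
theorem count_bound2 (n : ℕ) : ∃ τ0 > 0, τ0 ≤ 1 / 100 ∧ ∀ τ : ℝ, 0 < τ → τ ≤ τ0 → ∃ C : ℝ, ∀ L : ℝ, 0 ≤ L →
    ∀ X : Finset Pt, UnitSep X → (∀ p ∈ X, 0 ≤ p.1 ∧ p.1 ≤ L) →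
    InStrip (((n : ℝ) + 1) * h0 + τ) X →
    (X.card : ℝ) ≤ ((n + 2) * (n + 3)) / (n + 1 + 2 * ct τ) * L + C := by
  obtain ⟨τ0, hτ0, ρ, η, ε1, ε2, hP⟩ := exists_par2 n
  refine ⟨τ0, hτ0, (par_small (hP τ0 hτ0 le_rfl)).2.2, fun τ hτ hτ1 => ?_⟩
  have P := hP τ hτ hτ1
  obtain ⟨C1, hC1, h1⟩ := first_part2 n P
  obtain ⟨C2, hC2, h2⟩ := right_count2 n P
  obtain ⟨C3, hC3, h3⟩ := no_part2 n P
  have hmf : 0 < mt n τ := by
    have := one_le_mt n hτ (by linarith [(par_small P).2.2])
    linarith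
  refine ⟨mt n τ * (2 * ((n : ℝ) + 2)) + C1 + C2 + C3, fun L hL0 X hX hL hH => ?_⟩
  have hη := P.hη
  have hε2 := P.hε2
  have hε := P.hε
  have hε1 := P.hε1
  have hcoef : ((n + 2) * (n + 3)) / (n + 1 + 2 * ct τ) * L = mt n τ * (((n : ℝ) + 2) * L) := by
    unfold mt
    ring
  rw [hcoef]
  by_cases hex : ∃ j : ℤ, Tw X n j ≤ ε2
  · obtain ⟨a, ha, hmin⟩ := Int.exists_least_of_bdd (P := fun j : ℤ => Tw X n j ≤ ε2)
      ⟨-(win n : ℤ), fun z hz => by
        have := rc_near hX hL (j := z) (by linarith : Tw X n z ≤ 1)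
        exact this.1.le⟩ hex
    have hgood : Good X n η a := P.good2 X hX (par_strip (par_small P).2.2 hH) a ha
    obtain ⟨c, hc⟩ := exists_chain hX hη.le (by linarith [(par_small P).1]) hgood
    have hfirst := h1 X hX hH L hL0 hL a ha (by
      intro j hj
      by_contra hcon
      rw [not_lt] at hcon
      have := hmin j hcon
      omega) c hc
    have hright := h2 X hX hH L hL0 hL a ha c hc
    have hcard : (X.card : ℝ) ≤ ((StripNear.btw X (fun _ => 0) (fun r => (c r).1)).card : ℝ)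
        + ((rgt X (fun r => (c r).1)).card : ℝ) := by
      classical
      have h : X ⊆ StripNear.btw X (fun _ => 0) (fun r => (c r).1) ∪ rgt X (fun r => (c r).1) := by
        intro p hp
        rw [Finset.mem_union]
        unfold StripNear.btw rgt
        rw [Finset.mem_filter, Finset.mem_filter]
        rcases lt_or_ge p.1 (c (band p)).1 with h | h
        · exact Or.inl ⟨hp, (hL p hp).1, h⟩
        · exact Or.inr ⟨hp, h⟩
      have h1 := (Finset.card_le_card h).trans (Finset.card_union_le _ _)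
      exact_mod_cast h1
    have hsum : (∑ r ∈ Finset.range (n + 2), (c r).1)
        + (∑ r ∈ Finset.range (n + 2), (L + 2 - (c r).1)) = ((n : ℝ) + 2) * (L + 2) := by
      rw [← Finset.sum_add_distrib]
      have : ∀ r ∈ Finset.range (n + 2), (c r).1 + (L + 2 - (c r).1) = L + 2 := by
        intro r _
        ring
      rw [Finset.sum_congr rfl this, Finset.sum_const, Finset.card_range, nsmul_eq_mul]
      push_cast
      ring
    have hfin : mt n τ * (∑ r ∈ Finset.range (n + 2), (c r).1)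
        + mt n τ * (∑ r ∈ Finset.range (n + 2), (L + 2 - (c r).1))
        = mt n τ * (((n : ℝ) + 2) * L) + mt n τ * (2 * ((n : ℝ) + 2)) := by
      rw [← mul_add, hsum]
      ring
    linarith
  · have hno := h3 X hX hH L hL0 hL (by
      intro j
      by_contra hcon
      rw [not_lt] at hcon
      exact hex ⟨j, hcon⟩)
    have e : mt n τ * (((n : ℝ) + 2) * (L + 2))
        = mt n τ * (((n : ℝ) + 2) * L) + mt n τ * (2 * ((n : ℝ) + 2)) := by ring
    rw [e] at hno
    linarith

end Pool.Agent.StripTwo
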