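import Pool.Agent.StripNear.Global
import Pool.Agent.StripNear.Density
import Pool.Agent.StripTwo.S5_Count

/-! # Molnar's bound on the two sides of a lattice width -/

namespace Pool.Agent.StripTwo

open Pool.Agent.StripNear

/-- The largest integer `n` with `n √3 ≤ w - 2`. -/
noncomputable def rowNumber (w : ℝ) : ℕ := ⌊(w - 2) / Real.sqrt 3⌋₊

/-- Molnar's density `M(w)`. -/
noncomputable def molnar (w : ℝ) : ℝ :=
  Real.pi * (rowNumber w + 1) * (rowNumber w + 2) /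
    (2 * w * (rowNumber w + Real.sqrt (4 - (w - 2 - Real.sqrt 3 * rowNumber w) ^ 2)))

theorem rowNumber_eq {w : ℝ} {m : ℕ} (h1 : (m : ℝ) * Real.sqrt 3 ≤ w - 2)
    (h2 : w - 2 < ((m : ℝ) + 1) * Real.sqrt 3) : rowNumber w = m := by
  have h3 : 0 < Real.sqrt 3 := Real.sqrt_pos.2 (by norm_num)
  have hm : (0 : ℝ) ≤ m := Nat.cast_nonneg m
  unfold rowNumber
  rw [Nat.floor_eq_iff (div_nonneg ((mul_nonneg hm h3.le).trans h1) h3.le)]
  constructor
  · rw [le_div_iff₀ h3]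
    exact h1
  · rw [div_lt_iff₀ h3]
    exact h2

theorem left_side (n : ℕ) : ∃ δ > 0, ∀ w : ℝ, 2 + (n + 1) * Real.sqrt 3 - δ < w →
    w < 2 + (n + 1) * Real.sqrt 3 →
    ∀ C : Set E2, IsStripPacking w C → ∀ (O : E2) (d : ℝ), HasDensity w C O d →
      d ≤ molnar w := by
  obtain ⟨δ0, hδ0, hcount⟩ := count_bound n
  have h3 : 0 < Real.sqrt 3 := Real.sqrt_pos.2 (by norm_num)
  refine ⟨min δ0 (Real.sqrt 3), lt_min hδ0 h3, ?_⟩
  intro w hw1 hw2
  have hm1 : min δ0 (Real.sqrt 3) ≤ δ0 := min_le_left _ _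
  have hm2 : min δ0 (Real.sqrt 3) ≤ Real.sqrt 3 := min_le_right _ _
  have hn0 : (0 : ℝ) ≤ n := Nat.cast_nonneg n
  have hlo : (n : ℝ) * Real.sqrt 3 < w - 2 := by nlinarith
  have hrow : rowNumber w = n := rowNumber_eq hlo.le (by linarith)
  intro C hC O d hd
  set δ1 : ℝ := ((n + 1) * Real.sqrt 3 - (w - 2)) / 2 with hδ1
  have hδ1pos : 0 < δ1 := by
    rw [hδ1]
    linarith
  have hδ1le : δ1 ≤ δ0 := by
    rw [hδ1]
    linarith
  have hH : (w - 2) / 2 = ((n : ℝ) + 1) * h0 - δ1 := by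
    rw [hδ1, h0]
    ring
  obtain ⟨C0, hC0⟩ := hcount δ1 hδ1pos hδ1le
  have hw : 2 ≤ w := by nlinarith [mul_nonneg hn0 h3.le]
  have key := density_le (m := ((n + 1) * (n + 2)) / (n + 2 * cs δ1)) (C0 := C0) hw
    (fun L hL X hX hXL hXH => hC0 L hL X hX hXL (hH ▸ hXH)) hC hd
  have hsq : Real.sqrt (4 - (w - 2 - Real.sqrt 3 * n) ^ 2) = 2 * cs δ1 := by
    have e1 : 4 - (w - 2 - Real.sqrt 3 * n) ^ 2 = 2 ^ 2 * (1 - (h0 - δ1) ^ 2) := by
      have : w - 2 - Real.sqrt 3 * n = 2 * (h0 - δ1) := by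
        rw [hδ1, h0]
        ring
      rw [this]
      ring
    rw [e1, Real.sqrt_mul (by norm_num), Real.sqrt_sq (by norm_num), cs]
  have hmol : molnar w = Real.pi * (((n + 1) * (n + 2)) / (n + 2 * cs δ1)) / (2 * w) := by
    unfold molnar
    rw [hrow, hsq]
    rw [mul_div_assoc', div_div, mul_comm (2 * w) ((n : ℝ) + 2 * cs δ1)]
    ring
  rw [hmol]
  exact key

/-- Value of `molnar` just above a lattice width. -/
theorem molnar_right (n : ℕ) {w σ : ℝ} (hw : w = 2 + (n + 1) * Real.sqrt 3 + 2 * σ)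
    (h0' : 0 ≤ σ) (h1 : σ ≤ 1 / 100) :
    molnar w = Real.pi * (((n + 2) * (n + 3)) / (n + 1 + 2 * ct σ)) / (2 * w) := by
  have h3 : 1 < Real.sqrt 3 := by
    rw [Real.lt_sqrt (by norm_num)]
    norm_num
  have hrow : rowNumber w = n + 1 := by
    refine rowNumber_eq ?_ ?_
    · push_cast
      linarith
    · push_cast
      linarith
  have hsq : Real.sqrt (4 - (w - 2 - Real.sqrt 3 * ((n + 1 : ℕ) : ℝ)) ^ 2) = 2 * ct σ := by
    have e1 : 4 - (w - 2 - Real.sqrt 3 * ((n + 1 : ℕ) : ℝ)) ^ 2 = 2 ^ 2 * (1 - σ ^ 2) := by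
      rw [hw]
      push_cast
      ring
    rw [e1, Real.sqrt_mul (by norm_num), Real.sqrt_sq (by norm_num), ct]
  unfold molnar
  rw [hrow, hsq]
  push_cast
  rw [mul_div_assoc', div_div, mul_comm (2 * w) ((n : ℝ) + 1 + 2 * ct σ)]
  ring

theorem right_side (n : ℕ) : ∃ δ > 0, ∀ w : ℝ, 2 + (n + 1) * Real.sqrt 3 ≤ w →
    w < 2 + (n + 1) * Real.sqrt 3 + δ →
    ∀ C : Set E2, IsStripPacking w C → ∀ (O : E2) (d : ℝ), HasDensity w C O d →
      d ≤ molnar w := by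
  obtain ⟨τ0, hτ0, hτ1, hcount⟩ := count_bound2 n
  have h3 : 0 < Real.sqrt 3 := Real.sqrt_pos.2 (by norm_num)
  have hn0 : (0 : ℝ) ≤ n := Nat.cast_nonneg n
  have hpi := Real.pi_pos
  refine ⟨2 * τ0, by positivity, ?_⟩
  intro w hw1 hw2 C hC O d hd
  obtain ⟨σ, hσ⟩ : ∃ σ : ℝ, w = 2 + (n + 1) * Real.sqrt 3 + 2 * σ :=
    ⟨(w - (2 + (n + 1) * Real.sqrt 3)) / 2, by ring⟩
  have hσ0 : 0 ≤ σ := by linarith
  have hσ1 : σ < τ0 := by linarith
  have hw : 2 ≤ w := by nlinarith [mul_nonneg hn0 h3.le]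
  have hH : (w - 2) / 2 = ((n : ℝ) + 1) * h0 + σ := by
    rw [hσ, h0]
    ring
  -- the bound for every larger offset
  have key : ∀ τ : ℝ, 0 < τ → σ ≤ τ → τ ≤ τ0 →
      d ≤ Real.pi * (((n + 2) * (n + 3)) / (n + 1 + 2 * ct τ)) / (2 * w) := by
    intro τ hτ hστ hττ
    obtain ⟨C0, hC0⟩ := hcount τ hτ hττ
    refine density_le (m := ((n + 2) * (n + 3)) / (n + 1 + 2 * ct τ)) (C0 := C0) hw
      (fun L hL X hX hXL hXH => hC0 L hL X hX hXL ?_) hC hd
    intro p hp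
    have := hXH p hp
    rw [hH] at this
    exact ⟨this.1, by linarith [this.2]⟩
  rw [molnar_right n hσ hσ0 (by linarith)]
  rcases eq_or_lt_of_le hσ0 with h | h
  · -- the lattice width itself: limit `τ → 0`
    subst h
    have hct : ct 0 = 1 := by
      unfold ct
      norm_num
    have hcont : Filter.Tendsto (fun τ : ℝ =>
        Real.pi * (((n + 2) * (n + 3)) / (n + 1 + 2 * ct τ)) / (2 * w)) (nhdsWithin 0 (Set.Ioi 0))
        (nhds (Real.pi * (((n + 2) * (n + 3)) / (n + 1 + 2 * ct 0)) / (2 * w))) := by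
      have h1 : ContinuousAt (fun τ : ℝ =>
          Real.pi * (((n + 2) * (n + 3)) / ((n : ℝ) + 1 + 2 * ct τ)) / (2 * w)) 0 := by
        have h2 : ContinuousAt ct 0 := by
          unfold ct
          fun_prop
        refine ContinuousAt.div_const (ContinuousAt.mul continuousAt_const
          (ContinuousAt.div continuousAt_const (ContinuousAt.add continuousAt_const
            (ContinuousAt.mul continuousAt_const h2)) ?_)) _
        show (n : ℝ) + 1 + 2 * ct 0 ≠ 0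
        rw [hct]
        positivity
      exact h1.tendsto.mono_left nhdsWithin_le_nhds
    refine ge_of_tendsto hcont ?_
    have hmem : Set.Ioo (0 : ℝ) τ0 ∈ nhdsWithin (0 : ℝ) (Set.Ioi 0) :=
      Ioo_mem_nhdsGT hτ0
    filter_upwards [hmem] with τ hτ
    exact key τ hτ.1 hτ.1.le hτ.2.le
  · exact key σ h le_rfl hσ1.le

/-- Molnar's bound in a two-sided neighbourhood of a lattice width. -/
theorem two_sided (n : ℕ) : ∃ δ > 0, ∀ w : ℝ, |w - (2 + (n + 1) * Real.sqrt 3)| < δ →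
    ∀ C : Set E2, IsStripPacking w C → ∀ (O : E2) (d : ℝ), HasDensity w C O d →
      d ≤ molnar w := by
  obtain ⟨δ1, hδ1, h1⟩ := left_side n
  obtain ⟨δ2, hδ2, h2⟩ := right_side n
  refine ⟨min δ1 δ2, lt_min hδ1 hδ2, ?_⟩
  intro w hw
  have hm1 : min δ1 δ2 ≤ δ1 := min_le_left _ _
  have hm2 : min δ1 δ2 ≤ δ2 := min_le_right _ _
  have h := abs_lt.1 hw
  rcases lt_or_ge w (2 + (n + 1) * Real.sqrt 3) with h3 | h3
  · exact h1 w (by linarith) h3
  · exact h2 w h3 (by linarith)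

end Pool.Agent.StripTwo
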