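import Pool.Agent.StripNear.Accounting
import Pool.Agent.StripTwo.Structure

/-! # The accounting lemma in a strip of height `(n + 1) h0 + τ` -/

namespace Pool.Agent.StripTwo

open Pool.Agent.StripNear
open MeasureTheory

variable {X : Finset Pt} {n : ℕ}

open Classical in
/-- Interchange of sum and integral. -/
theorem sum_integral2 (S : Finset Pt) {b : ℝ} (hb : 0 ≤ b) (hS : ∀ p ∈ S, 0 ≤ p.2 ∧ p.2 < b) :
    ∑ p ∈ S, (∫ a in (p.2 - h0)..p.2, xn X p a)
      = ∫ a in (-h0)..b, ∑ p ∈ S, gcut X p a := by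
  have hh := h0_pos
  rw [intervalIntegral.integral_finset_sum (fun p _ => gcut_intervalIntegrable X p _ _)]
  refine Finset.sum_congr rfl fun p hp => ?_
  obtain ⟨h1, h2⟩ := hS p hp
  rw [intervalIntegral.integral_of_le (by linarith), intervalIntegral.integral_of_le (by linarith),
    gcut_eq, setIntegral_indicator measurableSet_Ioc]
  congr 2
  ext u
  simp only [Set.mem_inter_iff, Set.mem_Ioc]
  constructor
  · rintro ⟨h3, h4⟩
    exact ⟨⟨by linarith, by linarith⟩, h3, h4⟩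
  · rintro ⟨-, h⟩
    exact h

/-- The accounting lemma. -/
theorem accounting2 (hX : UnitSep X) {τ : ℝ} (hτ : 0 < τ) (hτ1 : τ ≤ 1 / 100)
    (hH : InStrip (((n : ℝ) + 1) * h0 + τ) X) {η : ℝ} (hη : 0 < η) (hη1 : η ≤ 1 / 10)
    (c d : ℕ → ℝ) (hcd : ∀ r ≤ n + 1, c r ≤ d r)
    (sc : ∀ r ≤ n + 1, |c r - c 0| ≤ n + 2) (sd : ∀ r ≤ n + 1, |d r - d 0| ≤ n + 2)
    (hL : LeftOK X n η c) (hR : RightOK X n η d) {α β : ℝ} (hαβ : α ≤ β)
    (hα : ∀ r ≤ n + 1, c r ≤ α) (hβ : ∀ r ≤ n + 1, β ≤ d r) :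
    ((StripNear.btw X c d).card : ℝ) + T X n α β
      ≤ (∑ r ∈ Finset.range (n + 2), (d r - c r)) + 20 * (n + 2) ^ 2 * η
        + 3 * τ * ((d 0 - c 0) + (2 * n + 6)) := by
  classical
  have hh := h0_gt
  have hpos := h0_pos
  have hband : ∀ p ∈ X, band p ≤ n + 1 := fun p hp =>
    band_le2 (hH p hp).1 (by linarith [(hH p hp).2])
  set S := StripNear.btw X c d with hSdef
  have hSX : S ⊆ X := Finset.filter_subset _ _
  have hSc : ∀ p ∈ S, c (band p) ≤ p.1 ∧ p.1 < d (band p) := fun p hp =>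
    (Finset.mem_filter.1 hp).2
  -- the integrand
  set F : ℝ → ℝ := fun a => (∑ p ∈ S, gcut X p a) + ulen X a α β with hF
  have hFi : ∀ a b, IntervalIntegrable F volume a b := by
    intro a b
    exact (sum_gcut_intervalIntegrable X S a b).add (ulen_intervalIntegrable X α β a b)
  have hFeq : ∀ a, F a = (∑ p ∈ S.filter (fun p => a ≤ p.2 ∧ p.2 < a + h0), xn X p a)
      + ulen X a α β := by
    intro a
    rw [hF]
    simp only
    rw [sum_gcut]
  have hgood : ∀ j : ℕ, j ≤ n + 1 → ∀ a : ℝ, ((j : ℝ) - 1) * h0 + η < a → a < j * h0 - η →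
      F a ≤ d j - c j := by
    intro j hj a h1 h2
    rw [hFeq]
    refine slab_sum hX a _ ((Finset.filter_subset _ _).trans hSX)
      (fun p hp => (Finset.mem_filter.1 hp).2) ?_ (hα j hj) (hβ j hj) (hcd j hj)
    intro p hp
    obtain ⟨hpS, hpa, hpb⟩ := Finset.mem_filter.1 hp
    exact ⟨hL j hj a h1 h2 p (hSX hpS) hpa hpb (hSc p hpS).1,
      hR j hj a h1 h2 p (hSX hpS) hpa hpb (hSc p hpS).2⟩
  have hall : ∀ j : ℕ, j ≤ n + 1 → ∀ a : ℝ, F a ≤ (d j - c j) + (4 * (n + 2) + 2) := by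
    intro j hj a
    have h0 := slab_sum hX a (S.filter (fun p => a ≤ p.2 ∧ p.2 < a + h0))
      ((Finset.filter_subset _ _).trans hSX)
      (fun p hp => (Finset.mem_filter.1 hp).2) (γ := c 0 - (n + 2)) (γ' := d 0 + (n + 2) + 2)
      (α := α) (β := β) ?_ (by have := hα 0 (by omega); linarith)
      (by have := hβ 0 (by omega); linarith) (by have := hcd 0 (by omega); linarith)
    · rw [hFeq]
      have h3 := abs_le.1 (sc j hj)
      have h4 := abs_le.1 (sd j hj)
      linarith [h3.1, h3.2, h4.1, h4.2]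
    · intro p hp
      obtain ⟨hpS, hpa, hpb⟩ := Finset.mem_filter.1 hp
      have hb := hband p (hSX hpS)
      have h3 := abs_le.1 (sc _ hb)
      have h4 := abs_le.1 (sd _ hb)
      have h5 := hSc p hpS
      have h6 := xn_le_two X p a
      constructor <;> linarith [h3.1, h3.2, h4.1, h4.2, h5.1, h5.2]
  -- the integral
  have hint : ∫ a in (-h0)..(((n : ℝ) + 1) * h0), F a
      ≤ h0 * (∑ r ∈ Finset.range (n + 2), (d r - c r))
        + (n + 2) * (2 * η * (4 * (n + 2) + 2)) := by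
    have key := intervalIntegral.sum_integral_adjacent_intervals (μ := volume) (f := F)
      (a := fun k : ℕ => ((k : ℝ) - 1) * h0) (n := n + 2) (fun k _ => hFi _ _)
    have e1 : ((0 : ℕ) : ℝ) = 0 := by norm_num
    have e2 : (((n + 2 : ℕ) : ℝ) - 1) * h0 = ((n : ℝ) + 1) * h0 := by push_cast; ring
    have e3 : (((0 : ℕ) : ℝ) - 1) * h0 = -h0 := by push_cast; ring
    rw [e2, e3] at key
    rw [← key]
    have hb : ∀ k ∈ Finset.range (n + 2),
        (∫ a in (((k : ℕ) : ℝ) - 1) * h0..((((k + 1 : ℕ)) : ℝ) - 1) * h0, F a)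
          ≤ h0 * (d k - c k) + 2 * η * (4 * (n + 2) + 2) := by
      intro k hk
      have hk' : k ≤ n + 1 := by
        have := Finset.mem_range.1 hk
        omega
      have e4 : ((((k + 1 : ℕ)) : ℝ) - 1) * h0 = ((k : ℝ) - 1) * h0 + h0 := by push_cast; ring
      rw [e4]
      exact piece_bound hFi hη hη1
        (fun a h1 h2 => hgood k hk' a h1 (by linarith)) (fun a => hall k hk' a)
    refine (Finset.sum_le_sum hb).trans (le_of_eq ?_)
    rw [Finset.sum_add_distrib, Finset.mul_sum, Finset.sum_const, Finset.card_range, nsmul_eq_mul]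
    push_cast
    ring
  -- slacks
  have hslack : (S.card : ℝ) + ∑ p ∈ S, slack X p
      = (1 / h0) * ∑ p ∈ S, (∫ a in (p.2 - h0)..p.2, xn X p a) := by
    unfold slack
    rw [Finset.sum_sub_distrib, Finset.mul_sum]
    simp
  have hsub : X.filter (fun p => α ≤ p.1 ∧ p.1 < β) ⊆ S := by
    intro p hp
    obtain ⟨hpX, hp1, hp2⟩ := Finset.mem_filter.1 hp
    have hb := hband p hpX
    exact Finset.mem_filter.2 ⟨hpX, (hα _ hb).trans hp1, lt_of_lt_of_le hp2 (hβ _ hb)⟩
  have hT : T X n α β ≤ (∑ p ∈ S, slack X p) + unc X n α β := by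
    unfold T
    have := Finset.sum_le_sum_of_subset_of_nonneg (f := fun p => slack X p) hsub
      (fun p hp _ => slack_nonneg hX (hSX hp))
    have h2 : ∑ p ∈ X.filter (fun p => α ≤ p.1 ∧ p.1 < β), slack X p ≤ ∑ p ∈ S, slack X p := this
    convert add_le_add_left h2 (unc X n α β) using 2
  -- the additional slabs at the top
  have hn : (0 : ℝ) ≤ n := Nat.cast_nonneg n
  have hA : (0 : ℝ) ≤ ((n : ℝ) + 1) * h0 := by positivity
  have hG : ∀ a : ℝ, (∑ p ∈ S, gcut X p a) ≤ (d 0 - c 0) + (2 * n + 6) := by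
    intro a
    have h0' := slab_sum hX a (S.filter (fun p => a ≤ p.2 ∧ p.2 < a + h0))
      ((Finset.filter_subset _ _).trans hSX)
      (fun p hp => (Finset.mem_filter.1 hp).2) (γ := c 0 - (n + 2)) (γ' := d 0 + (n + 2) + 2)
      (α := α) (β := β) ?_ (by have := hα 0 (by omega); linarith)
      (by have := hβ 0 (by omega); linarith) (by have := hcd 0 (by omega); linarith)
    · rw [sum_gcut] at h0'
      have := ulen_nonneg X a α β
      linarith
    · intro p hp
      obtain ⟨hpS, hpa, hpb⟩ := Finset.mem_filter.1 hp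
      have hb := hband p (hSX hpS)
      have h3 := abs_le.1 (sc _ hb)
      have h4 := abs_le.1 (sd _ hb)
      have h5 := hSc p hpS
      have h6 := xn_le_two X p a
      constructor <;> linarith [h3.1, h3.2, h4.1, h4.2, h5.1, h5.2]
  have htop : ∫ a in (((n : ℝ) + 1) * h0)..(((n : ℝ) + 1) * h0 + 2 * τ), ∑ p ∈ S, gcut X p a
      ≤ 2 * τ * ((d 0 - c 0) + (2 * n + 6)) := by
    have := intervalIntegral.integral_mono_on (μ := volume) (a := ((n : ℝ) + 1) * h0)
      (b := ((n : ℝ) + 1) * h0 + 2 * τ) (f := fun a => ∑ p ∈ S, gcut X p a)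
      (g := fun _ => (d 0 - c 0) + (2 * n + 6)) (by linarith)
      (sum_gcut_intervalIntegrable X S _ _) intervalIntegrable_const (fun x _ => hG x)
    rw [intervalIntegral.integral_const, smul_eq_mul] at this
    calc _ ≤ _ := this
      _ = _ := by ring
  have hsum := sum_integral2 (X := X) S (b := ((n : ℝ) + 1) * h0 + 2 * τ) (by linarith)
    (fun p hp => ⟨(hH p (hSX hp)).1, by linarith [(hH p (hSX hp)).2]⟩)
  rw [← intervalIntegral.integral_add_adjacent_intervals
    (sum_gcut_intervalIntegrable X S (-h0) (((n : ℝ) + 1) * h0))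
    (sum_gcut_intervalIntegrable X S (((n : ℝ) + 1) * h0) (((n : ℝ) + 1) * h0 + 2 * τ))] at hsum
  have hFint : ∫ a in (-h0)..(((n : ℝ) + 1) * h0), F a
      = (∫ a in (-h0)..(((n : ℝ) + 1) * h0), ∑ p ∈ S, gcut X p a)
        + ∫ a in (-h0)..(((n : ℝ) + 1) * h0), ulen X a α β := by
    rw [← intervalIntegral.integral_add]
    · exact sum_gcut_intervalIntegrable X S (-h0) (((n : ℝ) + 1) * h0)
    · exact ulen_intervalIntegrable X α β _ _
  have hlen : 0 ≤ (d 0 - c 0) + (2 * n + 6) := by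
    have := hcd 0 (by omega)
    linarith
  have hfinal : h0 * ((S.card : ℝ) + T X n α β)
      ≤ h0 * (∑ r ∈ Finset.range (n + 2), (d r - c r))
        + (n + 2) * (2 * η * (4 * (n + 2) + 2)) + 2 * τ * ((d 0 - c 0) + (2 * n + 6)) := by
    have h1 : h0 * ((S.card : ℝ) + T X n α β)
        ≤ h0 * ((S.card : ℝ) + ∑ p ∈ S, slack X p) + h0 * unc X n α β := by
      nlinarith [mul_le_mul_of_nonneg_left hT hpos.le]
    have h2 : h0 * ((S.card : ℝ) + ∑ p ∈ S, slack X p)
        = ∑ p ∈ S, (∫ a in (p.2 - h0)..p.2, xn X p a) := by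
      rw [hslack]
      field_simp
    have h3 : h0 * unc X n α β = ∫ a in (-h0)..(((n : ℝ) + 1) * h0), ulen X a α β := by
      unfold unc
      field_simp
    rw [h2, h3, hsum] at h1
    linarith [hint, hFint, htop]
  have h5 : ((n : ℝ) + 2) * (2 * η * (4 * (n + 2) + 2)) ≤ h0 * (20 * (n + 2) ^ 2 * η) := by
    have h6 : 0 ≤ ((n : ℝ) + 2) * η := by positivity
    have h7 : 2 * (4 * ((n : ℝ) + 2) + 2) ≤ h0 * (20 * (n + 2)) := by nlinarith
    calc ((n : ℝ) + 2) * (2 * η * (4 * (n + 2) + 2))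
        = (((n : ℝ) + 2) * η) * (2 * (4 * (n + 2) + 2)) := by ring
      _ ≤ (((n : ℝ) + 2) * η) * (h0 * (20 * (n + 2))) := mul_le_mul_of_nonneg_left h7 h6
      _ = _ := by ring
  have h6 : 2 * τ * ((d 0 - c 0) + (2 * n + 6)) ≤ h0 * (3 * τ * ((d 0 - c 0) + (2 * n + 6))) := by
    have : 0 ≤ τ * ((d 0 - c 0) + (2 * n + 6)) := by positivity
    nlinarith
  have h8 : h0 * ((S.card : ℝ) + T X n α β)
      ≤ h0 * ((∑ r ∈ Finset.range (n + 2), (d r - c r)) + 20 * (n + 2) ^ 2 * η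
        + 3 * τ * ((d 0 - c 0) + (2 * n + 6))) := by
    rw [mul_add, mul_add]
    linarith
  exact le_of_mul_le_mul_left h8 hpos

end Pool.Agent.StripTwo
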