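import Pool.Agent.StripNear.Basic

/-! # Elementary functions of the elastic lemma above a lattice width -/

namespace Pool.Agent.StripTwo

open Pool.Agent.StripNear

/-- `ct σ = sqrt (1 - σ²)`, the horizontal extent of a unit edge that climbs by `σ`. -/
noncomputable def ct (σ : ℝ) : ℝ := Real.sqrt (1 - σ ^ 2)

/-- Height of a unit edge of horizontal extent `1 / 2 + s`, minus `h0`. -/
noncomputable def g (s : ℝ) : ℝ := Real.sqrt (1 - (1 / 2 + s) ^ 2) - h0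

/-- Horizontal shortening of a unit edge that climbs by `v`. -/
noncomputable def psi (v : ℝ) : ℝ := 1 - Real.sqrt (1 - v ^ 2)

/-- `kap σ = σ / (2 (1 - ct σ))`. -/
noncomputable def kap (σ : ℝ) : ℝ := (1 + ct σ) / (2 * σ)

private theorem h0_sq' : h0 ^ 2 = 3 / 4 := h0_sq

private theorem h0_pos' : 0 < h0 := h0_pos

theorem g_zero : g 0 = 0 := by
  unfold g
  have h : (1 : ℝ) - (1 / 2 + 0) ^ 2 = h0 ^ 2 := by rw [h0_sq']; norm_num
  rw [h, Real.sqrt_sq h0_pos'.le]; ring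

private theorem sqrt_bounds {u : ℝ} (hu : |u| ≤ 1 / 20) :
    0 ≤ 1 - (1 / 2 + u) ^ 2 ∧ 0.83 ≤ Real.sqrt (1 - (1 / 2 + u) ^ 2) ∧
      Real.sqrt (1 - (1 / 2 + u) ^ 2) ≤ 0.895 := by
  rw [abs_le] at hu
  have h0' : 0 ≤ 1 - (1 / 2 + u) ^ 2 := by nlinarith
  refine ⟨h0', ?_, ?_⟩
  · apply Real.le_sqrt_of_sq_le
    nlinarith
  · rw [Real.sqrt_le_left (by norm_num)]
    nlinarith

/-- Put `A = sqrt (1 - (1/2+u)²)`, `B = sqrt (1 - (1/2+v)²)`; `(A - B)(A + B) = (v - u)(1 + u + v)`,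
`A, B ∈ [.83, .9]`. -/
theorem g_diff_ge {u v : ℝ} (hu : |u| ≤ 1 / 20) (hv : |v| ≤ 1 / 20) (huv : u ≤ v) :
    (v - u) / 2 ≤ g u - g v := by
  obtain ⟨a0, a1, a2⟩ := sqrt_bounds hu
  obtain ⟨b0, b1, b2⟩ := sqrt_bounds hv
  have hA := Real.sq_sqrt a0
  have hB := Real.sq_sqrt b0
  unfold g
  set A := Real.sqrt (1 - (1 / 2 + u) ^ 2)
  set B := Real.sqrt (1 - (1 / 2 + v) ^ 2)
  rw [abs_le] at hu hv
  have key : (A - B) * (A + B) = (v - u) * (1 + u + v) := by nlinarith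
  have h1 : (v - u) / 2 * (A + B) ≤ (A - B) * (A + B) := by
    rw [key]
    have : (A + B) / 2 ≤ 1 + u + v := by linarith
    nlinarith
  have h2 : (v - u) / 2 ≤ A - B := le_of_mul_le_mul_right h1 (by linarith)
  linarith

theorem g_diff_le {u v : ℝ} (hu : |u| ≤ 1 / 20) (hv : |v| ≤ 1 / 20) (huv : u ≤ v) :
    g u - g v ≤ v - u := by
  obtain ⟨a0, a1, a2⟩ := sqrt_bounds hu
  obtain ⟨b0, b1, b2⟩ := sqrt_bounds hv
  have hA := Real.sq_sqrt a0
  have hB := Real.sq_sqrt b0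
  unfold g
  set A := Real.sqrt (1 - (1 / 2 + u) ^ 2)
  set B := Real.sqrt (1 - (1 / 2 + v) ^ 2)
  rw [abs_le] at hu hv
  have key : (A - B) * (A + B) = (v - u) * (1 + u + v) := by nlinarith
  have h1 : (A - B) * (A + B) ≤ (v - u) * (A + B) := by
    rw [key]
    have : 1 + u + v ≤ A + B := by linarith
    nlinarith
  have h2 : A - B ≤ v - u := le_of_mul_le_mul_right h1 (by linarith)
  linarith

/-- Tangent at `0` (note `1 / (2 h0) = 1 / √3`). -/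
theorem g_upper {s : ℝ} (hs : |s| ≤ 1 / 20) : g s ≤ -s / (2 * h0) := by
  obtain ⟨a0, a1, a2⟩ := sqrt_bounds hs
  have hA := Real.sq_sqrt a0
  unfold g
  set A := Real.sqrt (1 - (1 / 2 + s) ^ 2)
  have hp := h0_pos'
  have hsq := h0_sq'
  rw [le_div_iff₀ (by positivity)]
  nlinarith [sq_nonneg (A - h0)]

/-- Square `h0 - s / (2 h0) - s² ≤ sqrt (1 - (1/2+s)²)`. -/
theorem g_lower {s : ℝ} (hs : |s| ≤ 1 / 20) : -s / (2 * h0) - s ^ 2 ≤ g s := by
  unfold g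
  have hp := h0_pos'
  have hsq := h0_sq'
  have hs' := hs
  rw [abs_le] at hs'
  have hlow : 0.86 ≤ h0 := by nlinarith
  have hinv : -s / (2 * h0) = -(2 / 3) * s * h0 := by
    rw [div_eq_iff (by positivity)]
    nlinarith
  rw [hinv]
  have : h0 - 2 / 3 * s * h0 - s ^ 2 ≤ Real.sqrt (1 - (1 / 2 + s) ^ 2) := by
    apply Real.le_sqrt_of_sq_le
    have e : (h0 - 2 / 3 * s * h0 - s ^ 2) ^ 2
        = (h0 ^ 2) * (1 - 2 / 3 * s) ^ 2 - 2 * h0 * (1 - 2 / 3 * s) * s ^ 2 + s ^ 4 := by ring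
    rw [e, hsq]
    have h1 : 0.86 * ((1 - 2 / 3 * s) * s ^ 2) ≤ h0 * ((1 - 2 / 3 * s) * s ^ 2) := by
      apply mul_le_mul_of_nonneg_right hlow
      apply mul_nonneg (by linarith) (sq_nonneg s)
    have h2 : s ^ 4 ≤ (1 / 400) * s ^ 2 := by
      have : s ^ 2 ≤ 1 / 400 := by nlinarith
      nlinarith [sq_nonneg s]
    have h3 : (1 - 2 / 3 * s) * s ^ 2 ≥ (1 - 1 / 30) * s ^ 2 := by
      apply mul_le_mul_of_nonneg_right _ (sq_nonneg s)
      linarith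
    nlinarith [sq_nonneg s]
  linarith

theorem g_nonneg {s : ℝ} (hs : |s| ≤ 1 / 20) (h : s ≤ 0) : 0 ≤ g s := by
  have h1 := g_diff_ge hs (by norm_num : |(0 : ℝ)| ≤ 1 / 20) h
  rw [g_zero] at h1
  linarith

theorem g_abs_le {s : ℝ} (hs : |s| ≤ 1 / 20) : |g s| ≤ |s| := by
  rcases le_total s 0 with h | h
  · have h1 := g_diff_le hs (by norm_num : |(0 : ℝ)| ≤ 1 / 20) h
    have h2 := g_nonneg hs h
    rw [g_zero] at h1
    rw [abs_of_nonneg h2, abs_of_nonpos h]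
    linarith
  · have h1 := g_diff_le (by norm_num : |(0 : ℝ)| ≤ 1 / 20) hs h
    have h2 := g_diff_ge (by norm_num : |(0 : ℝ)| ≤ 1 / 20) hs h
    rw [g_zero] at h1 h2
    rw [abs_of_nonneg h, abs_le]
    constructor <;> linarith

theorem psi_nonneg (v : ℝ) : 0 ≤ psi v := by
  unfold psi
  have : Real.sqrt (1 - v ^ 2) ≤ 1 := by
    rw [Real.sqrt_le_left (by norm_num)]
    nlinarith [sq_nonneg v]
  linarith

theorem psi_le_sq {v : ℝ} (hv : |v| ≤ 1) : psi v ≤ v ^ 2 := by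
  unfold psi
  have h1 : v ^ 2 ≤ 1 := by
    rw [← sq_abs]; nlinarith [abs_nonneg v]
  have : 1 - v ^ 2 ≤ Real.sqrt (1 - v ^ 2) := by
    apply Real.le_sqrt_of_sq_le
    nlinarith [sq_nonneg v]
  linarith

theorem psi_le_abs {v : ℝ} (hv : |v| ≤ 1) : psi v ≤ |v| := by
  have h := psi_le_sq hv
  have : v ^ 2 ≤ |v| := by
    rw [← sq_abs]; nlinarith [abs_nonneg v]
  linarith

end Pool.Agent.StripTwo
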