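import Pool.Agent.StripTwo.E1_G

/-! # The factor `kap` -/

namespace Pool.Agent.StripTwo

open Pool.Agent.StripNear

theorem ct_le_one (σ : ℝ) : ct σ ≤ 1 := by
  unfold ct
  rw [Real.sqrt_le_one]
  nlinarith [sq_nonneg σ]

private theorem ct_nonneg (σ : ℝ) : 0 ≤ ct σ := Real.sqrt_nonneg _

private theorem ct_sq {σ : ℝ} (h0 : 0 < σ) (h1 : σ ≤ 1 / 32) : ct σ ^ 2 = 1 - σ ^ 2 := by
  unfold ct
  apply Real.sq_sqrt
  nlinarith

theorem ct_pos {σ : ℝ} (h0 : 0 < σ) (h1 : σ ≤ 1 / 32) : 0 < ct σ := by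
  unfold ct
  apply Real.sqrt_pos.mpr
  nlinarith

theorem one_sub_ct_le {σ : ℝ} (h0 : 0 < σ) (h1 : σ ≤ 1 / 32) : 1 - ct σ ≤ σ ^ 2 := by
  have h2 := ct_sq h0 h1
  have h3 := ct_le_one σ
  have h4 := ct_nonneg σ
  nlinarith

theorem kap_ge {σ : ℝ} (h0 : 0 < σ) : 1 / (2 * σ) ≤ kap σ := by
  unfold kap
  apply div_le_div_of_nonneg_right _ (by positivity)
  linarith [ct_nonneg σ]

theorem kap_le {σ : ℝ} (h0 : 0 < σ) : kap σ ≤ 1 / σ := by
  unfold kap
  rw [div_le_div_iff₀ (by positivity) h0]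
  nlinarith [ct_le_one σ]

theorem kap_mul {σ : ℝ} (h0 : 0 < σ) (h1 : σ ≤ 1 / 32) : kap σ * (2 * (1 - ct σ)) = σ := by
  unfold kap
  have h2 := ct_sq h0 h1
  field_simp
  linear_combination -h2

/-- Put `χ = clip (v / σ)`, `ζ = (|v| - σ)⁺`.  If `|v| ≤ σ` then `sqrt (1 - v²) ≥ ct σ`, hence
`psi v = v² / (1 + sqrt (1 - v²)) ≤ v² / (1 + ct σ)` and `kap σ * psi v ≤ v² / (2 σ) = χ v / 2`.
If `|v| = σ + ζ` then `χ v / 2 = (σ + ζ) / 2`,
`(1 + ct σ) / (1 + sqrt (1 - v²)) ≤ 1 + (v² - σ²)` and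
`kap σ * psi v ≤ (v² / (2 σ)) (1 + v² - σ²)`. -/
theorem kap_psi {σ v : ℝ} (h0 : 0 < σ) (h1 : σ ≤ 1 / 32) (hv : |v| ≤ 1 / 10) :
    kap σ * psi v ≤ max (-1) (min 1 (v / σ)) * v / 2
      + (max 0 (|v| - σ) + (max 0 (|v| - σ)) ^ 2 / σ) := by
  have hv2 : v ^ 2 ≤ (1 / 10) ^ 2 := by
    rw [← sq_abs]
    exact pow_le_pow_left₀ (abs_nonneg v) hv 2
  set S : ℝ := Real.sqrt (1 - v ^ 2) with hS
  have hS0 : 0 ≤ S := Real.sqrt_nonneg _
  have hS2 : S ^ 2 = 1 - v ^ 2 := Real.sq_sqrt (by nlinarith)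
  have hc2 := ct_sq h0 h1
  have hc0 := ct_nonneg σ
  have hc1 := ct_le_one σ
  have hpsi : psi v * (1 + S) = v ^ 2 := by
    unfold psi
    rw [← hS]
    nlinarith
  have hpsi' : psi v = v ^ 2 / (1 + S) := by
    rw [eq_div_iff (by positivity)]
    exact hpsi
  rcases le_or_gt |v| σ with h | h
  · have hSc : ct σ ≤ S := by
      unfold ct
      apply Real.sqrt_le_sqrt
      have : v ^ 2 ≤ σ ^ 2 := by
        rw [← sq_abs]
        exact pow_le_pow_left₀ (abs_nonneg v) h 2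
      linarith
    have h2 := abs_le.mp h
    have hm1 : v / σ ≤ 1 := by
      rw [div_le_one h0]
      exact h2.2
    have hm2 : -1 ≤ v / σ := by
      rw [le_div_iff₀ h0]
      linarith [h2.1]
    rw [min_eq_right hm1, max_eq_right hm2, max_eq_left (by linarith : |v| - σ ≤ 0)]
    have h3 : kap σ * psi v ≤ v ^ 2 / (2 * σ) := by
      unfold kap
      rw [hpsi', div_mul_div_comm, div_le_div_iff₀ (by positivity) (by positivity)]
      have : (1 + ct σ) * v ^ 2 * (2 * σ) ≤ (1 + S) * v ^ 2 * (2 * σ) := by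
        apply mul_le_mul_of_nonneg_right _ (by positivity)
        apply mul_le_mul_of_nonneg_right _ (by positivity)
        linarith
      linarith
    have h4 : v / σ * v / 2 = v ^ 2 / (2 * σ) := by
      field_simp
    rw [h4]
    have h5 : (0 : ℝ) + 0 ^ 2 / σ = 0 := by simp
    rw [h5]
    linarith
  · set ζ : ℝ := |v| - σ with hζ
    have hζ0 : 0 < ζ := by linarith
    have hvζ : |v| = σ + ζ := by rw [hζ]; ring
    have hχ : max (-1) (min 1 (v / σ)) * v = σ + ζ := by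
      rcases le_total 0 v with hv0 | hv0
      · rw [abs_of_nonneg hv0] at h hvζ
        have h3 : 1 ≤ v / σ := by
          rw [le_div_iff₀ h0]
          linarith
        rw [min_eq_left h3, max_eq_right (by norm_num)]
        linarith
      · rw [abs_of_nonpos hv0] at h hvζ
        have h3 : v / σ ≤ -1 := by
          rw [div_le_iff₀ h0]
          linarith
        rw [min_eq_right (by linarith), max_eq_left h3]
        linarith
    rw [hχ, max_eq_right hζ0.le]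
    have hvsq : v ^ 2 = (σ + ζ) ^ 2 := by rw [← hvζ, sq_abs]
    have hSlow : 9 / 10 ≤ S := by
      rw [hS]
      apply Real.le_sqrt_of_sq_le
      nlinarith
    have hclow : 9 / 10 ≤ ct σ := by
      unfold ct
      apply Real.le_sqrt_of_sq_le
      nlinarith
    have hquot : (1 + ct σ) ≤ (1 + (v ^ 2 - σ ^ 2)) * (1 + S) := by
      have h4 : (ct σ - S) * (ct σ + S) = v ^ 2 - σ ^ 2 := by nlinarith
      have h5 : 0 ≤ v ^ 2 - σ ^ 2 := by
        rw [hvsq]
        nlinarith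
      have h6 : 0 ≤ ct σ - S := by
        by_contra hcon
        rw [not_le] at hcon
        nlinarith
      nlinarith
    have h7 : kap σ * psi v ≤ v ^ 2 * (1 + (v ^ 2 - σ ^ 2)) / (2 * σ) := by
      unfold kap
      rw [hpsi', div_mul_div_comm, div_le_div_iff₀ (by positivity) (by positivity)]
      have : (1 + ct σ) * (v ^ 2 * (2 * σ)) ≤ (1 + (v ^ 2 - σ ^ 2)) * (1 + S) * (v ^ 2 * (2 * σ)) :=
        mul_le_mul_of_nonneg_right hquot (by positivity)
      linarith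
    refine h7.trans ?_
    have h8 : (σ + ζ) / 2 + (ζ + ζ ^ 2 / σ) = ((σ + ζ) * σ + 2 * ζ * σ + 2 * ζ ^ 2) / (2 * σ) := by
      field_simp
      ring
    rw [h8]
    apply div_le_div_of_nonneg_right _ (by positivity)
    rw [hvsq]
    have hsum : σ + ζ ≤ 1 / 10 := by linarith
    have h9 : 0 ≤ ζ * (σ + ζ) * (1 - (σ + ζ) * (2 * σ + ζ)) := by
      apply mul_nonneg (by positivity)
      nlinarith
    nlinarith

end Pool.Agent.StripTwo
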