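import Pool.Agent.StripTwo.E1_G

/-! # Near-lattice arrays in a strip of height `(n + 1) h0 + σ`

Rows `r = 0, ..., n + 1`, columns `0, ..., N`.  `t r i` = height of the point `(r, i)` minus
`r h0`; `s r i` = (abscissa of `(r + 1, i)`) - (abscissa of `(r, i)`) - 1/2;
`lam r i` = 1 - (length of the step from `(r, i)` to `(r, i + 1)`).  The point `(r + 1, i)` is the
upper right neighbour of `(r, i)` and the upper left neighbour of `(r, i + 1)`; the latter edge has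
horizontal extent `-1/2 + s r i + lam r i`. -/

namespace Pool.Agent.StripTwo

open Pool.Agent.StripNear

structure Q2 (n N : ℕ) (σ ρ : ℝ) (t s lam : ℕ → ℕ → ℝ) : Prop where
  bot : ∀ i ≤ N, 0 ≤ t 0 i
  top : ∀ i ≤ N, t (n + 1) i ≤ σ
  nt : ∀ r ≤ n + 1, ∀ i ≤ N, |t r i| ≤ ρ
  ns : ∀ r ≤ n, ∀ i ≤ N, |s r i| ≤ ρ
  nl : ∀ r ≤ n + 1, ∀ i < N, |lam r i| ≤ ρ
  step : ∀ r ≤ n, ∀ i < N, s r (i + 1) = s r i + lam r i - lam (r + 1) i
  upL : ∀ r ≤ n, ∀ i ≤ N, g (s r i) ≤ t (r + 1) i - t r i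
  upR : ∀ r ≤ n, ∀ i < N, g (-(s r i + lam r i)) ≤ t (r + 1) i - t r (i + 1)
  row : ∀ r ≤ n + 1, ∀ i < N, lam r i ≤ psi (t r (i + 1) - t r i)

/-- Height difference along a row edge. -/
def dt (t : ℕ → ℕ → ℝ) (r i : ℕ) : ℝ := t r (i + 1) - t r i

/-- Slack of a row edge. -/
noncomputable def aa (t lam : ℕ → ℕ → ℝ) (r i : ℕ) : ℝ := psi (dt t r i) - lam r i

/-- Clipped scaled height difference. -/
noncomputable def chi (σ : ℝ) (t : ℕ → ℕ → ℝ) (r i : ℕ) : ℝ := max (-1) (min 1 (dt t r i / σ))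

/-- Excess of the height difference over `σ`. -/
noncomputable def ze (σ : ℝ) (t : ℕ → ℕ → ℝ) (r i : ℕ) : ℝ := max 0 (|dt t r i| - σ)

/-- Slack of the edge from `(r, i)` to `(r + 1, i)`. -/
noncomputable def al (t s : ℕ → ℕ → ℝ) (r i : ℕ) : ℝ := t (r + 1) i - t r i - g (s r i)

/-- Slack of the edge from `(r, i + 1)` to `(r + 1, i)`. -/
noncomputable def be (t s lam : ℕ → ℕ → ℝ) (r i : ℕ) : ℝ :=
  t (r + 1) i - t r (i + 1) - g (-(s r i + lam r i))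

/-- Weighted slack of the up triangle over the edge `(r, i), (r, i + 1)`. -/
noncomputable def uu (σ : ℝ) (t s lam : ℕ → ℕ → ℝ) (r i : ℕ) : ℝ :=
  (1 - chi σ t r i) / 2 * al t s r i + (1 + chi σ t r i) / 2 * be t s lam r i

/-- Weighted slack of the down triangle below the edge `(r + 1, i), (r + 1, i + 1)`. -/
noncomputable def dd (σ : ℝ) (t s lam : ℕ → ℕ → ℝ) (r i : ℕ) : ℝ :=
  (1 + chi σ t (r + 1) i) / 2 * be t s lam r i + (1 - chi σ t (r + 1) i) / 2 * al t s r (i + 1)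

/-- Slack of a bottom edge. -/
noncomputable def bo (σ : ℝ) (t : ℕ → ℕ → ℝ) (i : ℕ) : ℝ :=
  (t 0 i + t 0 (i + 1)) / 2 - chi σ t 0 i * dt t 0 i / 2

/-- Slack of a top edge. -/
noncomputable def te (n : ℕ) (σ : ℝ) (t : ℕ → ℕ → ℝ) (i : ℕ) : ℝ :=
  σ - (t (n + 1) i + t (n + 1) (i + 1)) / 2 - chi σ t (n + 1) i * dt t (n + 1) i / 2

/-- Total slack of the column `i`. -/
noncomputable def Zc (n : ℕ) (σ : ℝ) (t s lam : ℕ → ℕ → ℝ) (i : ℕ) : ℝ :=
  (∑ r ∈ Finset.range (n + 2), aa t lam r i) / σ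
    + (∑ r ∈ Finset.range (n + 1), (uu σ t s lam r i + dd σ t s lam r i))
    + bo σ t i + te n σ t i

/-- Total slack of the columns near `i`. -/
noncomputable def Wc (n : ℕ) (σ : ℝ) (t s lam : ℕ → ℕ → ℝ) (i : ℕ) : ℝ :=
  ∑ j ∈ Finset.Icc (i - (n + 3)) (i + (n + 3)), Zc n σ t s lam j

variable {n N : ℕ} {σ ρ : ℝ} {t s lam : ℕ → ℕ → ℝ}

theorem chi_le (σ : ℝ) (t : ℕ → ℕ → ℝ) (r i : ℕ) : chi σ t r i ≤ 1 := by
  unfold chi
  exact max_le (by norm_num) (min_le_left _ _)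

theorem le_chi (σ : ℝ) (t : ℕ → ℕ → ℝ) (r i : ℕ) : -1 ≤ chi σ t r i := by
  unfold chi
  exact le_max_left _ _

theorem chi_eq {r i : ℕ} (hσ : 0 < σ) (h : |dt t r i| ≤ σ) : chi σ t r i = dt t r i / σ := by
  unfold chi
  obtain ⟨h1, h2⟩ := abs_le.1 h
  have h3 : dt t r i / σ ≤ 1 := by
    rw [div_le_iff₀ hσ]
    linarith
  have h4 : -1 ≤ dt t r i / σ := by
    rw [le_div_iff₀ hσ]
    linarith
  rw [min_eq_right h3, max_eq_right h4]

theorem ze_nonneg (σ : ℝ) (t : ℕ → ℕ → ℝ) (r i : ℕ) : 0 ≤ ze σ t r i := by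
  unfold ze
  exact le_max_left _ _

theorem aa_nonneg (h : Q2 n N σ ρ t s lam) {r i : ℕ} (hr : r ≤ n + 1) (hi : i < N) :
    0 ≤ aa t lam r i := by
  have h1 := h.row r hr i hi
  unfold aa dt
  linarith

theorem al_nonneg (h : Q2 n N σ ρ t s lam) {r i : ℕ} (hr : r ≤ n) (hi : i ≤ N) :
    0 ≤ al t s r i := by
  have h1 := h.upL r hr i hi
  unfold al
  linarith

theorem be_nonneg (h : Q2 n N σ ρ t s lam) {r i : ℕ} (hr : r ≤ n) (hi : i < N) :
    0 ≤ be t s lam r i := by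
  have h1 := h.upR r hr i hi
  unfold be
  linarith

theorem uu_nonneg (h : Q2 n N σ ρ t s lam) {r i : ℕ} (hr : r ≤ n) (hi : i < N) :
    0 ≤ uu σ t s lam r i := by
  have h1 := chi_le σ t r i
  have h2 := le_chi σ t r i
  have h3 := al_nonneg h hr hi.le
  have h4 := be_nonneg h hr hi
  unfold uu
  exact add_nonneg (mul_nonneg (by linarith) h3) (mul_nonneg (by linarith) h4)

theorem dd_nonneg (h : Q2 n N σ ρ t s lam) {r i : ℕ} (hr : r ≤ n) (hi : i < N) :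
    0 ≤ dd σ t s lam r i := by
  have h1 := chi_le σ t (r + 1) i
  have h2 := le_chi σ t (r + 1) i
  have h3 := al_nonneg h hr (show i + 1 ≤ N from hi)
  have h4 := be_nonneg h hr hi
  unfold dd
  exact add_nonneg (mul_nonneg (by linarith) h4) (mul_nonneg (by linarith) h3)

private theorem E2_chi_dt (σ : ℝ) (t : ℕ → ℕ → ℝ) (r i : ℕ) :
    chi σ t r i * dt t r i ≤ |dt t r i| := by
  have h1 := chi_le σ t r i
  have h2 := le_chi σ t r i
  have h3 : |chi σ t r i| ≤ 1 := abs_le.2 ⟨h2, h1⟩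
  calc chi σ t r i * dt t r i ≤ |chi σ t r i * dt t r i| := le_abs_self _
    _ = |chi σ t r i| * |dt t r i| := abs_mul _ _
    _ ≤ 1 * |dt t r i| := mul_le_mul_of_nonneg_right h3 (abs_nonneg _)
    _ = |dt t r i| := one_mul _

/-- `χ Δ / 2 ≤ |Δ| / 2` and both heights are nonnegative. -/
theorem bo_nonneg (h : Q2 n N σ ρ t s lam) {i : ℕ} (hi : i < N) : 0 ≤ bo σ t i := by
  have h0 := E2_chi_dt σ t 0 i
  have h1 := h.bot i hi.le
  have h2 := h.bot (i + 1) hi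
  have h3 : |dt t 0 i| ≤ t 0 i + t 0 (i + 1) := by
    unfold dt
    rw [abs_le]
    constructor <;> linarith
  unfold bo
  linarith

theorem te_nonneg (h : Q2 n N σ ρ t s lam) {i : ℕ} (hi : i < N) : 0 ≤ te n σ t i := by
  have h0 := E2_chi_dt σ t (n + 1) i
  have h1 := h.top i hi.le
  have h2 := h.top (i + 1) hi
  have h3 : |dt t (n + 1) i| ≤ 2 * σ - t (n + 1) i - t (n + 1) (i + 1) := by
    unfold dt
    rw [abs_le]
    constructor <;> linarith
  unfold te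
  linarith

private theorem E2_parts (hσ : 0 < σ) (h : Q2 n N σ ρ t s lam) {i : ℕ} (hi : i < N) :
    0 ≤ (∑ r ∈ Finset.range (n + 2), aa t lam r i) / σ ∧
    0 ≤ ∑ r ∈ Finset.range (n + 1), (uu σ t s lam r i + dd σ t s lam r i) ∧
    0 ≤ bo σ t i ∧ 0 ≤ te n σ t i := by
  refine ⟨?_, ?_, bo_nonneg h hi, te_nonneg h hi⟩
  · apply div_nonneg _ hσ.le
    apply Finset.sum_nonneg
    intro r hr
    rw [Finset.mem_range] at hr
    exact aa_nonneg h (by omega) hi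
  · apply Finset.sum_nonneg
    intro r hr
    rw [Finset.mem_range] at hr
    exact add_nonneg (uu_nonneg h (by omega) hi) (dd_nonneg h (by omega) hi)

private theorem E2_one (h : Q2 n N σ ρ t s lam) {r i : ℕ} (hr : r ≤ n) (hi : i < N) :
    uu σ t s lam r i + dd σ t s lam r i ≤
      ∑ r ∈ Finset.range (n + 1), (uu σ t s lam r i + dd σ t s lam r i) := by
  apply Finset.single_le_sum (f := fun r => uu σ t s lam r i + dd σ t s lam r i)
  · intro r hr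
    rw [Finset.mem_range] at hr
    exact add_nonneg (uu_nonneg h (by omega) hi) (dd_nonneg h (by omega) hi)
  · rw [Finset.mem_range]
    omega

theorem Zc_nonneg (hσ : 0 < σ) (h : Q2 n N σ ρ t s lam) {i : ℕ} (hi : i < N) :
    0 ≤ Zc n σ t s lam i := by
  obtain ⟨h1, h2, h3, h4⟩ := E2_parts hσ h hi
  unfold Zc
  linarith

theorem sum_aa_le (hσ : 0 < σ) (h : Q2 n N σ ρ t s lam) {i : ℕ} (hi : i < N) :
    ∑ r ∈ Finset.range (n + 2), aa t lam r i ≤ σ * Zc n σ t s lam i := by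
  obtain ⟨h1, h2, h3, h4⟩ := E2_parts hσ h hi
  have h5 : (∑ r ∈ Finset.range (n + 2), aa t lam r i) / σ ≤ Zc n σ t s lam i := by
    unfold Zc
    linarith
  rw [div_le_iff₀ hσ] at h5
  linarith

theorem uu_le (hσ : 0 < σ) (h : Q2 n N σ ρ t s lam) {r i : ℕ} (hr : r ≤ n) (hi : i < N) :
    uu σ t s lam r i ≤ Zc n σ t s lam i := by
  obtain ⟨h1, h2, h3, h4⟩ := E2_parts hσ h hi
  have h5 := E2_one h hr hi
  have h6 := dd_nonneg h hr hi
  unfold Zc
  linarith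

theorem dd_le (hσ : 0 < σ) (h : Q2 n N σ ρ t s lam) {r i : ℕ} (hr : r ≤ n) (hi : i < N) :
    dd σ t s lam r i ≤ Zc n σ t s lam i := by
  obtain ⟨h1, h2, h3, h4⟩ := E2_parts hσ h hi
  have h5 := E2_one h hr hi
  have h6 := uu_nonneg h hr hi
  unfold Zc
  linarith

theorem bo_le (hσ : 0 < σ) (h : Q2 n N σ ρ t s lam) {i : ℕ} (hi : i < N) :
    bo σ t i ≤ Zc n σ t s lam i := by
  obtain ⟨h1, h2, h3, h4⟩ := E2_parts hσ h hi
  unfold Zc
  linarith

end Pool.Agent.StripTwo
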