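import Pool.Agent.StripTwo.E2_Data

/-! # Windows -/

namespace Pool.Agent.StripTwo

open Pool.Agent.StripNear

variable {n N : ℕ} {σ ρ : ℝ} {t s lam : ℕ → ℕ → ℝ}

/-- What is known on the columns `i - 1, ..., i + n + 4` when the slack nearby is at most `S`. -/
structure Win (n : ℕ) (σ ρ S : ℝ) (i : ℕ) (t s lam : ℕ → ℕ → ℝ) : Prop where
  S0 : 0 ≤ S
  b0 : ∀ j, i ≤ j → j ≤ i + n + 3 → 0 ≤ t 0 j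
  lo : ∀ r ≤ n + 1, ∀ j, i ≤ j → j + r ≤ i + n + 3 → -(σ * S) ≤ t r j
  up : ∀ r ≤ n + 1, ∀ j, i ≤ j + 1 → j ≤ i + n + 4 → t r j ≤ σ + σ * S
  la : ∀ r ≤ n + 1, ∀ j, i ≤ j + 1 → j ≤ i + n + 3 → -(σ * S) ≤ lam r j
  lu : ∀ r ≤ n + 1, ∀ j, i ≤ j + 1 → j ≤ i + n + 3 → lam r j ≤ psi (dt t r j)
  gL : ∀ r ≤ n, ∀ j, i ≤ j + 1 → j ≤ i + n + 4 → g (s r j) ≤ t (r + 1) j - t r j
  gR : ∀ r ≤ n, ∀ j, i ≤ j + 1 → j ≤ i + n + 3 → g (-(s r j + lam r j)) ≤ t (r + 1) j - t r (j + 1)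
  st : ∀ r ≤ n, ∀ j, i ≤ j + 1 → j ≤ i + n + 3 → s r (j + 1) = s r j + lam r j - lam (r + 1) j
  nt : ∀ r ≤ n + 1, ∀ j, i ≤ j + 1 → j ≤ i + n + 4 → |t r j| ≤ ρ
  ns : ∀ r ≤ n, ∀ j, i ≤ j + 1 → j ≤ i + n + 4 → |s r j| ≤ ρ
  nl : ∀ r ≤ n + 1, ∀ j, i ≤ j + 1 → j ≤ i + n + 3 → |lam r j| ≤ ρ
  ub : ∀ r ≤ n, ∀ j, i ≤ j → j ≤ i + n + 2 → uu σ t s lam r j ≤ S
  db : ∀ r ≤ n, dd σ t s lam r i ≤ S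
  bb : ∀ j, i ≤ j → j ≤ i + n + 2 → bo σ t j ≤ S

end Pool.Agent.StripTwo
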