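import Pool.Agent.StripTwo.E3a_Sum
import Pool.Agent.StripTwo.E3w_Def

/-! # Windows exist -/

namespace Pool.Agent.StripTwo

open Pool.Agent.StripNear

variable {n N : ℕ} {σ ρ : ℝ} {t s lam : ℕ → ℕ → ℝ}

/-- From `lower_sum`, `upper_sum` with `a = i - (n + 3)`, `b = i + (n + 3)`: the sum of all
`aa` in the window is at most `σ * Wc i` (`sum_aa_le`, `Finset.sum_comm`), and every `Zc j` of the
window is at most `Wc i`. -/
theorem win_of (hσ : 0 < σ) (hρ : ρ ≤ 1 / 40) (h : Q2 n N σ ρ t s lam) {i : ℕ}
    (h1 : n + 3 ≤ i) (h2 : i + n + 4 ≤ N) : Win n σ ρ (Wc n σ t s lam i) i t s lam := by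
  set a : ℕ := i - (n + 3) with ha
  set b : ℕ := i + (n + 3) with hb
  have hbN : b < N := by omega
  have hW : Wc n σ t s lam i = ∑ j ∈ Finset.Icc a b, Zc n σ t s lam j := rfl
  have hZ0 : ∀ j ∈ Finset.Icc a b, 0 ≤ Zc n σ t s lam j := by
    intro j hj
    rw [Finset.mem_Icc] at hj
    exact Zc_nonneg hσ h (by omega)
  have hS0 : 0 ≤ Wc n σ t s lam i := by
    rw [hW]
    exact Finset.sum_nonneg hZ0
  have hZS : ∀ j, a ≤ j → j ≤ b → Zc n σ t s lam j ≤ Wc n σ t s lam i := by
    intro j hj1 hj2
    rw [hW]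
    exact Finset.single_le_sum hZ0 (Finset.mem_Icc.2 ⟨hj1, hj2⟩)
  set F : ℕ → ℝ := fun r => ∑ j ∈ Finset.Icc a b, aa t lam r j with hF
  have hF0 : ∀ r ≤ n + 1, 0 ≤ F r := by
    intro r hr
    apply Finset.sum_nonneg
    intro j hj
    rw [Finset.mem_Icc] at hj
    exact aa_nonneg h hr (by omega)
  have htot : ∑ r ∈ Finset.range (n + 2), F r ≤ σ * Wc n σ t s lam i := by
    rw [hF, Finset.sum_comm, hW, Finset.mul_sum]
    apply Finset.sum_le_sum
    intro j hj
    rw [Finset.mem_Icc] at hj
    exact sum_aa_le hσ h (by omega)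
  have hlow : ∀ r ≤ n + 1, ∑ r' ∈ Finset.range r, F r' ≤ σ * Wc n σ t s lam i := by
    intro r hr
    refine le_trans (Finset.sum_le_sum_of_subset_of_nonneg ?_ ?_) htot
    · intro x hx
      rw [Finset.mem_range] at hx ⊢
      omega
    · intro x hx _
      rw [Finset.mem_range] at hx
      exact hF0 x (by omega)
  have hupp : ∀ k ≤ n + 1, ∑ k' ∈ Finset.range k, F (n + 1 - k') ≤ σ * Wc n σ t s lam i := by
    intro k hk
    have hr : ∑ k' ∈ Finset.range (n + 2), F (n + 1 - k') = ∑ r ∈ Finset.range (n + 2), F r := by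
      have := Finset.sum_range_reflect F (n + 2)
      simpa using this
    rw [← hr] at htot
    refine le_trans (Finset.sum_le_sum_of_subset_of_nonneg ?_ ?_) htot
    · intro x hx
      rw [Finset.mem_range] at hx ⊢
      omega
    · intro x hx _
      exact hF0 _ (by omega)
  have haa : ∀ r ≤ n + 1, ∀ j, a ≤ j → j ≤ b → aa t lam r j ≤ σ * Wc n σ t s lam i := by
    intro r hr j hj1 hj2
    have h3 : aa t lam r j ≤ ∑ r ∈ Finset.range (n + 2), aa t lam r j := by
      apply Finset.single_le_sum (f := fun r => aa t lam r j)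
      · intro r' hr'
        rw [Finset.mem_range] at hr'
        exact aa_nonneg h (by omega) (by omega)
      · rw [Finset.mem_range]
        omega
    have h4 := sum_aa_le hσ h (i := j) (by omega)
    have h5 := mul_le_mul_of_nonneg_left (hZS j hj1 hj2) hσ.le
    linarith
  refine ⟨hS0, ?_, ?_, ?_, ?_, ?_, ?_, ?_, ?_, ?_, ?_, ?_, ?_, ?_, ?_⟩
  · intro j _ hj
    exact h.bot j (by omega)
  · intro r hr j hj1 hj2
    have h3 := lower_sum h hρ hbN r hr j (by omega : a ≤ j) (by omega)
    have h4 := hlow r hr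
    simp only [hF] at h4
    linarith
  · intro r hr j hj1 hj2
    have h3 := upper_sum h hρ hbN (n + 1 - r) (by omega) j (by omega : a + (n + 1 - r) ≤ j)
      (by omega)
    have h4 := hupp (n + 1 - r) (by omega)
    have h5 : n + 1 - (n + 1 - r) = r := by omega
    rw [h5] at h3
    simp only [hF] at h4
    linarith
  · intro r hr j hj1 hj2
    have h3 := haa r hr j (by omega) (by omega)
    have h4 : aa t lam r j = psi (dt t r j) - lam r j := rfl
    have h5 := psi_nonneg (dt t r j)
    linarith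
  · intro r hr j _ hj2
    exact h.row r hr j (by omega)
  · intro r hr j _ hj2
    exact h.upL r hr j (by omega)
  · intro r hr j _ hj2
    exact h.upR r hr j (by omega)
  · intro r hr j _ hj2
    exact h.step r hr j (by omega)
  · intro r hr j _ hj2
    exact h.nt r hr j (by omega)
  · intro r hr j _ hj2
    exact h.ns r hr j (by omega)
  · intro r hr j _ hj2
    exact h.nl r hr j (by omega)
  · intro r hr j hj1 hj2
    exact (uu_le hσ h hr (by omega)).trans (hZS j (by omega) (by omega))
  · intro r hr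
    exact (dd_le hσ h hr (by omega)).trans (hZS i (by omega) (by omega))
  · intro j hj1 hj2
    exact (bo_le hσ h (by omega)).trans (hZS j (by omega) (by omega))

end Pool.Agent.StripTwo
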