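import Pool.Agent.StripTwo.E2_Data

/-! # Bounds of the heights by nearby slacks -/

namespace Pool.Agent.StripTwo

open Pool.Agent.StripNear

variable {n N : ℕ} {σ ρ : ℝ} {t s lam : ℕ → ℕ → ℝ}

/-- One row up: `t (r+1) j ≥ min (t r j) (t r (j+1)) - aa r j`.  If `s r j ≤ 0` then `g (s r j) ≥ 0`;
if `s r j + lam r j ≥ 0` then `g (-(s r j + lam r j)) ≥ 0`; otherwise `lam r j < 0`, and
`aa r j ≥ -lam r j ≥ s r j`, `g (s r j) ≥ -s r j`. -/
theorem step_lower (h : Q2 n N σ ρ t s lam) (hρ : ρ ≤ 1 / 40) {r j : ℕ} (hr : r ≤ n)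
    (hj : j < N) : min (t r j) (t r (j + 1)) - aa t lam r j ≤ t (r + 1) j := by
  have haa := aa_nonneg h (r := r) (i := j) (by omega) hj
  have h1 := h.upL r hr j hj.le
  have h2 := h.upR r hr j hj
  have hs := abs_le.1 (h.ns r hr j hj.le)
  have hl := abs_le.1 (h.nl r (by omega) j hj)
  have hpsi := psi_nonneg (dt t r j)
  have hm1 := min_le_left (t r j) (t r (j + 1))
  have hm2 := min_le_right (t r j) (t r (j + 1))
  by_cases c1 : s r j ≤ 0
  · have h3 := g_nonneg (s := s r j) (abs_le.2 ⟨by linarith [hs.1], by linarith⟩) c1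
    linarith
  by_cases c2 : 0 ≤ s r j + lam r j
  · have h3 := g_nonneg (s := -(s r j + lam r j))
      (abs_le.2 ⟨by linarith [hs.2, hl.2], by linarith⟩) (by linarith)
    linarith
  push Not at c1 c2
  have h3 := g_abs_le (s := s r j) (abs_le.2 ⟨by linarith, by linarith [hs.2]⟩)
  rw [abs_of_pos c1] at h3
  have h4 := (abs_le.1 h3).1
  have h5 : s r j ≤ aa t lam r j := by
    unfold aa
    linarith
  linarith

/-- One row down: `t r (j+1) ≤ max (t (r+1) (j+1)) (t (r+1) j) + aa (r+1) j`. If `s r (j+1) ≤ 0`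
use the edge to `(r+1, j+1)`; if `s r j + lam r j ≥ 0` use the edge to `(r+1, j)`; otherwise
`lam (r+1) j = (s r j + lam r j) - s r (j+1) < 0` and `aa (r+1) j ≥ -lam (r+1) j ≥ s r (j+1)`,
`t r (j+1) ≤ t (r+1) (j+1) - g (s r (j+1)) ≤ t (r+1) (j+1) + s r (j+1)`. -/
theorem step_upper (h : Q2 n N σ ρ t s lam) (hρ : ρ ≤ 1 / 40) {r j : ℕ} (hr : r ≤ n)
    (hj : j < N) :
    t r (j + 1) ≤ max (t (r + 1) (j + 1)) (t (r + 1) j) + aa t lam (r + 1) j := by
  have haa := aa_nonneg h (r := r + 1) (i := j) (by omega) hj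
  have h1 := h.upL r hr (j + 1) (by omega)
  have h2 := h.upR r hr j hj
  have hs := abs_le.1 (h.ns r hr j hj.le)
  have hs' := abs_le.1 (h.ns r hr (j + 1) (by omega))
  have hl := abs_le.1 (h.nl r (by omega) j hj)
  have hstep := h.step r hr j hj
  have hpsi := psi_nonneg (dt t (r + 1) j)
  have hm1 := le_max_left (t (r + 1) (j + 1)) (t (r + 1) j)
  have hm2 := le_max_right (t (r + 1) (j + 1)) (t (r + 1) j)
  by_cases c1 : s r (j + 1) ≤ 0
  · have h3 := g_nonneg (s := s r (j + 1)) (abs_le.2 ⟨by linarith [hs'.1], by linarith⟩) c1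
    linarith
  by_cases c2 : 0 ≤ s r j + lam r j
  · have h3 := g_nonneg (s := -(s r j + lam r j))
      (abs_le.2 ⟨by linarith [hs.2, hl.2], by linarith⟩) (by linarith)
    linarith
  push Not at c1 c2
  have h3 := g_abs_le (s := s r (j + 1)) (abs_le.2 ⟨by linarith, by linarith [hs'.2]⟩)
  rw [abs_of_pos c1] at h3
  have h4 := (abs_le.1 h3).1
  have h5 : s r (j + 1) ≤ aa t lam (r + 1) j := by
    unfold aa
    linarith
  linarith

/-- Induction on `r` from `step_lower`; each single `aa r j` with `a ≤ j ≤ b` is at most the sum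
of its row. -/
theorem lower_sum (h : Q2 n N σ ρ t s lam) (hρ : ρ ≤ 1 / 40) {a b : ℕ} (hb : b < N) :
    ∀ r ≤ n + 1, ∀ j, a ≤ j → j + r ≤ b + 1 →
      -(∑ r' ∈ Finset.range r, ∑ j' ∈ Finset.Icc a b, aa t lam r' j') ≤ t r j := by
  intro r
  induction r with
  | zero =>
    intro _ j _ hj
    have := h.bot j (by omega)
    simpa using this
  | succ r ih =>
    intro hr j haj hj
    have h1 := step_lower h hρ (r := r) (j := j) (by omega) (by omega)
    have h2 := ih (by omega) j haj (by omega)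
    have h3 := ih (by omega) (j + 1) (by omega) (by omega)
    have h4 : aa t lam r j ≤ ∑ j' ∈ Finset.Icc a b, aa t lam r j' :=
      Finset.single_le_sum (f := fun j' => aa t lam r j')
        (fun i hi => aa_nonneg h (by omega) (by rw [Finset.mem_Icc] at hi; omega))
        (Finset.mem_Icc.2 ⟨haj, by omega⟩)
    rw [Finset.sum_range_succ]
    have h5 := le_min h2 h3
    linarith

/-- Induction on `k` from `step_upper`. -/
theorem upper_sum (h : Q2 n N σ ρ t s lam) (hρ : ρ ≤ 1 / 40) {a b : ℕ} (hb : b < N) :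
    ∀ k ≤ n + 1, ∀ j, a + k ≤ j → j ≤ b + 1 →
      t (n + 1 - k) j ≤ σ + ∑ k' ∈ Finset.range k, ∑ j' ∈ Finset.Icc a b,
        aa t lam (n + 1 - k') j' := by
  intro k
  induction k with
  | zero =>
    intro _ j _ hj
    have := h.top j (by omega)
    simpa using this
  | succ k ih =>
    intro hk j haj hj
    obtain ⟨j₀, rfl⟩ : ∃ j₀, j = j₀ + 1 := ⟨j - 1, by omega⟩
    have h1 := step_upper h hρ (r := n + 1 - (k + 1)) (j := j₀) (by omega) (by omega)
    have e : n + 1 - (k + 1) + 1 = n + 1 - k := by omega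
    rw [e] at h1
    have h2 := ih (by omega) (j₀ + 1) (by omega) hj
    have h3 := ih (by omega) j₀ (by omega) (by omega)
    have h4 : aa t lam (n + 1 - k) j₀ ≤ ∑ j' ∈ Finset.Icc a b, aa t lam (n + 1 - k) j' :=
      Finset.single_le_sum (f := fun j' => aa t lam (n + 1 - k) j')
        (fun i hi => aa_nonneg h (by omega) (by rw [Finset.mem_Icc] at hi; omega))
        (Finset.mem_Icc.2 ⟨by omega, by omega⟩)
    rw [Finset.sum_range_succ]
    have h5 := max_le h2 h3
    linarith

end Pool.Agent.StripTwo
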