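import Pool.Agent.StripTwo.E3w_Def

/-! # Low points -/

namespace Pool.Agent.StripTwo

open Pool.Agent.StripNear

variable {n i : ℕ} {σ ρ S : ℝ} {t s lam : ℕ → ℕ → ℝ}

/-- Two low points: `|dt| ≤ E + S ≤ σ / 2`, so `chi = dt / σ ∈ [-1/2, 1/2]`, both weights are at
least `1/4` and `al, be ≤ 4 S`.  `g (s) - g (-(s + lam)) = dt + be - al`,
`-S ≤ lam ≤ psi dt ≤ |dt| ≤ E + S`, hence `|g (s) - g (-s)| ≤ 2 E + 6 S` and, by `g_diff_ge`,
`|s| ≤ 2 E + 6 S`.  Finally `t (r+1) j = t r j + al + g (s)`. -/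
theorem low (w : Win n σ ρ S i t s lam) (hσ : 0 < σ) (hσ1 : σ ≤ 1 / 32) (hρ : ρ ≤ 1 / 40)
    {r j : ℕ} (hr : r ≤ n) (h1 : i ≤ j) (h2 : j + r ≤ i + n + 2) {E : ℝ} (hSE : S ≤ E)
    (hE : E + S ≤ σ / 2) (hl : t r j ≤ E) (hl' : t r (j + 1) ≤ E) :
    |s r j| ≤ 2 * E + 6 * S ∧ |s r j + lam r j| ≤ 3 * E + 7 * S ∧
      t (r + 1) j ≤ 3 * E + 10 * S := by
  have hS := w.S0
  have hσS : σ * S ≤ S := by nlinarith
  have lo1 := w.lo r (by omega) j h1 (by omega)
  have lo2 := w.lo r (by omega) (j + 1) (by omega) (by omega)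
  have hd : |dt t r j| ≤ E + S := by
    unfold dt
    rw [abs_le]
    constructor <;> linarith
  have hchi : chi σ t r j = dt t r j / σ := chi_eq hσ (by linarith)
  have hc := abs_le.1 hd
  have hc1 : chi σ t r j ≤ 1 / 2 := by
    rw [hchi, div_le_iff₀ hσ]
    linarith [hc.2]
  have hc2 : -(1 / 2) ≤ chi σ t r j := by
    rw [hchi, le_div_iff₀ hσ]
    linarith [hc.1]
  have gL := w.gL r hr j (by omega) (by omega)
  have gR := w.gR r hr j (by omega) (by omega)
  have hal : 0 ≤ al t s r j := by unfold al; linarith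
  have hbe : 0 ≤ be t s lam r j := by unfold be; linarith
  have hu := w.ub r hr j h1 (by omega)
  unfold uu at hu
  have hab : al t s r j + be t s lam r j ≤ 4 * S := by
    nlinarith [mul_nonneg (sub_nonneg.2 hc1) hal, mul_nonneg (sub_nonneg.2 hc2) hbe]
  have hla := w.la r (by omega) j (by omega) (by omega)
  have hlu := w.lu r (by omega) j (by omega) (by omega)
  have hps : psi (dt t r j) ≤ |dt t r j| := psi_le_abs (by linarith)
  have hlam : |lam r j| ≤ E + S := by
    rw [abs_le]
    constructor <;> linarith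
  have hns : |s r j| ≤ 1 / 40 := (w.ns r hr j (by omega) (by omega)).trans hρ
  have hnl : |lam r j| ≤ 1 / 40 := (w.nl r (by omega) j (by omega) (by omega)).trans hρ
  have hs20 : |s r j| ≤ 1 / 20 := by linarith
  have hns20 : |-(s r j)| ≤ 1 / 20 := by rw [abs_neg]; exact hs20
  have hsl20 : |-(s r j + lam r j)| ≤ 1 / 20 := by
    rw [abs_neg]
    have := abs_add_le (s r j) (lam r j)
    linarith
  -- comparison of `g (-s)` and `g (-(s + lam))`
  have hcmp : |g (-(s r j)) - g (-(s r j + lam r j))| ≤ |lam r j| := by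
    rcases le_total 0 (lam r j) with h0 | h0
    · have a1 := g_diff_ge hsl20 hns20 (by linarith)
      have a2 := g_diff_le hsl20 hns20 (by linarith)
      rw [abs_of_nonneg h0, abs_le]
      constructor <;> linarith
    · have a1 := g_diff_ge hns20 hsl20 (by linarith)
      have a2 := g_diff_le hns20 hsl20 (by linarith)
      rw [abs_of_nonpos h0, abs_le]
      constructor <;> linarith
  have hc' := abs_le.1 hcmp
  have hlam' := abs_le.1 hlam
  have e1 : g (s r j) - g (-(s r j + lam r j)) = dt t r j + be t s lam r j - al t s r j := by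
    unfold dt be al
    ring
  have hgg : |g (s r j) - g (-(s r j))| ≤ 2 * E + 6 * S := by
    rw [abs_le]
    constructor <;> linarith [hc.1, hc.2, hc'.1, hc'.2]
  have hg' := abs_le.1 hgg
  have hs : |s r j| ≤ 2 * E + 6 * S := by
    rcases le_total 0 (s r j) with h0 | h0
    · have a1 := g_diff_ge hns20 hs20 (by linarith)
      rw [abs_of_nonneg h0]
      linarith [hg'.1]
    · have a1 := g_diff_ge hs20 hns20 (by linarith)
      rw [abs_of_nonpos h0]
      linarith [hg'.2]
  refine ⟨hs, ?_, ?_⟩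
  · have := abs_add_le (s r j) (lam r j)
    linarith
  · have h5 : t (r + 1) j = t r j + al t s r j + g (s r j) := by
      unfold al
      ring
    have h6 := (le_abs_self _).trans (g_abs_le hs20)
    linarith

end Pool.Agent.StripTwo
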