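import Pool.Agent.StripTwo.E3w_Def

/-! # Bottom row, constants of the rows -/

namespace Pool.Agent.StripTwo

open Pool.Agent.StripNear

variable {n i : ℕ} {σ ρ S : ℝ} {t s lam : ℕ → ℕ → ℝ}

/-- the slack of a bottom edge in terms of the smaller height `m` and the difference `Δ` -/
private theorem E4c_bo {j : ℕ} (hσ : 0 < σ) :
    (|dt t 0 j| ≤ σ ∧ bo σ t j = min (t 0 j) (t 0 (j + 1)) + |dt t 0 j| * (σ - |dt t 0 j|) / (2 * σ)) ∨
      (σ < |dt t 0 j| ∧ bo σ t j = min (t 0 j) (t 0 (j + 1))) := by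
  have hmin : min (t 0 j) (t 0 (j + 1)) = (t 0 j + t 0 (j + 1) - |dt t 0 j|) / 2 := by
    unfold dt
    rcases le_total (t 0 j) (t 0 (j + 1)) with h | h
    · rw [min_eq_left h, abs_of_nonneg (by linarith)]
      ring
    · rw [min_eq_right h, abs_of_nonpos (by linarith)]
      ring
  rcases le_or_gt (|dt t 0 j|) σ with h | h
  · left
    refine ⟨h, ?_⟩
    unfold bo
    rw [chi_eq hσ h, hmin]
    have h1 : |dt t 0 j| * |dt t 0 j| = dt t 0 j * dt t 0 j := abs_mul_abs_self _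
    have h2 : |dt t 0 j| * (σ - |dt t 0 j|) / (2 * σ) =
        |dt t 0 j| / 2 - dt t 0 j * dt t 0 j / (2 * σ) := by
      rw [mul_sub, h1]
      field_simp
    rw [h2]
    field_simp
    ring
  · right
    refine ⟨h, ?_⟩
    have h1 : chi σ t 0 j * dt t 0 j = |dt t 0 j| := by
      unfold chi
      rcases lt_or_ge (dt t 0 j) 0 with h0 | h0
      · rw [abs_of_neg h0] at h ⊢
        have h3 : dt t 0 j / σ ≤ -1 := by
          rw [div_le_iff₀ hσ]
          linarith
        rw [min_eq_right (by linarith), max_eq_left h3]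
        ring
      · rw [abs_of_nonneg h0] at h ⊢
        have h3 : 1 ≤ dt t 0 j / σ := by
          rw [le_div_iff₀ hσ]
          linarith
        rw [min_eq_left h3, max_eq_right (by norm_num)]
        ring
    unfold bo
    rw [h1, hmin]
    ring

/-- Bottom row: with `m = min`, `M = max` of the two heights and `Δ = M - m`:
`bo = m + Δ (σ - Δ) / (2 σ)` if `Δ ≤ σ` and `bo = m` if `Δ > σ`. So `m ≤ S`, and `Δ ≤ 4 S` or
`σ - Δ ≤ 4 S`. -/
theorem bottom (w : Win n σ ρ S i t s lam) (hσ : 0 < σ) (hS : 8 * S ≤ σ) {j : ℕ}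
    (h1 : i ≤ j) (h2 : j ≤ i + n + 2) :
    (t 0 j ≤ 5 * S ∨ σ - 5 * S ≤ t 0 j) ∧ (t 0 (j + 1) ≤ 5 * S ∨ σ - 5 * S ≤ t 0 (j + 1)) := by
  have hS0 := w.S0
  have ha := w.b0 j h1 (by omega)
  have hb := w.b0 (j + 1) (by omega) (by omega)
  have hbb := w.bb j h1 h2
  have key : min (t 0 j) (t 0 (j + 1)) ≤ S ∧ (|dt t 0 j| ≤ 4 * S ∨ σ - 4 * S ≤ |dt t 0 j|) := by
    rcases E4c_bo (t := t) (j := j) hσ with ⟨h3, h4⟩ | ⟨h3, h4⟩
    · rw [h4] at hbb
      have h5 : 0 ≤ min (t 0 j) (t 0 (j + 1)) := le_min ha hb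
      have h6 : 0 ≤ |dt t 0 j| * (σ - |dt t 0 j|) / (2 * σ) :=
        div_nonneg (mul_nonneg (abs_nonneg _) (by linarith)) (by linarith)
      have h7 : |dt t 0 j| * (σ - |dt t 0 j|) ≤ S * (2 * σ) := by
        rw [← div_le_iff₀ (by linarith)]
        linarith
      refine ⟨by linarith, ?_⟩
      rcases le_or_gt (|dt t 0 j|) (σ / 2) with h8 | h8
      · left
        have h9 : |dt t 0 j| * (σ / 2) ≤ |dt t 0 j| * (σ - |dt t 0 j|) :=
          mul_le_mul_of_nonneg_left (by linarith) (abs_nonneg _)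
        have h10 : |dt t 0 j| * σ ≤ (4 * S) * σ := by linarith
        exact le_of_mul_le_mul_right h10 hσ
      · right
        have h9 : (σ / 2) * (σ - |dt t 0 j|) ≤ |dt t 0 j| * (σ - |dt t 0 j|) :=
          mul_le_mul_of_nonneg_right h8.le (by linarith)
        have h10 : (σ - |dt t 0 j|) * σ ≤ (4 * S) * σ := by linarith
        have h11 := le_of_mul_le_mul_right h10 hσ
        linarith
    · rw [h4] at hbb
      exact ⟨hbb, Or.inr (by linarith)⟩
  obtain ⟨k1, k2⟩ := key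
  unfold dt at k2
  rcases le_total (t 0 j) (t 0 (j + 1)) with h | h
  · rw [min_eq_left h] at k1
    rw [abs_of_nonneg (by linarith)] at k2
    refine ⟨Or.inl (by linarith), ?_⟩
    rcases k2 with k2 | k2
    · left
      linarith
    · right
      linarith
  · rw [min_eq_right h] at k1
    rw [abs_of_nonpos (by linarith)] at k2
    refine ⟨?_, Or.inl (by linarith)⟩
    rcases k2 with k2 | k2
    · left
      linarith
    · right
      linarith

/-- The constants of the rows. -/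
noncomputable def ee (r : ℕ) : ℝ := 11 * 3 ^ r - 6

theorem ee_zero : ee 0 = 5 := by
  unfold ee
  norm_num

/-- `3 ee r + 10 ≤ ee (r + 1)`. -/
theorem ee_succ (r : ℕ) : 3 * ee r + 10 ≤ ee (r + 1) := by
  unfold ee
  rw [pow_succ]
  linarith

theorem ee_ge (r : ℕ) : 5 ≤ ee r := by
  unfold ee
  have h : (1 : ℝ) ≤ 3 ^ r := one_le_pow₀ (by norm_num)
  linarith

/-- `ee r ≤ 11 * 3 ^ (n + 1) - 6` for `r ≤ n + 1`. -/
theorem ee_le {r : ℕ} (hr : r ≤ n + 1) : ee r ≤ 11 * 3 ^ (n + 1) - 6 := by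
  unfold ee
  have h : (3 : ℝ) ^ r ≤ 3 ^ (n + 1) := pow_le_pow_right₀ (by norm_num) hr
  linarith

end Pool.Agent.StripTwo
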