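import Pool.Agent.StripTwo.E4a_High
import Pool.Agent.StripTwo.E4b_Low
import Pool.Agent.StripTwo.E4c_Bottom

/-! # High and low points -/

namespace Pool.Agent.StripTwo

open Pool.Agent.StripNear

variable {n i : ℕ} {σ ρ S : ℝ} {t s lam : ℕ → ℕ → ℝ}

/-- Every point is high or low: induction on the row (`bottom`, `high`, `low`).  The hypothesis
gives `8 S ≤ σ` and `ee r * S + S ≤ σ / 2` for `r ≤ n`. -/
theorem dich (w : Win n σ ρ S i t s lam) (hσ : 0 < σ) (hσ1 : σ ≤ 1 / 32) (hρ : ρ ≤ 1 / 40)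
    (hi : 1 ≤ i) (hS : 44 * 3 ^ (n + 1) * S ≤ σ) :
    ∀ r ≤ n + 1, ∀ j, i ≤ j → j + r ≤ i + n + 3 →
      t r j ≤ ee r * S ∨ σ - ee r * S ≤ t r j := by
  have hS0 := w.S0
  have h3 : (3 : ℝ) ≤ 3 ^ (n + 1) := by
    have h : (1 : ℝ) ≤ 3 ^ n := one_le_pow₀ (by norm_num)
    rw [pow_succ]
    linarith
  have h3S : 3 * S ≤ 3 ^ (n + 1) * S := mul_le_mul_of_nonneg_right h3 hS0
  have h8 : 8 * S ≤ σ := by linarith
  intro r
  induction r with
  | zero =>
    intro _ j hj1 hj2
    rw [ee_zero]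
    rcases Nat.lt_or_ge (i + n + 2) j with h | h
    · obtain ⟨j', rfl⟩ : ∃ j', j = j' + 1 := ⟨j - 1, by omega⟩
      exact (bottom w hσ h8 (by omega) (by omega)).2
    · exact (bottom w hσ h8 hj1 h).1
  | succ r ih =>
    intro hr j hj1 hj2
    have ih' := ih (by omega)
    have he := ee_ge r
    have hs := ee_succ r
    have hE : 0 ≤ ee r * S := mul_nonneg (by linarith) hS0
    have hsS : (3 * ee r + 10) * S ≤ ee (r + 1) * S := mul_le_mul_of_nonneg_right hs hS0
    have hhigh : ∀ x : ℝ, σ - (3 * (ee r * S) + 3 * S) ≤ x → σ - ee (r + 1) * S ≤ x := by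
      intro x hx
      linarith
    rcases ih' (j + 1) (by omega) (by omega) with h1 | h1
    · rcases ih' j hj1 (by omega) with h2 | h2
      · left
        have hSE : S ≤ ee r * S := by
          have : 1 * S ≤ ee r * S := mul_le_mul_of_nonneg_right (by linarith) hS0
          linarith
        have hle := mul_le_mul_of_nonneg_right (ee_le (n := n) (show r ≤ n + 1 by omega)) hS0
        have h := (low w hσ hσ1 hρ (show r ≤ n by omega) hj1 (by omega) hSE (by linarith) h2 h1).2.2
        linarith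
      · right
        obtain ⟨j', rfl⟩ : ∃ j', j = j' + 1 := ⟨j - 1, by omega⟩
        exact hhigh _ (high w hσ hσ1 hρ (show r ≤ n by omega) (by omega) (by omega) hE h2).2.2.1
    · right
      exact hhigh _ (high w hσ hσ1 hρ (show r ≤ n by omega) (by omega) (by omega) hE h1).2.2.2

end Pool.Agent.StripTwo
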