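import Pool.Agent.StripTwo.E3w_Def

/-! # High points -/

namespace Pool.Agent.StripTwo

open Pool.Agent.StripNear

variable {n i : ℕ} {σ ρ S : ℝ} {t s lam : ℕ → ℕ → ℝ}

/-- A high point forces small offsets and high upper neighbours.
`g (s r (j+1)) ≤ t (r+1) (j+1) - t r (j+1) ≤ E + σ S ≤ E + S`, so `s r (j+1) ≥ -2 (E + S)`
(`g_diff_ge` with `0`); `g (-(s r j + lam r j)) ≤ t (r+1) j - t r (j+1) ≤ E + S`, so
`s r j + lam r j ≤ 2 (E + S)`; and `s r (j+1) = (s r j + lam r j) - lam (r+1) j` with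
`lam (r+1) j ≥ -σ S ≥ -S`.  The last two claims: `gL`, `gR` and `|g x| ≤ |x|`. -/
theorem high (w : Win n σ ρ S i t s lam) (hσ : 0 < σ) (hσ1 : σ ≤ 1 / 32) (hρ : ρ ≤ 1 / 40)
    {r j : ℕ} (hr : r ≤ n) (h1 : i ≤ j + 1) (h2 : j ≤ i + n + 2) {E : ℝ} (hE : 0 ≤ E)
    (hh : σ - E ≤ t r (j + 1)) :
    |s r (j + 1)| ≤ 2 * E + 3 * S ∧ |s r j + lam r j| ≤ 2 * E + 3 * S ∧
      σ - (3 * E + 3 * S) ≤ t (r + 1) (j + 1) ∧ σ - (3 * E + 3 * S) ≤ t (r + 1) j := by
  have hS := w.S0
  have hσS : 0 ≤ σ * S := mul_nonneg hσ.le hS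
  have hσS' : σ * S ≤ S / 32 := by nlinarith
  have gL := w.gL r hr (j + 1) (by omega) (by omega)
  have up1 := w.up (r + 1) (by omega) (j + 1) (by omega) (by omega)
  have gR := w.gR r hr j (by omega) (by omega)
  have up2 := w.up (r + 1) (by omega) j (by omega) (by omega)
  have hst := w.st r hr j (by omega) (by omega)
  have hla := w.la (r + 1) (by omega) j (by omega) (by omega)
  have ns1 := w.ns r hr (j + 1) (by omega) (by omega)
  have ns2 := w.ns r hr j (by omega) (by omega)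
  have nl2 := w.nl r (by omega) j (by omega) (by omega)
  have ha : |s r (j + 1)| ≤ 1 / 20 := by linarith
  have hx : |s r j + lam r j| ≤ 1 / 20 := by
    have := abs_add_le (s r j) (lam r j)
    linarith
  have hz : |(0 : ℝ)| ≤ 1 / 20 := by norm_num
  have lower : -(2 * (E + σ * S)) ≤ s r (j + 1) := by
    rcases le_total (s r (j + 1)) 0 with h | h
    · have := g_diff_ge ha hz h
      rw [g_zero] at this
      linarith
    · linarith
  have hx' : |-(s r j + lam r j)| ≤ 1 / 20 := by rwa [abs_neg]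
  have upper : s r j + lam r j ≤ 2 * (E + σ * S) := by
    rcases le_total (s r j + lam r j) 0 with h | h
    · linarith
    · have := g_diff_ge hx' hz (by linarith)
      rw [g_zero] at this
      linarith
  have A1 : |s r (j + 1)| ≤ 2 * E + 3 * (σ * S) := by
    rw [abs_le]; constructor <;> linarith
  have A2 : |s r j + lam r j| ≤ 2 * E + 3 * (σ * S) := by
    rw [abs_le]; constructor <;> linarith
  have B1 := g_abs_le ha
  have B2 := g_abs_le hx'
  rw [abs_neg] at B2
  rw [abs_le] at B1 B2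
  refine ⟨by linarith, by linarith, by linarith, by linarith⟩

end Pool.Agent.StripTwo
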