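import Pool.Agent.StripTwo.E4_Dich
import Pool.Agent.StripTwo.E5p_Def

/-! # First penalty inequality -/

namespace Pool.Agent.StripTwo

open Pool.Agent.StripNear

variable {n i : ℕ} {σ ρ S : ℝ} {t s lam : ℕ → ℕ → ℝ}

/-- Small slack, first inequality.  Both points low or both high: `|dt| ≤ E + S` with
`E = ee r * S`; one low and one high: `σ - |dt| ≤ 2 E`. -/
theorem pen1_small (w : Win n σ ρ S i t s lam) (hσ : 0 < σ) (hσ1 : σ ≤ 1 / 32) (hρ : ρ ≤ 1 / 40)
    (hi : 1 ≤ i) (hS : 44 * 3 ^ (n + 1) * S ≤ σ) {r : ℕ} (hr : r ≤ n + 1)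
    (hd : |dt t r i| ≤ σ) : |dt t r i| * (σ - |dt t r i|) ≤ CP n * σ * S := by
  have hS0 := w.S0
  have hdi := dich w hσ hσ1 hρ hi hS r hr i le_rfl (by omega)
  have hdi1 := dich w hσ hσ1 hρ hi hS r hr (i + 1) (by omega) (by omega)
  have a3 := w.lo r hr i le_rfl (by omega)
  have a4 := w.lo r hr (i + 1) (by omega) (by omega)
  have a5 := w.up r hr i (by omega) (by omega)
  have a6 := w.up r hr (i + 1) (by omega) (by omega)
  have hσS : σ * S ≤ S := by nlinarith
  have hee := ee_le hr
  have hee5 := ee_ge r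
  set E : ℝ := ee r * S with hE
  have hE0 : 0 ≤ E := by positivity
  have hpow : (1 : ℝ) ≤ 3 ^ (n + 1) := one_le_pow₀ (by norm_num)
  have hEle : E ≤ (11 * 3 ^ (n + 1) - 6) * S := mul_le_mul_of_nonneg_right hee hS0
  have hES : E + S ≤ CP n * S := by
    unfold CP
    nlinarith
  have h2E : 2 * E ≤ CP n * S := by
    unfold CP
    nlinarith
  have habs0 := abs_nonneg (dt t r i)
  have key1 : |dt t r i| ≤ E + S → |dt t r i| * (σ - |dt t r i|) ≤ CP n * σ * S := by
    intro h
    calc |dt t r i| * (σ - |dt t r i|) ≤ |dt t r i| * σ :=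
          mul_le_mul_of_nonneg_left (by linarith) habs0
      _ ≤ (CP n * S) * σ := mul_le_mul_of_nonneg_right (h.trans hES) hσ.le
      _ = CP n * σ * S := by ring
  have key2 : σ - |dt t r i| ≤ 2 * E → |dt t r i| * (σ - |dt t r i|) ≤ CP n * σ * S := by
    intro h
    calc |dt t r i| * (σ - |dt t r i|) ≤ σ * (σ - |dt t r i|) :=
          mul_le_mul_of_nonneg_right hd (by linarith)
      _ ≤ σ * (CP n * S) := mul_le_mul_of_nonneg_left (h.trans h2E) hσ.le
      _ = CP n * σ * S := by ring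
  rcases hdi with h1 | h1 <;> rcases hdi1 with h2 | h2
  · apply key1
    unfold dt
    rw [abs_le]
    constructor <;> linarith
  · apply key2
    have h3 := le_abs_self (dt t r i)
    unfold dt at h3 ⊢
    linarith
  · apply key2
    have h3 := neg_abs_le (dt t r i)
    unfold dt at h3 ⊢
    linarith
  · apply key1
    unfold dt
    rw [abs_le]
    constructor <;> linarith

end Pool.Agent.StripTwo
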