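import Pool.Agent.StripTwo.E1b_Kap
import Pool.Agent.StripTwo.E2_Data

/-! # Cell inequalities: definitions, bottom and top -/

namespace Pool.Agent.StripTwo

open Pool.Agent.StripNear

variable {n N : ℕ} {σ ρ : ℝ} {t s lam : ℕ → ℕ → ℝ}

/-- Error term of the excess `ze`. -/
noncomputable def ez (σ : ℝ) (t : ℕ → ℕ → ℝ) (r i : ℕ) : ℝ := ze σ t r i + ze σ t r i ^ 2 / σ

/-- Error terms of the up triangle. -/
noncomputable def eU (σ : ℝ) (t s lam : ℕ → ℕ → ℝ) (r i : ℕ) : ℝ :=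
  ez σ t r i
    + ((1 - chi σ t r i) / 2 * s r i ^ 2 + (1 + chi σ t r i) / 2 * (s r i + lam r i) ^ 2)
    + ze σ t r i / σ * (|s r i| + |s r i + lam r i|)

/-- Error terms of the down triangle. -/
noncomputable def eD (σ : ℝ) (t s lam : ℕ → ℕ → ℝ) (r i : ℕ) : ℝ :=
  ez σ t (r + 1) i
    + ((1 + chi σ t (r + 1) i) / 2 * (s r i + lam r i) ^ 2
      + (1 - chi σ t (r + 1) i) / 2 * s r (i + 1) ^ 2)
    + ze σ t (r + 1) i / σ * (|s r i + lam r i| + |s r (i + 1)|)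

/-- Cross terms of the up triangle. -/
noncomputable def cU (σ : ℝ) (t lam : ℕ → ℕ → ℝ) (r i : ℕ) : ℝ :=
  lam r i * (1 - (t r i + t r (i + 1)) / σ) / 2 + lam (r + 1) i * (t r (i + 1) / σ)

/-- Cross terms of the down triangle. -/
noncomputable def cD (σ : ℝ) (t lam : ℕ → ℕ → ℝ) (r i : ℕ) : ℝ :=
  lam r i * (1 - t (r + 1) i / σ)
    - lam (r + 1) i * (1 - (t (r + 1) i + t (r + 1) (i + 1)) / σ) / 2

/-- `kap σ * lam = kap σ * psi (dt) - kap σ * aa`, `kap_psi`, `kap_ge`. -/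
theorem kap_lam (hσ : 0 < σ) (hσ1 : σ ≤ 1 / 32) (hρ : ρ ≤ 1 / 40) (h : Q2 n N σ ρ t s lam)
    {r i : ℕ} (hr : r ≤ n + 1) (hi : i < N) :
    kap σ * lam r i ≤ chi σ t r i * dt t r i / 2 + ez σ t r i - aa t lam r i / (2 * σ) := by
  have h1 := h.nt r hr i hi.le
  have h2 := h.nt r hr (i + 1) hi
  rw [abs_le] at h1 h2
  have hv : |dt t r i| ≤ 1 / 10 := by
    unfold dt
    rw [abs_le]
    constructor <;> linarith
  have h3 := kap_psi hσ hσ1 hv
  have h4 := kap_ge hσ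
  have h5 := aa_nonneg h hr hi
  have h6 : 1 / (2 * σ) * aa t lam r i ≤ kap σ * aa t lam r i := mul_le_mul_of_nonneg_right h4 h5
  have h7 : lam r i = psi (dt t r i) - aa t lam r i := by
    unfold aa
    ring
  have h8 : kap σ * lam r i = kap σ * psi (dt t r i) - kap σ * aa t lam r i := by
    rw [h7]
    unfold aa
    ring
  have h9 : 1 / (2 * σ) * aa t lam r i = aa t lam r i / (2 * σ) := by ring
  unfold ez chi ze
  rw [h8]
  linarith

/-- `|dt / σ - chi| = ze / σ`. -/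
theorem dt_chi (hσ : 0 < σ) (r i : ℕ) : |dt t r i / σ - chi σ t r i| = ze σ t r i / σ := by
  unfold chi ze
  rcases le_total (|dt t r i|) σ with h | h
  · obtain ⟨h1, h2⟩ := abs_le.1 h
    have h3 : dt t r i / σ ≤ 1 := by
      rw [div_le_iff₀ hσ]
      linarith
    have h4 : -1 ≤ dt t r i / σ := by
      rw [le_div_iff₀ hσ]
      linarith
    rw [min_eq_right h3, max_eq_right h4, max_eq_left (by linarith)]
    simp
  · rw [max_eq_right (by linarith : 0 ≤ |dt t r i| - σ)]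
    rcases le_total 0 (dt t r i) with h0 | h0
    · rw [abs_of_nonneg h0] at h ⊢
      have h3 : 1 ≤ dt t r i / σ := by
        rw [le_div_iff₀ hσ]
        linarith
      rw [min_eq_left h3, max_eq_right (by norm_num), abs_of_nonneg (by linarith)]
      field_simp
    · rw [abs_of_nonpos h0] at h ⊢
      have h3 : dt t r i / σ ≤ -1 := by
        rw [div_le_iff₀ hσ]
        linarith
      rw [min_eq_right (by linarith), max_eq_left h3, abs_of_nonpos (by linarith)]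
      field_simp
      ring

theorem cellB (hσ : 0 < σ) (hσ1 : σ ≤ 1 / 32) (hρ : ρ ≤ 1 / 40) (h : Q2 n N σ ρ t s lam)
    {i : ℕ} (hi : i < N) :
    kap σ * lam 0 i ≤ (t 0 i + t 0 (i + 1)) / 2 - bo σ t i - aa t lam 0 i / (2 * σ)
      + ez σ t 0 i := by
  have h1 := kap_lam hσ hσ1 hρ h (Nat.zero_le (n + 1)) hi
  unfold bo
  linarith

theorem cellT (hσ : 0 < σ) (hσ1 : σ ≤ 1 / 32) (hρ : ρ ≤ 1 / 40) (h : Q2 n N σ ρ t s lam)
    {i : ℕ} (hi : i < N) :
    kap σ * lam (n + 1) i ≤ σ - (t (n + 1) i + t (n + 1) (i + 1)) / 2 - te n σ t i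
      - aa t lam (n + 1) i / (2 * σ) + ez σ t (n + 1) i := by
  have h1 := kap_lam hσ hσ1 hρ h (le_refl (n + 1)) hi
  unfold te
  linarith

end Pool.Agent.StripTwo
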