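import Pool.Agent.StripTwo.E6a_Cell

/-! # Up triangles -/

namespace Pool.Agent.StripTwo

open Pool.Agent.StripNear

variable {n N : ℕ} {σ ρ : ℝ} {t s lam : ℕ → ℕ → ℝ}

/-- Up triangle.  With `θ = (1 - chi) / 2`:
`t (r+1) i - (t r i + t r (i+1)) / 2 - chi dt / 2 = uu + θ g (s) + (1 - θ) g (-(s + lam))`
(exact), `θ g (s) + (1-θ) g (-(s+lam)) ≥ (1/(2 h0)) (lam / 2 + (chi / 2) (2 s + lam)) - squares`
(`g_lower`), `(chi / 2)(2 s + lam) ≥ (dt / (2 σ)) (2 s + lam) - (ze / (2 σ)) (|s| + |s + lam|)`,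
and by `step` exactly
`(dt / (2 σ)) (2 s + lam) = (t r (i+1) s r (i+1) - t r i s r i) / σ
  + (t r (i+1) / σ) (lam (r+1) i - lam r i / 2) - (t r i / σ) (lam r i / 2)`. -/
theorem cellU (hσ : 0 < σ) (hσ1 : σ ≤ 1 / 32) (hρ : ρ ≤ 1 / 40) (h : Q2 n N σ ρ t s lam)
    {r i : ℕ} (hr : r ≤ n) (hi : i < N) :
    kap σ * lam r i ≤ t (r + 1) i - (t r i + t r (i + 1)) / 2
      - (1 / (2 * h0)) * ((t r (i + 1) / σ) * s r (i + 1) - (t r i / σ) * s r i)
      - uu σ t s lam r i - aa t lam r i / (2 * σ) + (eU σ t s lam r i - cU σ t lam r i / (2 * h0))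
      := by
  have hk := kap_lam hσ hσ1 hρ h (r := r) (i := i) (by omega) hi
  have hd := dt_chi (t := t) hσ r i
  have hc1 := chi_le σ t r i
  have hc2 := le_chi σ t r i
  have hS := h.ns r hr i hi.le
  have hL := h.nl r (by omega) i hi
  have hst := h.step r hr i hi
  have hp : 0 < h0 := h0_pos
  have hlow : 1 / 2 ≤ h0 := by
    have := h0_sq
    nlinarith
  have hze := ze_nonneg σ t r i
  have hS' : |s r i| ≤ 1 / 20 := by linarith
  have hSL : |s r i + lam r i| ≤ 1 / 20 := by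
    have := abs_add_le (s r i) (lam r i)
    linarith
  have g1 := g_lower hS'
  have g2 := g_lower (s := -(s r i + lam r i)) (by rw [abs_neg]; exact hSL)
  unfold eU cU uu al be
  have hdt : dt t r i = t r (i + 1) - t r i := rfl
  rw [hst]
  rw [hdt] at hk hd
  generalize g (s r i) = G1 at *
  generalize g (-(s r i + lam r i)) = G2 at *
  generalize chi σ t r i = χ at *
  generalize ez σ t r i = E at *
  generalize ze σ t r i = ζ at *
  generalize aa t lam r i = a at *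
  generalize kap σ = κ at *
  generalize lam (r + 1) i = L' at *
  generalize lam r i = L at *
  generalize s r i = S at *
  generalize t (r + 1) i = T' at *
  generalize t r (i + 1) = T1 at *
  generalize t r i = T0 at *
  set H : ℝ := 1 / (2 * h0) with hH
  have hH0 : 0 < H := by positivity
  have hH1 : H ≤ 1 := by
    rw [hH, div_le_one (by positivity)]
    linarith
  have e1 : -S / (2 * h0) = -S * H := by rw [hH]; ring
  have e2 : -(-(S + L)) / (2 * h0) = (S + L) * H := by rw [hH]; ring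
  rw [e1] at g1
  rw [e2] at g2
  have m1 : (1 - χ) / 2 * (-S * H - S ^ 2) ≤ (1 - χ) / 2 * G1 :=
    mul_le_mul_of_nonneg_left g1 (by linarith)
  have m2 : (1 + χ) / 2 * ((S + L) * H - (-(S + L)) ^ 2) ≤ (1 + χ) / 2 * G2 :=
    mul_le_mul_of_nonneg_left g2 (by linarith)
  have hA : 0 ≤ |S| + |S + L| := by positivity
  have hZ : 0 ≤ ζ / σ := div_nonneg hze hσ.le
  have k1 : ((T1 - T0) / σ - χ) * (2 * S + L) ≤ ζ / σ * (|S| + |S + L|) := by
    calc ((T1 - T0) / σ - χ) * (2 * S + L) ≤ |((T1 - T0) / σ - χ) * (2 * S + L)| := le_abs_self _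
      _ = |(T1 - T0) / σ - χ| * |2 * S + L| := abs_mul _ _
      _ ≤ ζ / σ * (|S| + |S + L|) := by
          rw [hd]
          apply mul_le_mul_of_nonneg_left _ hZ
          have : 2 * S + L = S + (S + L) := by ring
          rw [this]
          exact abs_add_le _ _
  have k2 : H * (((T1 - T0) / σ - χ) * (2 * S + L) / 2) ≤ ζ / σ * (|S| + |S + L|) := by
    have hZA : 0 ≤ ζ / σ * (|S| + |S + L|) := mul_nonneg hZ hA
    calc H * (((T1 - T0) / σ - χ) * (2 * S + L) / 2) ≤ H * (ζ / σ * (|S| + |S + L|)) := by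
          apply mul_le_mul_of_nonneg_left _ hH0.le
          linarith
      _ ≤ 1 * (ζ / σ * (|S| + |S + L|)) := mul_le_mul_of_nonneg_right hH1 hZA
      _ = _ := one_mul _
  have e3 : (L * (1 - (T0 + T1) / σ) / 2 + L' * (T1 / σ)) / (2 * h0)
      = H * (L * (1 - (T0 + T1) / σ) / 2 + L' * (T1 / σ)) := by rw [hH]; ring
  rw [e3]
  have e4 : H * ((T1 / σ) * (S + L - L') - (T0 / σ) * S)
      + H * (L * (1 - (T0 + T1) / σ) / 2 + L' * (T1 / σ))
      = H * (L / 2 + (T1 - T0) / σ * (2 * S + L) / 2) := by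
    field_simp
    ring
  have e5 : (1 - χ) / 2 * (-S * H - S ^ 2) + (1 + χ) / 2 * ((S + L) * H - (-(S + L)) ^ 2)
      = H * (L / 2 + χ * (2 * S + L) / 2) - ((1 - χ) / 2 * S ^ 2 + (1 + χ) / 2 * (S + L) ^ 2) := by
    ring
  have e6 : H * (((T1 - T0) / σ - χ) * (2 * S + L) / 2)
      = H * (L / 2 + (T1 - T0) / σ * (2 * S + L) / 2) - H * (L / 2 + χ * (2 * S + L) / 2) := by ring
  have e7 : (1 - χ) / 2 * (T' - T0 - G1) + (1 + χ) / 2 * (T' - T1 - G2)
      = T' - (T0 + T1) / 2 - χ * (T1 - T0) / 2 - ((1 - χ) / 2 * G1 + (1 + χ) / 2 * G2) := by ring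
  linarith

end Pool.Agent.StripTwo
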