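import Pool.Agent.StripTwo.E5p_Def
import Pool.Agent.StripTwo.E7d_Def

/-! # Error terms of an interior column -/

namespace Pool.Agent.StripTwo

open Pool.Agent.StripNear

variable {n i : ℕ} {σ ρ S : ℝ} {t s lam : ℕ → ℕ → ℝ}

/-- `|dt r i| ≤ σ + 2 σ S` and `≤ 2 ρ`, so `ze ≤ 2 σ S` and `ze² / σ ≤ 2 S * ze ≤ 4 ρ S`. -/
theorem ze_le (w : Win n σ ρ S i t s lam) (hσ : 0 < σ) {r : ℕ} (hr : r ≤ n + 1) :
    ze σ t r i ≤ 2 * σ * S := by
  have h0 := mul_nonneg hσ.le w.S0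
  have h1 := w.lo r hr i le_rfl (by omega)
  have h2 := w.lo r hr (i + 1) (by omega) (by omega)
  have h3 := w.up r hr i (by omega) (by omega)
  have h4 := w.up r hr (i + 1) (by omega) (by omega)
  have h5 : |dt t r i| ≤ σ + 2 * σ * S := by
    unfold dt
    rw [abs_le]
    constructor <;> nlinarith
  unfold ze
  apply max_le
  · nlinarith
  · linarith

private theorem E8_ze_rho (w : Win n σ ρ S i t s lam) (hσ : 0 < σ) {r : ℕ} (hr : r ≤ n + 1) :
    0 ≤ ρ ∧ ze σ t r i ≤ 2 * ρ := by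
  have h1 := w.nt r hr i (by omega) (by omega)
  have h2 := w.nt r hr (i + 1) (by omega) (by omega)
  have h3 : 0 ≤ ρ := le_trans (abs_nonneg _) h1
  refine ⟨h3, ?_⟩
  have h5 : |dt t r i| ≤ 2 * ρ := by
    unfold dt
    rw [abs_le] at h1 h2 ⊢
    constructor <;> linarith [h1.1, h1.2, h2.1, h2.2]
  unfold ze
  apply max_le
  · linarith
  · linarith

private theorem E8_ze_div (w : Win n σ ρ S i t s lam) (hσ : 0 < σ) {r : ℕ} (hr : r ≤ n + 1) :
    ze σ t r i / σ ≤ 2 * S := by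
  rw [div_le_iff₀ hσ]
  have := ze_le w hσ hr
  linarith

theorem ez_le (w : Win n σ ρ S i t s lam) (hσ : 0 < σ) {r : ℕ} (hr : r ≤ n + 1) :
    ez σ t r i ≤ 4 * (σ + ρ) * S := by
  obtain ⟨hρ, h1⟩ := E8_ze_rho w hσ hr
  have h2 := E8_ze_div w hσ hr
  have h3 := ze_le w hσ hr
  have h4 := ze_nonneg σ t r i
  have hS := w.S0
  have h5 : ze σ t r i ^ 2 / σ = ze σ t r i * (ze σ t r i / σ) := by ring
  have h6 : ze σ t r i * (ze σ t r i / σ) ≤ (2 * ρ) * (2 * S) :=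
    mul_le_mul h1 h2 (div_nonneg h4 hσ.le) (by linarith)
  unfold ez
  rw [h5]
  have h7 := mul_nonneg hσ.le hS
  nlinarith

private theorem E8_sq {x c : ℝ} (h : |x| ≤ c) {a : ℝ} (ha : 0 ≤ a) :
    a * x ^ 2 ≤ c * (a * |x|) := by
  have h1 : x ^ 2 = |x| * |x| := by rw [← sq, sq_abs]
  rw [h1]
  have h2 : a * (|x| * |x|) = |x| * (a * |x|) := by ring
  rw [h2]
  exact mul_le_mul_of_nonneg_right h (mul_nonneg ha (abs_nonneg _))

private theorem E8_main {σ ρ S C e z a b x y : ℝ} (hσ : 0 < σ) (hρ : 0 ≤ ρ) (hS : 0 ≤ S)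
    (hC : 0 ≤ C) (he : e ≤ 4 * (σ + ρ) * S) (hz : z ≤ 2 * S) (ha : 0 ≤ a)
    (hb : 0 ≤ b) (hx : |x| ≤ 2 * ρ) (hy : |y| ≤ 2 * ρ) (hxy : |x| + |y| ≤ 3 * ρ)
    (hp : a * |x| + b * |y| ≤ C * S) :
    e + (a * x ^ 2 + b * y ^ 2) + z * (|x| + |y|) ≤ (2 * C + 10) * (σ + ρ) * S := by
  have h1 := E8_sq hx ha
  have h2 := E8_sq hy hb
  have h3 : z * (|x| + |y|) ≤ (2 * S) * (3 * ρ) :=
    mul_le_mul hz hxy (add_nonneg (abs_nonneg _) (abs_nonneg _)) (by linarith)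
  have h4 : (2 * ρ) * (a * |x| + b * |y|) ≤ (2 * ρ) * (C * S) :=
    mul_le_mul_of_nonneg_left hp (by linarith)
  have h5 : 0 ≤ C * σ * S := mul_nonneg (mul_nonneg hC hσ.le) hS
  have h6 : 0 ≤ σ * S := mul_nonneg hσ.le hS
  nlinarith

private theorem E8_CP (n : ℕ) : 0 ≤ CP n := by
  unfold CP
  positivity

/-- The squares: `|s r i| ≤ ρ`, `|s r i + lam r i| ≤ 2 ρ` and `Pen.p2`; the last term of `eU`:
`ze / σ ≤ 2 S`. -/
theorem eU_le (w : Win n σ ρ S i t s lam) (p : Pen n σ S i t s lam) (hσ : 0 < σ) {r : ℕ}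
    (hr : r ≤ n) : eU σ t s lam r i ≤ (2 * CP n + 10) * (σ + ρ) * S := by
  obtain ⟨hρ, _⟩ := E8_ze_rho w hσ (show r ≤ n + 1 by omega)
  have h1 := w.ns r hr i (by omega) (by omega)
  have h2 := w.nl r (by omega) i (by omega) (by omega)
  have h3 : |s r i + lam r i| ≤ 2 * ρ := by
    refine le_trans (abs_add_le _ _) ?_
    linarith
  have h4 := chi_le σ t r i
  have h5 := le_chi σ t r i
  unfold eU
  exact E8_main hσ hρ w.S0 (E8_CP n) (ez_le w hσ (by omega))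
    (E8_ze_div w hσ (by omega)) (by linarith)
    (by linarith) (by linarith) h3 (by linarith) (p.p2 r hr)

theorem eD_le (w : Win n σ ρ S i t s lam) (p : Pen n σ S i t s lam) (hσ : 0 < σ) {r : ℕ}
    (hr : r ≤ n) : eD σ t s lam r i ≤ (2 * CP n + 10) * (σ + ρ) * S := by
  obtain ⟨hρ, _⟩ := E8_ze_rho w hσ (show r ≤ n + 1 by omega)
  have h1 := w.ns r hr i (by omega) (by omega)
  have h1' := w.ns r hr (i + 1) (by omega) (by omega)
  have h2 := w.nl r (by omega) i (by omega) (by omega)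
  have h3 : |s r i + lam r i| ≤ 2 * ρ := by
    refine le_trans (abs_add_le _ _) ?_
    linarith
  have h4 := chi_le σ t (r + 1) i
  have h5 := le_chi σ t (r + 1) i
  unfold eD
  exact E8_main hσ hρ w.S0 (E8_CP n) (ez_le w hσ (by omega))
    (E8_ze_div w hσ (by omega)) (by linarith)
    (by linarith) h3 (by linarith) (by linarith) (p.p3 r hr)

end Pool.Agent.StripTwo
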